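import Mathlib
import Pool.Agent.Helper93.Sph.W1

/-! Gaussians over radial sets of small radial measure, and the local `L²` estimate for
functions whose Fourier transform lives on such a set. -/

set_option autoImplicit false

open MeasureTheory Real Set Filter Topology
open scoped ENNReal NNReal RealInnerProductSpace

namespace Pool.Agent.Helper854_SP

open Pool.Agent.Helper93.Sph


/-- the set of the points whose norm is in `B` -/
def rad (n : ℕ) (B : Set ℝ) : Set (EuclideanSpace ℝ (Fin n)) := {η | ‖η‖ ∈ B}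

lemma rad_meas (n : ℕ) {B : Set ℝ} (hB : MeasurableSet B) : MeasurableSet (rad n B) :=
  measurable_norm hB

/-- a measure on the line which is bounded by the length on intervals is bounded by the length -/
lemma le_vol (ν : Measure ℝ) (K : ℝ≥0∞) (hK0 : K ≠ 0) (hK : K ≠ ⊤)
    (h : ∀ a b : ℝ, ν (Ioc a b) ≤ K * ENNReal.ofReal (b - a)) (B : Set ℝ) :
    ν B ≤ K * volume B := by
  have h1 : ∀ t : Set ℝ, ν t ≤ K * StieltjesFunction.id.length t := by
    intro t
    rw [StieltjesFunction.length_eq, ENNReal.mul_iInf_of_ne hK0 hK]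
    refine le_iInf fun a => ?_
    rw [ENNReal.mul_iInf_of_ne hK0 hK]
    refine le_iInf fun b => ?_
    rw [ENNReal.mul_iInf_of_ne hK0 hK]
    refine le_iInf fun ht => ?_
    have ht' : t ⊆ Ioc a b := by
      have h0 : (botSet : Set ℝ) = ∅ := by simp [botSet]
      rwa [h0, sdiff_empty] at ht
    exact (measure_mono ht').trans (h a b)
  rw [Real.volume_eq_stieltjes_id]
  have h2 : StieltjesFunction.id.measure B = StieltjesFunction.id.outer B := by
    rw [StieltjesFunction.measure]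
    rfl
  rw [h2]
  unfold StieltjesFunction.outer
  rw [OuterMeasure.ofFunction_apply, ENNReal.mul_iInf_of_ne hK0 hK]
  refine le_iInf fun t => ?_
  rw [ENNReal.mul_iInf_of_ne hK0 hK]
  refine le_iInf fun ht => ?_
  calc ν B ≤ ν (⋃ i, t i) := measure_mono ht
    _ ≤ ∑' i, ν (t i) := measure_iUnion_le _
    _ ≤ ∑' i, K * StieltjesFunction.id.length (t i) := ENNReal.tsum_le_tsum fun i => h1 _
    _ = _ := ENNReal.tsum_mul_left

/-- **a Gaussian over a radial set** -/
lemma rad_bound {m : ℕ} {c : ℝ} (hc : 0 < c) (ξ : EuclideanSpace ℝ (Fin (m + 1))) {B : Set ℝ}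
    (hB : MeasurableSet B) :
    ∫⁻ η in rad (m + 1) B, ENNReal.ofReal (rexp (-c * ‖ξ - η‖ ^ 2))
      ≤ ENNReal.ofReal (2 * (m + 1) * √(m + 1) * (π / c) ^ ((m : ℝ) / 2)) * volume B := by
  set K : ℝ := 2 * (m + 1) * √(m + 1) * (π / c) ^ ((m : ℝ) / 2) with hK
  have hK0 : 0 < K := by positivity
  set g : EuclideanSpace ℝ (Fin (m + 1)) → ℝ≥0∞ :=
    fun η => ENNReal.ofReal (rexp (-c * ‖ξ - η‖ ^ 2)) with hg
  have hgm : Measurable g := by
    refine ENNReal.measurable_ofReal.comp (Continuous.measurable ?_)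
    fun_prop
  set ν : Measure ℝ := (volume.withDensity g).map norm with hν
  have hνB : ∀ B : Set ℝ, MeasurableSet B → ν B = ∫⁻ η in rad (m + 1) B, g η := by
    intro B hB
    rw [hν, Measure.map_apply measurable_norm hB, withDensity_apply _ (measurable_norm hB)]
    rfl
  rw [← hνB B hB]
  refine le_vol ν (ENNReal.ofReal K) (by simpa using hK0) ENNReal.ofReal_ne_top ?_ B
  intro a b
  rcases le_or_gt b a with hab | hab
  · rw [Ioc_eq_empty (not_lt.2 hab)]; simp
  refine ENNReal.le_of_forall_pos_le_add fun ε hε _ => ?_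
  rcases lt_or_ge b 0 with hb | hb
  · have : Ioc a b ⊆ Iio 0 := fun t ht => lt_of_le_of_lt ht.2 hb
    have h0 : ν (Iio 0) = 0 := by
      rw [hνB _ measurableSet_Iio]
      have : rad (m + 1) (Iio 0) = ∅ := by
        ext η
        simp [rad]
      rw [this]; simp
    rw [measure_mono_null this h0]
    exact zero_le
  set r : ℝ := max a 0 with hr
  have hr0 : 0 ≤ r := le_max_right _ _
  have har : a ≤ r := le_max_left _ _
  have hrb : r ≤ b := max_le hab.le hb
  set e : ℝ := (ε : ℝ) / K with he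
  have he0 : 0 < e := by positivity
  have h1 : rad (m + 1) (Ioc a b) ⊆ shell (m + 1) r (r + (b + e - r)) := by
    intro η hη
    have h2 : a < ‖η‖ ∧ ‖η‖ ≤ b := hη
    refine ⟨max_le h2.1.le (norm_nonneg _), ?_⟩
    linarith [h2.2]
  rw [hνB _ measurableSet_Ioc]
  refine (lintegral_mono_set h1).trans ((shell_bound hr0 (by linarith) hc ξ).trans ?_)
  rw [← ENNReal.ofReal_mul hK0.le, ← ENNReal.ofReal_coe_nnreal (p := ε),
    ← ENNReal.ofReal_add (mul_nonneg hK0.le (by linarith)) (by positivity)]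
  refine ENNReal.ofReal_le_ofReal ?_
  have h3 : 2 * ((m : ℝ) + 1) * √(m + 1) * (b + e - r) * (π / c) ^ ((m : ℝ) / 2)
      = K * (b + e - r) := by rw [hK]; ring
  rw [h3]
  have h4 : K * e = ε := by rw [he]; field_simp
  nlinarith

/-- the kernel bound for radial sets -/
lemma kern_rad {m : ℕ} {ρ : ℝ} (hρ : 0 < ρ) (ξ : EuclideanSpace ℝ (Fin (m + 1))) {B : Set ℝ}
    (hB : MeasurableSet B) :
    ∫⁻ η in rad (m + 1) B, ENNReal.ofReal
      ((π / (1 / ρ ^ 2)) ^ (((m + 1 : ℕ) : ℝ) / 2) * rexp (-(π ^ 2 / (1 / ρ ^ 2)) * ‖ξ - η‖ ^ 2))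
      ≤ ENNReal.ofReal (2 * (m + 1) * √(m + 1) * √π * ρ) * volume B := by
  have hc : 0 < π ^ 2 / (1 / ρ ^ 2) := by positivity
  have h := rad_bound (m := m) hc ξ hB
  have hp : 0 < π / (1 / ρ ^ 2) := by positivity
  simp_rw [ENNReal.ofReal_mul (rpow_nonneg hp.le _)]
  rw [lintegral_const_mul' _ _ ENNReal.ofReal_ne_top]
  refine (mul_le_mul_right h _).trans ?_
  rw [← mul_assoc, ← ENNReal.ofReal_mul (rpow_nonneg hp.le _)]
  refine mul_le_mul_left (ENNReal.ofReal_le_ofReal (le_of_eq ?_)) _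
  have e1 : π / (π ^ 2 / (1 / ρ ^ 2)) = (π / (1 / ρ ^ 2))⁻¹ := by
    field_simp
  rw [e1, Real.inv_rpow hp.le]
  have e2 : (π / (1 / ρ ^ 2)) ^ (((m + 1 : ℕ) : ℝ) / 2)
      = (π / (1 / ρ ^ 2)) ^ ((m : ℝ) / 2) * (√π * ρ) := by
    have : (((m + 1 : ℕ) : ℝ) / 2) = (m : ℝ) / 2 + 1 / 2 := by push_cast; ring
    rw [this, Real.rpow_add hp]
    congr 1
    rw [← Real.sqrt_eq_rpow, show π / (1 / ρ ^ 2) = π * ρ ^ 2 by field_simp,
      Real.sqrt_mul pi_pos.le, Real.sqrt_sq hρ.le]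
  rw [e2]
  have h3 : (π / (1 / ρ ^ 2)) ^ ((m : ℝ) / 2) ≠ 0 := (rpow_pos_of_pos hp _).ne'
  field_simp

end Pool.Agent.Helper854_SP
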