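import Mathlib
import Pool.Agent.Helper854_SP.K

/-! The local `L²` estimate for functions whose Fourier transform lives on a radial set of small
radial measure. -/

set_option autoImplicit false

open MeasureTheory Real Set Filter Topology
open scoped ENNReal NNReal RealInnerProductSpace

namespace Pool.Agent.Helper854_SP

open Pool.Agent.Helper93.Sph


/-- **Local `L²` estimate for radial sets of frequencies.**  -/
theorem local_rad {m : ℕ} {ρ : ℝ} (hρ : 0 < ρ) {B : Set ℝ} (hB : MeasurableSet B)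
    (hBv : volume B ≠ ⊤) (hSv : volume (rad (m + 1) B) < ⊤)
    {G : En (m + 1) → ℂ} (hG : MemLp G 2) :
    ∫⁻ x in Metric.closedBall (0 : En (m + 1)) ρ,
        ‖Fi ((rad (m + 1) B).indicator G) x‖ₑ ^ 2
      ≤ ENNReal.ofReal (10 * (m + 1) * √(m + 1) * ρ) * volume B *
          ∫⁻ ξ in rad (m + 1) B, ‖G ξ‖ₑ ^ 2 := by
  set S := rad (m + 1) B with hS
  have hSm : MeasurableSet S := rad_meas _ hB
  set F := S.indicator G with hF
  have hFi : Integrable F := piece_int hG hSm hSv
  set b : ℝ := 1 / ρ ^ 2 with hb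
  have hb0 : 0 < b := by positivity
  set K : En (m + 1) → En (m + 1) → ℝ := fun ξ η =>
    (π / b) ^ (((m + 1 : ℕ) : ℝ) / 2) * rexp (-(π ^ 2 / b) * ‖ξ - η‖ ^ 2) with hK
  have hK0 : ∀ ξ η, 0 ≤ K ξ η := fun ξ η => by rw [hK]; positivity
  have hKs : ∀ ξ η, K ξ η = K η ξ := fun ξ η => by simp only [hK, norm_sub_rev ξ η]
  have hKc : Continuous (fun z : En (m + 1) × En (m + 1) => K z.1 z.2) := by
    simp only [hK]; fun_prop
  -- step 1
  have i1 : Integrable (fun x => ‖Fi F x‖ ^ 2 * rexp (-b * ‖x‖ ^ 2)) := by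
    refine (gint hb0).bdd_mul (c := (∫ ξ, ‖F ξ‖) ^ 2) ?_ ?_
    · exact ((Fi_cont hFi).norm.pow 2).aestronglyMeasurable
    · refine Eventually.of_forall fun x => ?_
      rw [norm_pow, norm_norm]
      exact pow_le_pow_left₀ (norm_nonneg _) (Fi_bdd x) 2
  have s1 : ∫⁻ x in Metric.closedBall (0 : En (m + 1)) ρ, ‖Fi F x‖ₑ ^ 2
      ≤ ENNReal.ofReal (rexp 1) * ENNReal.ofReal (∫ x, ‖Fi F x‖ ^ 2 * rexp (-b * ‖x‖ ^ 2)) := by
    rw [ofReal_integral_eq_lintegral_ofReal i1 (Eventually.of_forall fun x => by positivity),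
      ← lintegral_const_mul' _ _ ENNReal.ofReal_ne_top, ← lintegral_indicator
      Metric.isClosed_closedBall.measurableSet]
    refine lintegral_mono fun x => ?_
    rw [Set.indicator]
    split_ifs with hx
    · have hx' : ‖x‖ ≤ ρ := by simpa using hx
      rw [← ENNReal.ofReal_mul (exp_pos _).le, ← ofReal_norm, ← ENNReal.ofReal_pow
        (norm_nonneg _)]
      refine ENNReal.ofReal_le_ofReal ?_
      have h1 : 1 ≤ rexp 1 * rexp (-b * ‖x‖ ^ 2) := by
        rw [← Real.exp_add]
        refine Real.one_le_exp ?_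
        have : b * ‖x‖ ^ 2 ≤ 1 := by
          rw [hb, one_div, inv_mul_le_iff₀ (by positivity), mul_one]
          exact pow_le_pow_left₀ (norm_nonneg _) hx' 2
        linarith
      calc ‖Fi F x‖ ^ 2 = ‖Fi F x‖ ^ 2 * 1 := (mul_one _).symm
        _ ≤ ‖Fi F x‖ ^ 2 * (rexp 1 * rexp (-b * ‖x‖ ^ 2)) :=
            mul_le_mul_of_nonneg_left h1 (by positivity)
        _ = _ := by ring
    · exact zero_le
  -- step 2
  have s2 : ENNReal.ofReal (∫ x, ‖Fi F x‖ ^ 2 * rexp (-b * ‖x‖ ^ 2)) ≤
      ∫⁻ z : En (m + 1) × En (m + 1), ENNReal.ofReal (‖F z.1‖ * ‖F z.2‖ * K z.1 z.2) := by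
    refine (ENNReal.ofReal_le_ofReal (pairing hb0 hFi)).trans ?_
    rw [integral_eq_lintegral_of_nonneg_ae]
    · exact ENNReal.ofReal_toReal_le
    · exact Eventually.of_forall fun z => mul_nonneg (by positivity) (hK0 _ _)
    · rw [Measure.volume_eq_prod]
      exact ((hFi.aestronglyMeasurable.norm.comp_fst).mul
        (hFi.aestronglyMeasurable.norm.comp_snd)).mul hKc.aestronglyMeasurable
  -- step 3
  have hm1 : AEMeasurable (fun z : En (m + 1) × En (m + 1) =>
      ‖F z.1‖ₑ ^ 2 * (S.indicator (1 : En (m + 1) → ℝ≥0∞) z.2 * ENNReal.ofReal (K z.1 z.2)))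
      (volume.prod volume) := by
    refine ((hFi.aestronglyMeasurable.comp_fst).enorm.pow_const 2).mul (AEMeasurable.mul ?_ ?_)
    · exact ((measurable_one.indicator hSm).comp measurable_snd).aemeasurable
    · exact (ENNReal.measurable_ofReal.comp hKc.measurable).aemeasurable
  have hm2 : AEMeasurable (fun z : En (m + 1) × En (m + 1) =>
      ‖F z.2‖ₑ ^ 2 * (S.indicator (1 : En (m + 1) → ℝ≥0∞) z.1 * ENNReal.ofReal (K z.1 z.2)))
      (volume.prod volume) := by
    refine ((hFi.aestronglyMeasurable.comp_snd).enorm.pow_const 2).mul (AEMeasurable.mul ?_ ?_)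
    · exact ((measurable_one.indicator hSm).comp measurable_fst).aemeasurable
    · exact (ENNReal.measurable_ofReal.comp hKc.measurable).aemeasurable
  have hker : ∀ ξ, ∫⁻ η, S.indicator (1 : En (m + 1) → ℝ≥0∞) η * ENNReal.ofReal (K ξ η)
      ≤ ENNReal.ofReal (2 * (m + 1) * √(m + 1) * √π * ρ) * volume B := by
    intro ξ
    refine le_trans (le_of_eq ?_) (kern_rad hρ ξ hB)
    rw [← lintegral_indicator hSm]
    refine lintegral_congr fun η => ?_
    by_cases hη : η ∈ S
    · rw [indicator_of_mem hη, indicator_of_mem hη, Pi.one_apply, one_mul]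
    · rw [indicator_of_notMem hη, indicator_of_notMem hη]; simp
  set A : ℝ≥0∞ := ENNReal.ofReal (2 * (m + 1) * √(m + 1) * √π * ρ) * volume B with hA
  have hAt : A ≠ ⊤ := ENNReal.mul_ne_top ENNReal.ofReal_ne_top hBv
  have t1 : ∫⁻ z : En (m + 1) × En (m + 1),
      ‖F z.1‖ₑ ^ 2 * (S.indicator (1 : En (m + 1) → ℝ≥0∞) z.2 * ENNReal.ofReal (K z.1 z.2))
      ≤ A * ∫⁻ ξ, ‖F ξ‖ₑ ^ 2 := by
    rw [Measure.volume_eq_prod, lintegral_prod _ hm1, ← lintegral_const_mul' _ _
      hAt]
    refine lintegral_mono fun ξ => ?_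
    simp only
    rw [lintegral_const_mul'' , mul_comm]
    · exact mul_le_mul_left (hker ξ) _
    · refine AEMeasurable.mul (measurable_one.indicator hSm).aemeasurable ?_
      exact (ENNReal.measurable_ofReal.comp (hKc.comp
        (by fun_prop : Continuous fun η : En (m + 1) => (ξ, η))).measurable).aemeasurable
  have t2 : ∫⁻ z : En (m + 1) × En (m + 1),
      ‖F z.2‖ₑ ^ 2 * (S.indicator (1 : En (m + 1) → ℝ≥0∞) z.1 * ENNReal.ofReal (K z.1 z.2))
      ≤ A * ∫⁻ ξ, ‖F ξ‖ₑ ^ 2 := by
    rw [Measure.volume_eq_prod, lintegral_prod_symm _ hm2, ← lintegral_const_mul' _ _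
      hAt]
    refine lintegral_mono fun ξ => ?_
    simp only
    rw [lintegral_const_mul'' , mul_comm]
    · refine mul_le_mul_left (le_trans (le_of_eq ?_) (hker ξ)) _
      refine lintegral_congr fun η => ?_
      rw [hKs η ξ]
    · refine AEMeasurable.mul (measurable_one.indicator hSm).aemeasurable ?_
      exact (ENNReal.measurable_ofReal.comp (hKc.comp
        (by fun_prop : Continuous fun η : En (m + 1) => (η, ξ))).measurable).aemeasurable
  have s3 : ∫⁻ z : En (m + 1) × En (m + 1), ENNReal.ofReal (‖F z.1‖ * ‖F z.2‖ * K z.1 z.2)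
      ≤ A * ∫⁻ ξ, ‖F ξ‖ₑ ^ 2 := by
    have h1 : ∀ z : En (m + 1) × En (m + 1),
        ENNReal.ofReal (‖F z.1‖ * ‖F z.2‖ * K z.1 z.2) ≤
        ENNReal.ofReal (1 / 2) * (‖F z.1‖ₑ ^ 2 *
          (S.indicator (1 : En (m + 1) → ℝ≥0∞) z.2 * ENNReal.ofReal (K z.1 z.2))) +
        ENNReal.ofReal (1 / 2) * (‖F z.2‖ₑ ^ 2 *
          (S.indicator (1 : En (m + 1) → ℝ≥0∞) z.1 * ENNReal.ofReal (K z.1 z.2))) := by
      rintro ⟨x, y⟩
      simp only
      by_cases hx : x ∈ S
      · by_cases hy : y ∈ S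
        · rw [indicator_of_mem hx, indicator_of_mem hy]
          simp only [Pi.one_apply, one_mul]
          rw [← ofReal_norm, ← ofReal_norm, ← ENNReal.ofReal_pow
            (norm_nonneg _), ← ENNReal.ofReal_pow (norm_nonneg _), ← ENNReal.ofReal_mul
            (by positivity), ← ENNReal.ofReal_mul (by positivity), ← ENNReal.ofReal_mul
            (by positivity), ← ENNReal.ofReal_mul (by positivity), ← ENNReal.ofReal_add
            (by have := hK0 x y; positivity) (by have := hK0 x y; positivity)]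
          refine ENNReal.ofReal_le_ofReal ?_
          have := hK0 x y
          nlinarith [mul_nonneg (sq_nonneg (‖F x‖ - ‖F y‖)) this]
        · have : F y = 0 := by rw [hF, indicator_of_notMem hy]
          simp [this]
      · have : F x = 0 := by rw [hF, indicator_of_notMem hx]
        simp [this]
    refine (lintegral_mono h1).trans ?_
    rw [Measure.volume_eq_prod] at t1 t2 ⊢
    rw [lintegral_add_left' (hm1.const_mul _), lintegral_const_mul'' _ hm1,
      lintegral_const_mul'' _ hm2]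
    refine (add_le_add (mul_le_mul_right t1 _) (mul_le_mul_right t2 _)).trans (le_of_eq ?_)
    rw [← add_mul, ← ENNReal.ofReal_add (by norm_num) (by norm_num)]
    norm_num
  have s4 : ∫⁻ ξ, ‖F ξ‖ₑ ^ 2 = ∫⁻ ξ in S, ‖G ξ‖ₑ ^ 2 := by
    rw [← lintegral_indicator hSm]
    refine lintegral_congr fun ξ => ?_
    by_cases h : ξ ∈ S
    · rw [hF, indicator_of_mem h, indicator_of_mem h]
    · rw [hF, indicator_of_notMem h, indicator_of_notMem h]; simp
  rw [s4] at s3
  refine s1.trans ((mul_le_mul_right (s2.trans s3) _).trans ?_)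
  rw [← mul_assoc]
  refine mul_le_mul_left ?_ _
  rw [hA, ← mul_assoc, ← ENNReal.ofReal_mul (exp_pos _).le]
  refine mul_le_mul_left (ENNReal.ofReal_le_ofReal ?_) _
  have he : rexp 1 * (2 * √π) ≤ 10 := by
    have h1 : rexp 1 < 2.7182818286 := Real.exp_one_lt_d9
    have h2 : √π ≤ 1.7726 := by
      rw [Real.sqrt_le_left (by norm_num)]
      have := Real.pi_lt_d4
      norm_num
      linarith
    have h3 : 0 ≤ √π := Real.sqrt_nonneg _
    nlinarith [exp_pos (1 : ℝ)]
  calc rexp 1 * (2 * (m + 1) * √(m + 1) * √π * ρ)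
      = (rexp 1 * (2 * √π)) * ((m + 1) * √(m + 1) * ρ) := by ring
    _ ≤ 10 * ((m + 1) * √(m + 1) * ρ) := by
        refine mul_le_mul_of_nonneg_right he (by positivity)
    _ = _ := by ring

end Pool.Agent.Helper854_SP
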