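import Mathlib
import Pool.Agent.Helper854_SP.L

/-! Increments of the ball partial sums when the frequencies live on a radial set. -/

set_option autoImplicit false

open MeasureTheory Real Set Filter Topology
open scoped ENNReal NNReal RealInnerProductSpace

namespace Pool.Agent.Helper854_SP

open Pool.Agent.Helper93.Sph

variable {m : ℕ} {A : Set ℝ} {G : En (m + 1) → ℂ}

/-- `G` is supported, up to a null set, in the points whose norm is in `A` -/
def Supp (A : Set ℝ) (G : En (m + 1) → ℂ) : Prop := ∀ᵐ ξ : En (m + 1), ‖ξ‖ ∉ A → G ξ = 0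

/-- the constant of the local estimate -/
noncomputable def cst (m : ℕ) (ρ : ℝ) : ℝ≥0∞ := ENNReal.ofReal (10 * (m + 1) * √(m + 1) * ρ)

lemma cst_ne_top (m : ℕ) (ρ : ℝ) : cst m ρ ≠ ⊤ := ENNReal.ofReal_ne_top

lemma shell_eq (r s : ℝ) : shell (m + 1) r s = rad (m + 1) (Ico r s) := rfl

/-- mass of `|G|²` over a radial set, a measure on the line -/
noncomputable def lam (G : En (m + 1) → ℂ) : Measure ℝ :=
  (volume.withDensity (fun ξ => ‖G ξ‖ₑ ^ 2)).map norm

lemma lam_apply (G : En (m + 1) → ℂ) {B : Set ℝ} (hB : MeasurableSet B) :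
    lam G B = ∫⁻ ξ in rad (m + 1) B, ‖G ξ‖ₑ ^ 2 := by
  rw [lam, Measure.map_apply measurable_norm hB, withDensity_apply _ (measurable_norm hB)]
  rfl

lemma lam_le (G : En (m + 1) → ℂ) (B : Set ℝ) : lam G B ≤ ∫⁻ ξ, ‖G ξ‖ₑ ^ 2 := by
  refine (measure_mono (subset_univ B)).trans ?_
  rw [lam_apply G MeasurableSet.univ]
  exact lintegral_mono' Measure.restrict_le_self le_rfl

lemma lam_sum (G : En (m + 1) → ℂ) (R : ℕ → ℝ) (N : ℕ) (hR : ∀ i < N, R i ≤ R (i + 1)) :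
    R 0 ≤ R N ∧ ∑ i ∈ Finset.range N, lam G (Ico (R i) (R (i + 1))) ≤ lam G (Ico (R 0) (R N)) := by
  induction N with
  | zero => simp
  | succ N ih =>
    obtain ⟨h0, h1⟩ := ih fun i hi => hR i (by omega)
    have h2 := hR N (by omega)
    refine ⟨h0.trans h2, ?_⟩
    rw [Finset.sum_range_succ, ← Ico_union_Ico_eq_Ico h0 h2,
      measure_union (Ico_disjoint_Ico_same) measurableSet_Ico]
    gcongr

lemma ind_ae (hA : MeasurableSet A) (hs : Supp A G) (r s : ℝ) :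
    (shell (m + 1) r s).indicator G =ᵐ[volume] (rad (m + 1) (A ∩ Ico r s)).indicator G := by
  filter_upwards [hs] with ξ hξ
  by_cases h1 : ξ ∈ shell (m + 1) r s
  · by_cases h2 : ‖ξ‖ ∈ A
    · have h3 : ξ ∈ rad (m + 1) (A ∩ Ico r s) := ⟨h2, h1⟩
      rw [indicator_of_mem h1, indicator_of_mem h3]
    · have h3 : ξ ∉ rad (m + 1) (A ∩ Ico r s) := fun h => h2 h.1
      rw [indicator_of_mem h1, indicator_of_notMem h3, hξ h2]
  · have h3 : ξ ∉ rad (m + 1) (A ∩ Ico r s) := fun h => h1 h.2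
    rw [indicator_of_notMem h1, indicator_of_notMem h3]

lemma ps_sub' (hA : MeasurableSet A) (hG : MemLp G 2) (hs : Supp A G) {r s : ℝ} (hr : 0 ≤ r)
    (hrs : r ≤ s) (x : En (m + 1)) :
    ps G s x - ps G r x = Fi ((rad (m + 1) (A ∩ Ico r s)).indicator G) x := by
  rw [ps_sub hG hr hrs, Fi, Fi]
  refine integral_congr_ae ?_
  filter_upwards [ind_ae hA hs r s] with ξ hξ
  rw [hξ]

lemma rad_fin {r s : ℝ} (B : Set ℝ) : volume (rad (m + 1) (B ∩ Ico r s)) < ⊤ := by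
  refine lt_of_le_of_lt (measure_mono ?_) (measure_ball_lt_top (x := (0 : En (m + 1))) (r := s))
  rintro η ⟨_, h⟩
  simpa using h.2

lemma vol_fin {r s : ℝ} (B : Set ℝ) : volume (B ∩ Ico r s) ≠ ⊤ := by
  refine (lt_of_le_of_lt (measure_mono inter_subset_right) ?_).ne
  rw [Real.volume_Ico]; exact ENNReal.ofReal_lt_top

/-- increments, local estimate -/
lemma incr_rad (hA : MeasurableSet A) (hG : MemLp G 2) (hs : Supp A G) {r s : ℝ} (hr : 0 ≤ r)
    (hrs : r ≤ s) (x₀ : En (m + 1)) {ρ : ℝ} (hρ : 0 < ρ) :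
    ∫⁻ x in Metric.closedBall x₀ ρ, ‖ps G s x - ps G r x‖ₑ ^ 2
      ≤ cst m ρ * volume (A ∩ Ico r s) * lam G (Ico r s) := by
  have hG' : MemLp (fun ξ => ek x₀ ξ * G ξ) 2 := by
    refine (memLp_congr_norm ?_ hG.aestronglyMeasurable ?_).2 hG
    · exact ((ek_cont.comp (by fun_prop : Continuous fun ξ : En (m + 1) => (x₀, ξ))
        ).aestronglyMeasurable).mul hG.aestronglyMeasurable
    · refine Eventually.of_forall fun ξ => ?_
      rw [norm_mul, ek_norm, one_mul]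
  have e1 : ∫⁻ x in Metric.closedBall x₀ ρ, ‖ps G s x - ps G r x‖ₑ ^ 2
      = ∫⁻ y in Metric.closedBall (0 : En (m + 1)) ρ,
        ‖Fi ((rad (m + 1) (A ∩ Ico r s)).indicator (fun ξ => ek x₀ ξ * G ξ)) y‖ₑ ^ 2 := by
    rw [← lintegral_indicator Metric.isClosed_closedBall.measurableSet,
      ← lintegral_indicator Metric.isClosed_closedBall.measurableSet,
      ← lintegral_add_left_eq_self _ x₀]
    refine lintegral_congr fun y => ?_
    have hiff : x₀ + y ∈ Metric.closedBall x₀ ρ ↔ y ∈ Metric.closedBall (0 : En (m + 1)) ρ := by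
      simp
    by_cases hy : y ∈ Metric.closedBall (0 : En (m + 1)) ρ
    · rw [indicator_of_mem hy, indicator_of_mem (hiff.2 hy), ps_sub' hA hG hs hr hrs]
      congr 2
      rw [Fi, Fi]
      refine integral_congr_ae (Eventually.of_forall fun ξ => ?_)
      by_cases hξ : ξ ∈ rad (m + 1) (A ∩ Ico r s)
      · simp only [indicator_of_mem hξ]; rw [ek_add]; ring
      · simp only [indicator_of_notMem hξ]; simp
    · rw [indicator_of_notMem hy, indicator_of_notMem (fun h' => hy (hiff.1 h'))]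
  rw [e1]
  refine (local_rad hρ (hA.inter measurableSet_Ico) (vol_fin A) (rad_fin A) hG').trans ?_
  rw [cst]
  refine mul_le_mul_right ?_ _
  rw [lam_apply G measurableSet_Ico]
  calc ∫⁻ ξ in rad (m + 1) (A ∩ Ico r s), ‖ek x₀ ξ * G ξ‖ₑ ^ 2
      = ∫⁻ ξ in rad (m + 1) (A ∩ Ico r s), ‖G ξ‖ₑ ^ 2 := by
        refine lintegral_congr fun ξ => ?_
        rw [enorm_mul, ← ofReal_norm (ek x₀ ξ), ek_norm]
        simp
    _ ≤ _ := lintegral_mono_set fun ξ h => h.2

/-- increments, global estimate -/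
lemma incr_l2 (hG : MemLp G 2) {r s : ℝ} (hr : 0 ≤ r) (hrs : r ≤ s) :
    ∫⁻ x, ‖ps G s x - ps G r x‖ₑ ^ 2 ≤ lam G (Ico r s) := by
  simp_rw [ps_sub hG hr hrs]
  rw [lam_apply G measurableSet_Ico]
  exact piece_l2 hG (shell_meas _ _ _) (shell_finite _ _ _)

/-- the volume of a radial set -/
lemma vol_rad {s : ℝ} {B : Set ℝ} (hB : MeasurableSet B) (hs : 0 ≤ s) (hBs : B ⊆ Iio s) :
    volume (rad (m + 1) B) ≤
      ENNReal.ofReal (rexp (s ^ 2) * (2 * (m + 1) * √(m + 1) * (π / 1) ^ ((m : ℝ) / 2))) *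
        volume B := by
  have h1 := rad_bound (m := m) one_pos 0 hB
  have h2 : volume (rad (m + 1) B) ≤ ENNReal.ofReal (rexp (s ^ 2)) *
      ∫⁻ η in rad (m + 1) B, ENNReal.ofReal (rexp (-1 * ‖(0 : En (m + 1)) - η‖ ^ 2)) := by
    rw [← lintegral_const_mul' _ _ ENNReal.ofReal_ne_top, ← setLIntegral_one]
    refine setLIntegral_mono' (rad_meas _ hB) fun η hη => ?_
    rw [← ENNReal.ofReal_mul (exp_pos _).le, ← Real.exp_add, ← ENNReal.ofReal_one]
    refine ENNReal.ofReal_le_ofReal (Real.one_le_exp ?_)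
    have h3 : ‖η‖ < s := hBs hη
    rw [zero_sub, norm_neg]
    have := pow_le_pow_left₀ (norm_nonneg η) h3.le 2
    linarith
  refine h2.trans ((mul_le_mul_right h1 _).trans (le_of_eq ?_))
  rw [← mul_assoc, ← ENNReal.ofReal_mul (exp_pos _).le]

/-- increments, pointwise estimate -/
lemma incr_pt (hA : MeasurableSet A) (hG : MemLp G 2) (hs : Supp A G) (S : ℝ) :
    ∃ K : ℝ, 0 ≤ K ∧ ∀ r s : ℝ, 0 ≤ r → r ≤ s → s ≤ S → ∀ x : En (m + 1),
      ‖ps G s x - ps G r x‖ ^ 2 ≤ K * (volume (A ∩ Ico r s)).toReal := by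
  set K₁ : ℝ := rexp (S ^ 2) * (2 * (m + 1) * √(m + 1) * (π / 1) ^ ((m : ℝ) / 2)) with hK₁
  have hK₁0 : 0 ≤ K₁ := by positivity
  set I : ℝ≥0∞ := ∫⁻ ξ, ‖G ξ‖ₑ ^ 2 with hI
  have hIt : I ≠ ⊤ := by
    have := hG.eLpNorm_lt_top
    rw [eLpNorm_lt_top_iff_lintegral_rpow_enorm_lt_top (by norm_num) (by norm_num)] at this
    simpa [hI] using this.ne
  refine ⟨K₁ * I.toReal, by positivity, fun r s hr hrs hsS x => ?_⟩
  have hS : 0 ≤ S := hr.trans (hrs.trans hsS)
  have h1 : ‖ps G s x - ps G r x‖ₑ ^ 2 ≤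
      (ENNReal.ofReal K₁ * volume (A ∩ Ico r s)) * I := by
    rw [ps_sub' hA hG hs hr hrs]
    refine (piece_pt hG (rad_meas _ (hA.inter measurableSet_Ico)) x).trans ?_
    refine mul_le_mul' ?_ (lintegral_mono' Measure.restrict_le_self le_rfl)
    exact vol_rad (hA.inter measurableSet_Ico) hS
      (fun t ht => lt_of_lt_of_le ht.2.2 hsS)
  have h2 := ENNReal.toReal_mono (ENNReal.mul_ne_top (ENNReal.mul_ne_top ENNReal.ofReal_ne_top
    (vol_fin A)) hIt) h1
  rw [ENNReal.toReal_mul, ENNReal.toReal_mul, ENNReal.toReal_ofReal hK₁0, ENNReal.toReal_pow,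
    toReal_enorm] at h2
  calc _ ≤ _ := h2
    _ = _ := by ring

end Pool.Agent.Helper854_SP
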