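import Mathlib
import Pool.Agent.Helper854_SP.M

/-! The maximal inequality for a block of radii. -/

set_option autoImplicit false

open MeasureTheory Real Set Filter Topology
open scoped ENNReal NNReal RealInnerProductSpace

namespace Pool.Agent.Helper854_SP

open Pool.Agent.Helper93.Sph

variable {m : ℕ} {A : Set ℝ} {G : En (m + 1) → ℂ}

/-- radial measure of the frequencies between `r` and `R` -/
noncomputable def Mf (A : Set ℝ) (r R : ℝ) : ℝ := (volume (A ∩ Ico r R)).toReal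

lemma Mf_add (hA : MeasurableSet A) {r R₁ R₂ : ℝ} (h1 : r ≤ R₁) (h2 : R₁ ≤ R₂) :
    Mf A r R₂ = Mf A r R₁ + (volume (A ∩ Ico R₁ R₂)).toReal := by
  rw [Mf, Mf, ← Ico_union_Ico_eq_Ico h1 h2, inter_union_distrib_left, measure_union
    ((Ico_disjoint_Ico_same).mono inter_subset_right inter_subset_right)
    (hA.inter measurableSet_Ico), ENNReal.toReal_add (vol_fin A) (vol_fin A)]

lemma Mf_nonneg (A : Set ℝ) (r R : ℝ) : 0 ≤ Mf A r R := ENNReal.toReal_nonneg

lemma Mf_self (A : Set ℝ) (r : ℝ) : Mf A r r = 0 := by simp [Mf]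

lemma Mf_mono (A : Set ℝ) (r : ℝ) : Monotone (Mf A r) := by
  intro R₁ R₂ h
  refine ENNReal.toReal_mono (vol_fin A) (measure_mono ?_)
  exact inter_subset_inter_right _ (Ico_subset_Ico_right h)

lemma Mf_lip (A : Set ℝ) (r : ℝ) {R₁ R₂ : ℝ} (h : R₁ ≤ R₂) : Mf A r R₂ - Mf A r R₁ ≤ R₂ - R₁ := by
  have h1 : volume (A ∩ Ico r R₂) ≤ volume (A ∩ Ico r R₁) + ENNReal.ofReal (R₂ - R₁) := by
    rw [← Real.volume_Ico]
    refine (measure_mono ?_).trans (measure_union_le _ _)
    rintro t ⟨h2, h3, h4⟩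
    rcases lt_or_ge t R₁ with h5 | h5
    · exact Or.inl ⟨h2, h3, h5⟩
    · exact Or.inr ⟨h5, h4⟩
  have h2 := ENNReal.toReal_mono (ENNReal.add_ne_top.2 ⟨vol_fin A, ENNReal.ofReal_ne_top⟩) h1
  rw [ENNReal.toReal_add (vol_fin A) ENNReal.ofReal_ne_top,
    ENNReal.toReal_ofReal (by linarith)] at h2
  unfold Mf
  linarith

lemma Mf_cont (A : Set ℝ) (r : ℝ) : Continuous (Mf A r) := by
  have : LipschitzWith 1 (Mf A r) := by
    refine LipschitzWith.of_dist_le_mul fun R₁ R₂ => ?_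
    rw [NNReal.coe_one, one_mul, Real.dist_eq, Real.dist_eq]
    rcases le_total R₁ R₂ with h | h
    · have h1 := Mf_lip A r h
      have h2 := Mf_mono A r h
      rw [abs_sub_comm, abs_sub_comm R₁, abs_of_nonneg (by linarith), abs_of_nonneg (by linarith)]
      exact h1
    · have h1 := Mf_lip A r h
      have h2 := Mf_mono A r h
      rw [abs_of_nonneg (by linarith), abs_of_nonneg (by linarith)]
      exact h1
  exact this.continuous

/-- the weights of the chaining -/
noncomputable def wt (K l : ℕ) : ℝ := (3 / 4 : ℝ) ^ (l - K)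

lemma wt_pos (K l : ℕ) : 0 < wt K l := by unfold wt; positivity

lemma wt_sum (K L : ℕ) :
    ∑ l ∈ Finset.range L, wt K l + 4 * (3 / 4 : ℝ) ^ (L - K) ≤ min (L : ℝ) K + 4 := by
  induction L with
  | zero => simp
  | succ L ih =>
    rw [Finset.sum_range_succ]
    rcases Nat.lt_or_ge L K with h | h
    · have h1 : L - K = 0 := by omega
      have h2 : L + 1 - K = 0 := by omega
      have h3 : (L : ℝ) ≤ K := by exact_mod_cast h.le
      have h4 : ((L + 1 : ℕ) : ℝ) ≤ K := by exact_mod_cast h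
      rw [h1, min_eq_left h3] at ih
      rw [h2, min_eq_left h4, wt, h1]
      push_cast
      linarith
    · have h2 : L + 1 - K = (L - K) + 1 := by omega
      have h3 : (K : ℝ) ≤ L := by exact_mod_cast h
      have h4 : (K : ℝ) ≤ ((L + 1 : ℕ) : ℝ) := by push_cast; linarith
      rw [min_eq_right h3] at ih
      rw [h2, min_eq_right h4, wt, pow_succ]
      linarith

lemma wt_sum' (K L : ℕ) : ∑ l ∈ Finset.range L, wt K l ≤ K + 4 := by
  have h1 := wt_sum K L
  have h2 : min (L : ℝ) K ≤ K := min_le_right _ _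
  have h3 : 0 ≤ 4 * (3 / 4 : ℝ) ^ (L - K) := by positivity
  linarith

/-- one step of the chaining -/
lemma step_ineq {u v W V w d : ℝ} (hu : 0 ≤ u) (hv : 0 ≤ v) (hW : 0 ≤ W) (hV : 0 ≤ V) (hw : 0 < w)
    (h1 : u ^ 2 ≤ W * V) (h2 : v ^ 2 ≤ d) : (u + v) ^ 2 ≤ (W + w) * (V + d / w) := by
  have hd : 0 ≤ d := (sq_nonneg v).trans h2
  set p : ℝ := W * d / w with hp
  set q : ℝ := w * V with hq
  have hp0 : 0 ≤ p := by positivity
  have hq0 : 0 ≤ q := by positivity
  have h3 : p * q = (W * V) * d := by rw [hp, hq]; field_simp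
  have h4 : (u * v) ^ 2 ≤ p * q := by
    rw [h3, mul_pow]
    exact mul_le_mul h1 h2 (sq_nonneg _) (by positivity)
  have h5 : 2 * (u * v) ≤ p + q := by
    refine abs_le_of_sq_le_sq' ?_ (by positivity) |>.2
    nlinarith [sq_nonneg (p - q)]
  have h6 : (W + w) * (V + d / w) = W * V + p + q + d := by
    rw [hp, hq]; field_simp; ring
  rw [h6]
  nlinarith

/-- **chaining** -/
lemma chain_abs {E : Type*} [NormedAddCommGroup E] (X : ℕ → E) (X₀ : E) (d : ℕ → ℝ) (K : ℕ)
    (h0 : ‖X 0 - X₀‖ ^ 2 ≤ d 0) (hs : ∀ l, ‖X (l + 1) - X l‖ ^ 2 ≤ d (l + 1)) (L : ℕ) :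
    ‖X L - X₀‖ ^ 2 ≤ (∑ l ∈ Finset.range (L + 1), wt K l) *
      ∑ l ∈ Finset.range (L + 1), d l / wt K l := by
  have hd : ∀ l, 0 ≤ d l := by
    intro l
    cases l with
    | zero => exact (sq_nonneg _).trans h0
    | succ l => exact (sq_nonneg _).trans (hs l)
  induction L with
  | zero =>
    simp only [zero_add, Finset.range_one, Finset.sum_singleton]
    have := wt_pos K 0
    rw [mul_div_cancel₀ _ this.ne']
    exact h0
  | succ L ih =>
    rw [Finset.sum_range_succ _ (L + 1), Finset.sum_range_succ _ (L + 1)]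
    have h1 : ‖X (L + 1) - X₀‖ ≤ ‖X L - X₀‖ + ‖X (L + 1) - X L‖ := by
      have : X (L + 1) - X₀ = (X L - X₀) + (X (L + 1) - X L) := by abel
      rw [this]; exact norm_add_le _ _
    refine (pow_le_pow_left₀ (norm_nonneg _) h1 2).trans ?_
    refine step_ineq (norm_nonneg _) (norm_nonneg _) ?_ ?_ (wt_pos _ _) ih (hs L)
    · exact Finset.sum_nonneg fun l _ => (wt_pos K l).le
    · exact Finset.sum_nonneg fun l _ => div_nonneg (hd l) (wt_pos K l).le

end Pool.Agent.Helper854_SP
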