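import Mathlib
import Pool.Agent.Helper854_SP.N

/-! The maximal inequality for a block of radii. -/

set_option autoImplicit false

open MeasureTheory Real Set Filter Topology
open scoped ENNReal NNReal RealInnerProductSpace

namespace Pool.Agent.Helper854_SP

open Pool.Agent.Helper93.Sph

variable {m : ℕ} {A : Set ℝ} {G : En (m + 1) → ℂ}

/-- quantiles of the radial measure -/
lemma exists_q (A : Set ℝ) {r s : ℝ} (hrs : r ≤ s) :
    ∃ q : ℝ → ℝ, ∀ t ∈ Icc 0 (Mf A r s), q t ∈ Icc r s ∧ Mf A r (q t) = t := by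
  have h : ∀ t : ℝ, ∃ R : ℝ, t ∈ Icc 0 (Mf A r s) → R ∈ Icc r s ∧ Mf A r R = t := by
    intro t
    by_cases ht : t ∈ Icc 0 (Mf A r s)
    · have h1 := intermediate_value_Icc hrs (Mf_cont A r).continuousOn
      rw [Mf_self] at h1
      obtain ⟨R, hR, hRt⟩ := h1 ht
      exact ⟨R, fun _ => ⟨hR, hRt⟩⟩
    · exact ⟨0, fun h => absurd h ht⟩
  choose q hq using h
  exact ⟨q, hq⟩

/-- the points of the chain -/
noncomputable def pt (q : ℝ → ℝ) (a : ℝ) (l i : ℕ) : ℝ := q ((i : ℝ) * a / 2 ^ l)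

lemma pt_two (q : ℝ → ℝ) (a : ℝ) (l i : ℕ) : pt q a (l + 1) (2 * i) = pt q a l i := by
  unfold pt
  congr 1
  push_cast
  rw [pow_succ]
  field_simp

/-- the square function of a level of the chain -/
noncomputable def Dl (G : En (m + 1) → ℂ) (q : ℝ → ℝ) (a : ℝ) (l : ℕ) (x : En (m + 1)) : ℝ :=
  ∑ i ∈ Finset.range (2 ^ l), ‖ps G (pt q a l (i + 1)) x - ps G (pt q a l i) x‖ ^ 2

lemma Dl_nonneg (q : ℝ → ℝ) (a : ℝ) (l : ℕ) (x : En (m + 1)) : 0 ≤ Dl G q a l x :=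
  Finset.sum_nonneg fun _ _ => by positivity

/-- everything known about the chain -/
structure Chain (A : Set ℝ) (r s : ℝ) (q : ℝ → ℝ) : Prop where
  hq : ∀ t ∈ Icc 0 (Mf A r s), q t ∈ Icc r s ∧ Mf A r (q t) = t
  pos : 0 < Mf A r s

lemma Chain.mem {r s : ℝ} {q : ℝ → ℝ} (h : Chain A r s q) {l i : ℕ} (hi : i ≤ 2 ^ l) :
    (i : ℝ) * Mf A r s / 2 ^ l ∈ Icc 0 (Mf A r s) := by
  have ha := h.pos
  have h1 : (i : ℝ) ≤ 2 ^ l := by exact_mod_cast hi
  refine ⟨by positivity, ?_⟩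
  rw [div_le_iff₀ (by positivity)]
  nlinarith

lemma Chain.mono {r s : ℝ} {q : ℝ → ℝ} (h : Chain A r s q) {l i : ℕ} (hi : i < 2 ^ l) :
    pt q (Mf A r s) l i ≤ pt q (Mf A r s) l (i + 1) := by
  have h1 := h.hq _ (h.mem (l := l) hi.le)
  have h2 := h.hq _ (h.mem (l := l) (i := i + 1) hi)
  have ha := h.pos
  by_contra hc
  have h3 := Mf_mono A r (not_le.1 hc).le
  unfold pt at h3
  rw [h1.2, h2.2, div_le_div_iff_of_pos_right (by positivity)] at h3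
  push_cast at h3
  nlinarith

lemma Chain.vol (hA : MeasurableSet A) {r s : ℝ} {q : ℝ → ℝ} (h : Chain A r s q) {l i : ℕ}
    (hi : i < 2 ^ l) :
    volume (A ∩ Ico (pt q (Mf A r s) l i) (pt q (Mf A r s) l (i + 1)))
      = ENNReal.ofReal (Mf A r s / 2 ^ l) := by
  have h1 := h.hq _ (h.mem (l := l) hi.le)
  have h2 := h.hq _ (h.mem (l := l) (i := i + 1) hi)
  have h3 := Mf_add hA h1.1.1 (h.mono hi)
  rw [← ENNReal.ofReal_toReal (vol_fin (r := pt q (Mf A r s) l i)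
    (s := pt q (Mf A r s) l (i + 1)) A)]
  congr 1
  change Mf A r (pt q (Mf A r s) l (i + 1)) = Mf A r (pt q (Mf A r s) l i) +
    (volume (A ∩ Ico (pt q (Mf A r s) l i) (pt q (Mf A r s) l (i + 1)))).toReal at h3
  have h4 : Mf A r (pt q (Mf A r s) l (i + 1)) = ((i + 1 : ℕ) : ℝ) * Mf A r s / 2 ^ l := h2.2
  have h5 : Mf A r (pt q (Mf A r s) l i) = (i : ℝ) * Mf A r s / 2 ^ l := h1.2
  rw [h4, h5] at h3
  push_cast at h3
  have h6 : ((i : ℝ) + 1) * Mf A r s / 2 ^ l = (i : ℝ) * Mf A r s / 2 ^ l + Mf A r s / 2 ^ l := by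
    ring
  linarith

lemma Chain.nn {r s : ℝ} {q : ℝ → ℝ} (h : Chain A r s q) (hr : 0 ≤ r) {l i : ℕ}
    (hi : i ≤ 2 ^ l) : 0 ≤ pt q (Mf A r s) l i :=
  hr.trans (h.hq _ (h.mem (l := l) hi)).1.1

lemma Chain.lam_le {r s : ℝ} {q : ℝ → ℝ} (h : Chain A r s q) (G : En (m + 1) → ℂ) (l : ℕ) :
    ∑ i ∈ Finset.range (2 ^ l),
      lam G (Ico (pt q (Mf A r s) l i) (pt q (Mf A r s) l (i + 1))) ≤ lam G (Ico r s) := by
  refine (lam_sum G (fun i => pt q (Mf A r s) l i) (2 ^ l) fun i hi => h.mono hi).2.trans ?_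
  refine measure_mono (Ico_subset_Ico ?_ ?_)
  · exact (h.hq _ (h.mem (l := l) (Nat.zero_le _))).1.1
  · exact (h.hq _ (h.mem (l := l) le_rfl)).1.2

lemma Dl_meas (hG : MemLp G 2) (q : ℝ → ℝ) (a : ℝ) (l : ℕ) :
    Measurable (fun x => ENNReal.ofReal (Dl G q a l x)) := by
  refine ENNReal.measurable_ofReal.comp (Continuous.measurable ?_)
  unfold Dl
  refine continuous_finsetSum _ fun i _ => ?_
  exact ((ps_cont_x hG _).sub (ps_cont_x hG _)).norm.pow 2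

lemma Dl_int_eq (hG : MemLp G 2) (q : ℝ → ℝ) (a : ℝ) (l : ℕ) (T : Set (En (m + 1))) :
    ∫⁻ x in T, ENNReal.ofReal (Dl G q a l x)
      = ∑ i ∈ Finset.range (2 ^ l),
        ∫⁻ x in T, ‖ps G (pt q a l (i + 1)) x - ps G (pt q a l i) x‖ₑ ^ 2 := by
  rw [← lintegral_finsetSum]
  · refine lintegral_congr fun x => ?_
    unfold Dl
    rw [ENNReal.ofReal_sum_of_nonneg fun _ _ => by positivity]
    refine Finset.sum_congr rfl fun i _ => ?_
    rw [ENNReal.ofReal_pow (norm_nonneg _), ofReal_norm]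
  · intro i _
    exact ((ps_cont_x hG _).sub (ps_cont_x hG _)).measurable.enorm.pow_const 2

lemma Dl_int1 (hG : MemLp G 2) {r s : ℝ} (hr : 0 ≤ r) {q : ℝ → ℝ}
    (h : Chain A r s q) (l : ℕ) (T : Set (En (m + 1))) :
    ∫⁻ x in T, ENNReal.ofReal (Dl G q (Mf A r s) l x) ≤ lam G (Ico r s) := by
  rw [Dl_int_eq hG]
  refine le_trans (Finset.sum_le_sum fun i hi => ?_) (h.lam_le G l)
  have hi' := Finset.mem_range.1 hi
  exact (lintegral_mono' Measure.restrict_le_self le_rfl).trans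
    (incr_l2 hG (h.nn hr hi'.le) (h.mono hi'))

lemma Dl_int2 (hA : MeasurableSet A) (hG : MemLp G 2) (hs : Supp A G) {r s : ℝ} (hr : 0 ≤ r)
    {q : ℝ → ℝ} (h : Chain A r s q) (l : ℕ) (x₀ : En (m + 1)) {ρ : ℝ} (hρ : 0 < ρ) :
    ∫⁻ x in Metric.closedBall x₀ ρ, ENNReal.ofReal (Dl G q (Mf A r s) l x)
      ≤ cst m ρ * ENNReal.ofReal (Mf A r s / 2 ^ l) * lam G (Ico r s) := by
  rw [Dl_int_eq hG]
  calc ∑ i ∈ Finset.range (2 ^ l), ∫⁻ x in Metric.closedBall x₀ ρ,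
        ‖ps G (pt q (Mf A r s) l (i + 1)) x - ps G (pt q (Mf A r s) l i) x‖ₑ ^ 2
      ≤ ∑ i ∈ Finset.range (2 ^ l), cst m ρ * ENNReal.ofReal (Mf A r s / 2 ^ l) *
        lam G (Ico (pt q (Mf A r s) l i) (pt q (Mf A r s) l (i + 1))) := by
        refine Finset.sum_le_sum fun i hi => ?_
        have hi' := Finset.mem_range.1 hi
        have := incr_rad hA hG hs (h.nn hr hi'.le) (h.mono hi') x₀ hρ
        rwa [h.vol hA hi'] at this
    _ = cst m ρ * ENNReal.ofReal (Mf A r s / 2 ^ l) * ∑ i ∈ Finset.range (2 ^ l),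
        lam G (Ico (pt q (Mf A r s) l i) (pt q (Mf A r s) l (i + 1))) := by
        rw [Finset.mul_sum]
    _ ≤ _ := mul_le_mul_right (h.lam_le G l) _

end Pool.Agent.Helper854_SP
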