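import Mathlib
import Pool.Agent.Helper854_SP.O

/-! The maximal inequality for a block of radii. -/

set_option autoImplicit false

open MeasureTheory Real Set Filter Topology
open scoped ENNReal NNReal RealInnerProductSpace

namespace Pool.Agent.Helper854_SP

open Pool.Agent.Helper93.Sph

variable {m : ℕ} {A : Set ℝ} {G : En (m + 1) → ℂ}

/-- increments are controlled by the radial measure -/
lemma incr_Mf (hA : MeasurableSet A) (hG : MemLp G 2) (hs : Supp A G) {r s : ℝ} (hr : 0 ≤ r) :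
    ∃ K : ℝ, 0 ≤ K ∧ ∀ R₁ ∈ Icc r s, ∀ R₂ ∈ Icc r s, ∀ x : En (m + 1),
      ‖ps G R₁ x - ps G R₂ x‖ ^ 2 ≤ K * |Mf A r R₁ - Mf A r R₂| := by
  obtain ⟨K, hK, h⟩ := incr_pt hA hG hs s
  refine ⟨K, hK, fun R₁ h1 R₂ h2 x => ?_⟩
  rcases le_total R₁ R₂ with h3 | h3
  · have h4 := h R₁ R₂ (hr.trans h1.1) h3 h2.2 x
    have h5 := Mf_add hA h1.1 h3
    rw [norm_sub_rev, abs_sub_comm, h5, add_sub_cancel_left, abs_of_nonneg ENNReal.toReal_nonneg]
    exact h4
  · have h4 := h R₂ R₁ (hr.trans h2.1) h3 h1.2 x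
    have h5 := Mf_add hA h2.1 h3
    rw [h5, add_sub_cancel_left, abs_of_nonneg ENNReal.toReal_nonneg]
    exact h4

/-- index of the chain -/
noncomputable def idx (t a : ℝ) (l : ℕ) : ℕ := ⌊t * 2 ^ l / a⌋₊

lemma idx_le {t a : ℝ} (ht : t ≤ a) (ha : 0 < a) (l : ℕ) : idx t a l ≤ 2 ^ l := by
  refine Nat.floor_le_of_le ?_
  rw [div_le_iff₀ ha]
  push_cast
  have : (0 : ℝ) < 2 ^ l := by positivity
  nlinarith

lemma idx_succ {t a : ℝ} (ht : 0 ≤ t) (ha : 0 < a) (l : ℕ) :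
    idx t a (l + 1) = 2 * idx t a l ∨ idx t a (l + 1) = 2 * idx t a l + 1 := by
  unfold idx
  set y : ℝ := t * 2 ^ l / a with hy
  have hy0 : 0 ≤ y := by positivity
  have h1 : t * 2 ^ (l + 1) / a = 2 * y := by rw [hy, pow_succ]; ring
  rw [h1]
  have h2 := Nat.floor_le hy0
  have h3 := Nat.lt_floor_add_one y
  have h4 : 2 * ⌊y⌋₊ ≤ ⌊2 * y⌋₊ := by
    refine Nat.le_floor ?_
    push_cast
    linarith
  have h5 : ⌊2 * y⌋₊ < 2 * ⌊y⌋₊ + 2 := by
    rw [Nat.floor_lt (by positivity)]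
    push_cast
    linarith
  omega

lemma idx_close {t a : ℝ} (ht : 0 ≤ t) (ha : 0 < a) (l : ℕ) :
    |t - (idx t a l : ℝ) * a / 2 ^ l| ≤ a * (1 / 2) ^ l := by
  unfold idx
  set y : ℝ := t * 2 ^ l / a with hy
  have hy0 : 0 ≤ y := by positivity
  have h2 := Nat.floor_le hy0
  have h3 := Nat.lt_floor_add_one y
  have hp : (0 : ℝ) < 2 ^ l := by positivity
  have h4 : t = y * a / 2 ^ l := by rw [hy]; field_simp
  have h5 : t - (⌊y⌋₊ : ℝ) * a / 2 ^ l = (y - ⌊y⌋₊) * (a * (1 / 2) ^ l) := by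
    conv_lhs => rw [h4]
    rw [one_div, inv_pow]
    field_simp
  rw [h5, abs_of_nonneg (mul_nonneg (by linarith) (by positivity))]
  have h6 : 0 ≤ a * (1 / 2 : ℝ) ^ l := by positivity
  nlinarith

/-- the square function of the chain -/
noncomputable def Vf (G : En (m + 1) → ℂ) (q : ℝ → ℝ) (a : ℝ) (K : ℕ) (x : En (m + 1)) : ℝ≥0∞ :=
  ∑' l : ℕ, ENNReal.ofReal (1 / wt K l) * ENNReal.ofReal (Dl G q a l x)

/-- **pointwise chaining** -/
lemma chain_pt (hA : MeasurableSet A) (hG : MemLp G 2) (hs : Supp A G) {r s : ℝ} (hr : 0 ≤ r)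
    (hrs : r ≤ s) {q : ℝ → ℝ} (h : Chain A r s q) (K : ℕ) {R : ℝ} (hR : R ∈ Icc r s)
    (x : En (m + 1)) :
    ‖ps G R x - ps G r x‖ₑ ^ 2 ≤ ((K : ℝ≥0∞) + 4) * Vf G q (Mf A r s) K x := by
  obtain ⟨C, hC, hinc⟩ := incr_Mf hA hG hs (r := r) (s := s) hr
  set a : ℝ := Mf A r s with ha
  have ha0 : 0 < a := h.pos
  set t : ℝ := Mf A r R with ht
  have ht0 : 0 ≤ t := Mf_nonneg A r R
  have hta : t ≤ a := Mf_mono A r hR.2
  set X : ℕ → ℂ := fun l => ps G (pt q a l (idx t a l)) x with hX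
  have hmem : ∀ l i : ℕ, i ≤ 2 ^ l → pt q a l i ∈ Icc r s ∧
      Mf A r (pt q a l i) = (i : ℝ) * a / 2 ^ l := fun l i hi => h.hq _ (h.mem (l := l) hi)
  -- the starting point
  have hX0 : ps G (pt q a 0 0) x = ps G r x := by
    have h1 := hinc (pt q a 0 0) (hmem 0 0 (by simp)).1 r (left_mem_Icc.2 hrs) x
    rw [(hmem 0 0 (by simp)).2, Mf_self] at h1
    simp only [Nat.cast_zero, zero_mul, zero_div, sub_zero, abs_zero, mul_zero] at h1
    have h2 : ‖ps G (pt q a 0 0) x - ps G r x‖ = 0 := by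
      have := norm_nonneg (ps G (pt q a 0 0) x - ps G r x)
      nlinarith
    exact sub_eq_zero.1 (norm_eq_zero.1 h2)
  have h0 : ‖X 0 - ps G r x‖ ^ 2 ≤ Dl G q a 0 x := by
    have h1 := idx_le hta ha0 0
    rw [pow_zero] at h1
    rw [← hX0]
    rcases Nat.le_one_iff_eq_zero_or_eq_one.1 h1 with h2 | h2
    · simp only [hX, h2, sub_self, norm_zero]
      rw [zero_pow two_ne_zero]
      exact Dl_nonneg q a 0 x
    · simp only [hX, h2, Dl, pow_zero, Finset.range_one, Finset.sum_singleton, zero_add]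
      exact le_rfl
  have hstep : ∀ l, ‖X (l + 1) - X l‖ ^ 2 ≤ Dl G q a (l + 1) x := by
    intro l
    have h1 := idx_le hta ha0 (l + 1)
    simp only [hX]
    rw [← pt_two q a l (idx t a l)]
    rcases idx_succ ht0 ha0 l with h2 | h2
    · rw [h2, sub_self, norm_zero, zero_pow two_ne_zero]
      exact Dl_nonneg q a (l + 1) x
    · rw [h2] at h1 ⊢
      unfold Dl
      exact Finset.single_le_sum (f := fun i => ‖ps G (pt q a (l + 1) (i + 1)) x -
        ps G (pt q a (l + 1) i) x‖ ^ 2) (fun i _ => by positivity)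
        (Finset.mem_range.2 (by omega))
  have hchain := chain_abs X (ps G r x) (fun l => Dl G q a l x) K h0 hstep
  have hV : ∀ L, ‖X L - ps G r x‖ₑ ^ 2 ≤ ((K : ℝ≥0∞) + 4) * Vf G q a K x := by
    intro L
    have h1 : ‖X L - ps G r x‖ ^ 2 ≤ ((K : ℝ) + 4) *
        ∑ l ∈ Finset.range (L + 1), 1 / wt K l * Dl G q a l x := by
      refine (hchain L).trans ?_
      have h2 : ∑ l ∈ Finset.range (L + 1), Dl G q a l x / wt K l =
          ∑ l ∈ Finset.range (L + 1), 1 / wt K l * Dl G q a l x :=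
        Finset.sum_congr rfl fun l _ => by ring
      rw [h2]
      refine mul_le_mul_of_nonneg_right (wt_sum' K _) (Finset.sum_nonneg fun l _ => ?_)
      exact mul_nonneg (by have := wt_pos K l; positivity) (Dl_nonneg q a l x)
    rw [← ofReal_norm, ← ENNReal.ofReal_pow (norm_nonneg _)]
    refine (ENNReal.ofReal_le_ofReal h1).trans ?_
    rw [ENNReal.ofReal_mul (by positivity), ENNReal.ofReal_sum_of_nonneg (fun l _ =>
      mul_nonneg (by have := wt_pos K l; positivity) (Dl_nonneg q a l x))]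
    refine mul_le_mul' (le_of_eq ?_) ?_
    · rw [ENNReal.ofReal_add (by positivity) (by norm_num), ENNReal.ofReal_natCast]
      simp
    · unfold Vf
      refine le_trans (le_of_eq ?_) (ENNReal.sum_le_tsum (Finset.range (L + 1)))
      refine Finset.sum_congr rfl fun l _ => ?_
      rw [ENNReal.ofReal_mul (by have := wt_pos K l; positivity)]
  -- the limit
  have hlim : Tendsto X atTop (𝓝 (ps G R x)) := by
    rw [tendsto_iff_norm_sub_tendsto_zero]
    have h1 : ∀ L, ‖X L - ps G R x‖ ≤ √(C * (a * (1 / 2) ^ L)) := by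
      intro L
      refine Real.le_sqrt_of_sq_le ?_
      have h2 := hinc (pt q a L (idx t a L)) (hmem L _ (idx_le hta ha0 L)).1 R hR x
      rw [(hmem L _ (idx_le hta ha0 L)).2, abs_sub_comm] at h2
      exact h2.trans (mul_le_mul_of_nonneg_left (idx_close ht0 ha0 L) hC)
    have h2 : Tendsto (fun L : ℕ => √(C * (a * (1 / 2 : ℝ) ^ L))) atTop (𝓝 0) := by
      have h3 : Tendsto (fun L : ℕ => C * (a * (1 / 2 : ℝ) ^ L)) atTop (𝓝 (C * (a * 0))) :=
        ((tendsto_pow_atTop_nhds_zero_of_lt_one (by norm_num) (by norm_num)).const_mul a).const_mul C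
      rw [mul_zero, mul_zero] at h3
      have h4 := (Real.continuous_sqrt.tendsto 0).comp h3
      rw [Real.sqrt_zero] at h4
      exact h4
    exact squeeze_zero (fun L => norm_nonneg _) h1 h2
  have hlim2 : Tendsto (fun L => ‖X L - ps G r x‖ₑ ^ 2) atTop (𝓝 (‖ps G R x - ps G r x‖ₑ ^ 2)) :=
    ((ENNReal.continuous_pow 2).tendsto _).comp
      ((continuous_enorm.tendsto _).comp (hlim.sub_const _))
  exact le_of_tendsto' hlim2 hV

/-- **the maximal inequality for a block of radii** -/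
theorem block (hA : MeasurableSet A) (hG : MemLp G 2) (hs : Supp A G) {r s : ℝ} (hr : 0 ≤ r)
    (hrs : r ≤ s) (x₀ : En (m + 1)) {ρ : ℝ} (hρ : 0 < ρ) (K : ℕ)
    (hK : cst m ρ * volume (A ∩ Ico r s) ≤ 2 ^ K) :
    ∫⁻ x in Metric.closedBall x₀ ρ, ⨆ R ∈ Icc r s, ‖ps G R x - ps G r x‖ₑ ^ 2
      ≤ ((K : ℝ≥0∞) + 4) ^ 2 * lam G (Ico r s) := by
  rcases eq_or_lt_of_le (Mf_nonneg A r s) with h0 | hpos
  · have hz : ∀ x : En (m + 1), ∀ R ∈ Icc r s, ‖ps G R x - ps G r x‖ₑ ^ 2 = 0 := by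
      intro x R hR
      obtain ⟨C, hC, hinc⟩ := incr_Mf hA hG hs (r := r) (s := s) hr
      have h1 := hinc R hR r (left_mem_Icc.2 hrs) x
      have h2 : Mf A r R = 0 :=
        le_antisymm ((Mf_mono A r hR.2).trans h0.symm.le) (Mf_nonneg A r R)
      rw [h2, Mf_self, sub_zero, abs_zero, mul_zero] at h1
      have h3 : ‖ps G R x - ps G r x‖ = 0 := by
        have := norm_nonneg (ps G R x - ps G r x)
        nlinarith
      rw [← ofReal_norm, h3]; simp
    have hz' : ∀ x : En (m + 1), ⨆ R ∈ Icc r s, ‖ps G R x - ps G r x‖ₑ ^ 2 = 0 := by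
      intro x
      refine le_antisymm (iSup₂_le fun R hR => (hz x R hR).le) zero_le
    simp only [hz', lintegral_zero]
    exact zero_le
  obtain ⟨q, hq⟩ := exists_q A hrs
  have h : Chain A r s q := ⟨hq, hpos⟩
  set a : ℝ := Mf A r s with ha
  set Λ : ℝ≥0∞ := lam G (Ico r s) with hΛ
  have hlev : ∀ l, ∫⁻ x in Metric.closedBall x₀ ρ, ENNReal.ofReal (Dl G q a l x)
      ≤ ENNReal.ofReal (wt K l ^ 2) * Λ := by
    intro l
    rcases Nat.lt_or_ge K l with hl | hl
    · refine (Dl_int2 hA hG hs hr h l x₀ hρ).trans (mul_le_mul_left ?_ _)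
      have hv : volume (A ∩ Ico r s) = ENNReal.ofReal a := by
        rw [ha, Mf, ENNReal.ofReal_toReal (vol_fin A)]
      rw [hv] at hK
      rw [← ha]
      have e1 : ENNReal.ofReal (a / 2 ^ l) = ENNReal.ofReal a * ENNReal.ofReal ((1 / 2) ^ l) := by
        rw [← ENNReal.ofReal_mul hpos.le]
        congr 1
        rw [one_div, inv_pow]; rfl
      rw [e1, ← mul_assoc]
      refine (mul_le_mul_left hK _).trans ?_
      have e2 : (2 : ℝ≥0∞) ^ K = ENNReal.ofReal (2 ^ K) := by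
        rw [ENNReal.ofReal_pow (by norm_num)]; simp
      rw [e2, ← ENNReal.ofReal_mul (by positivity)]
      refine ENNReal.ofReal_le_ofReal ?_
      obtain ⟨j, rfl⟩ := Nat.exists_eq_add_of_le hl.le
      have e3 : wt K (K + j) = (3 / 4 : ℝ) ^ j := by
        unfold wt; rw [Nat.add_sub_cancel_left]
      rw [e3, ← pow_mul, mul_comm j 2, pow_mul, pow_add, ← mul_assoc, ← mul_pow]
      norm_num
      exact pow_le_pow_left₀ (by norm_num) (by norm_num) j
    · have e3 : wt K l = 1 := by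
        unfold wt
        rw [Nat.sub_eq_zero_of_le hl, pow_zero]
      rw [e3, one_pow, ENNReal.ofReal_one, one_mul]
      exact Dl_int1 hG hr h l _
  calc ∫⁻ x in Metric.closedBall x₀ ρ, ⨆ R ∈ Icc r s, ‖ps G R x - ps G r x‖ₑ ^ 2
      ≤ ∫⁻ x in Metric.closedBall x₀ ρ, ((K : ℝ≥0∞) + 4) * Vf G q a K x :=
        lintegral_mono fun x => iSup₂_le fun R hR => chain_pt hA hG hs hr hrs h K hR x
    _ = ((K : ℝ≥0∞) + 4) * ∫⁻ x in Metric.closedBall x₀ ρ, Vf G q a K x := by
        rw [lintegral_const_mul' _ _ (by simp)]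
    _ = ((K : ℝ≥0∞) + 4) * ∑' l : ℕ, ENNReal.ofReal (1 / wt K l) *
          ∫⁻ x in Metric.closedBall x₀ ρ, ENNReal.ofReal (Dl G q a l x) := by
        congr 1
        unfold Vf
        rw [lintegral_tsum fun l => ((Dl_meas hG q a l).const_mul _).aemeasurable]
        refine tsum_congr fun l => ?_
        rw [lintegral_const_mul' _ _ ENNReal.ofReal_ne_top]
    _ ≤ ((K : ℝ≥0∞) + 4) * ∑' l : ℕ, ENNReal.ofReal (wt K l) * Λ := by
        refine mul_le_mul_right (ENNReal.tsum_le_tsum fun l => ?_) _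
        refine (mul_le_mul_right (hlev l) _).trans (le_of_eq ?_)
        have hw := wt_pos K l
        rw [← mul_assoc, ← ENNReal.ofReal_mul (by positivity)]
        congr 2
        field_simp
    _ = ((K : ℝ≥0∞) + 4) * ((∑' l : ℕ, ENNReal.ofReal (wt K l)) * Λ) := by
        rw [ENNReal.tsum_mul_right]
    _ ≤ ((K : ℝ≥0∞) + 4) * (((K : ℝ≥0∞) + 4) * Λ) := by
        refine mul_le_mul_right (mul_le_mul_left ?_ _) _
        refine ENNReal.tsum_le_of_sum_range_le fun L => ?_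
        rw [← ENNReal.ofReal_sum_of_nonneg fun l _ => (wt_pos K l).le]
        refine (ENNReal.ofReal_le_ofReal (wt_sum' K L)).trans (le_of_eq ?_)
        rw [ENNReal.ofReal_add (by positivity) (by norm_num), ENNReal.ofReal_natCast]
        simp
    _ = _ := by ring

end Pool.Agent.Helper854_SP
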