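import Mathlib
import Pool.Agent.Helper854_SP.P

/-! The Rademacher-Menshov inequality for finitely many radii. -/

set_option autoImplicit false

open MeasureTheory Real Set Filter Topology
open scoped ENNReal NNReal RealInnerProductSpace

namespace Pool.Agent.Helper854_SP

open Pool.Agent.Helper93.Sph

variable {m : ℕ} {A : Set ℝ} {G : En (m + 1) → ℂ}

/-- weighted triangle inequality -/
lemma two_sq (a b : ℂ) (K : ℕ) : ‖a + b‖ₑ ^ 2 ≤ ((K : ℝ≥0∞) + 2) * ‖a‖ₑ ^ 2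
    + ENNReal.ofReal (((K : ℝ) + 2) / (K + 1)) * ‖b‖ₑ ^ 2 := by
  have h0 : ‖a + b‖ ^ 2 ≤ ((K : ℝ) + 2) * ‖a‖ ^ 2 + (((K : ℝ) + 2) / (K + 1)) * ‖b‖ ^ 2 := by
    have h1 : ‖a + b‖ ^ 2 ≤ (‖a‖ + ‖b‖) ^ 2 := pow_le_pow_left₀ (norm_nonneg _) (norm_add_le _ _) 2
    refine h1.trans ?_
    have h2 : ((K : ℝ) + 2) * ‖a‖ ^ 2 + (((K : ℝ) + 2) / (K + 1)) * ‖b‖ ^ 2 - (‖a‖ + ‖b‖) ^ 2
        = (((K : ℝ) + 1) * ‖a‖ - ‖b‖) ^ 2 / (K + 1) := by
      field_simp; ring
    have h3 : 0 ≤ (((K : ℝ) + 1) * ‖a‖ - ‖b‖) ^ 2 / (K + 1) := by positivity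
    linarith
  have e : ∀ z : ℂ, ‖z‖ₑ ^ 2 = ENNReal.ofReal (‖z‖ ^ 2) := fun z => by
    rw [← ofReal_norm, ENNReal.ofReal_pow (norm_nonneg _)]
  have e2 : ((K : ℝ≥0∞) + 2) = ENNReal.ofReal ((K : ℝ) + 2) := by
    rw [ENNReal.ofReal_add (by positivity) (by norm_num)]; simp
  rw [e, e, e, e2, ← ENNReal.ofReal_mul (by positivity), ← ENNReal.ofReal_mul (by positivity),
    ← ENNReal.ofReal_add (by positivity) (by positivity)]
  exact ENNReal.ofReal_le_ofReal h0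

/-- maximal increment along the first radii of a sequence -/
noncomputable def mx (G : En (m + 1) → ℂ) (R : ℕ → ℝ) (N : ℕ) (x : En (m + 1)) : ℝ≥0∞ :=
  ⨆ j ∈ Finset.range (N + 1), ‖ps G (R j) x - ps G (R 0) x‖ₑ ^ 2

lemma mx_meas (hG : MemLp G 2) (R : ℕ → ℝ) (N : ℕ) : Measurable (mx G R N) := by
  unfold mx
  refine Measurable.iSup fun j => Measurable.iSup fun _ => ?_
  exact ((ps_cont_x hG _).sub (ps_cont_x hG _)).enorm.measurable.pow_const 2

lemma mx_step (R : ℕ → ℝ) (K : ℕ) (x : En (m + 1)) :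
    mx G R (2 ^ (K + 1)) x ≤ ((K : ℝ≥0∞) + 2) * ‖ps G (R (2 ^ K)) x - ps G (R 0) x‖ₑ ^ 2
      + ENNReal.ofReal (((K : ℝ) + 2) / (K + 1)) *
        (mx G R (2 ^ K) x + mx G (fun j => R (2 ^ K + j)) (2 ^ K) x) := by
  have h1 : (1 : ℝ≥0∞) ≤ ENNReal.ofReal (((K : ℝ) + 2) / (K + 1)) := by
    rw [← ENNReal.ofReal_one]
    refine ENNReal.ofReal_le_ofReal ?_
    rw [le_div_iff₀ (by positivity)]; linarith
  refine iSup₂_le fun j hj => ?_
  rw [Finset.mem_range] at hj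
  rcases Nat.lt_or_ge j (2 ^ K + 1) with h | h
  · have h2 : ‖ps G (R j) x - ps G (R 0) x‖ₑ ^ 2 ≤ mx G R (2 ^ K) x :=
      le_iSup₂_of_le (f := fun j _ => ‖ps G (R j) x - ps G (R 0) x‖ₑ ^ 2) j
        (Finset.mem_range.2 h) le_rfl
    calc _ ≤ mx G R (2 ^ K) x := h2
      _ = 1 * mx G R (2 ^ K) x := (one_mul _).symm
      _ ≤ ENNReal.ofReal (((K : ℝ) + 2) / (K + 1)) *
        (mx G R (2 ^ K) x + mx G (fun j => R (2 ^ K + j)) (2 ^ K) x) :=
          mul_le_mul' h1 le_self_add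
      _ ≤ _ := le_add_self
  · have h2 : ‖ps G (R j) x - ps G (R (2 ^ K)) x‖ₑ ^ 2 ≤
        mx G (fun j => R (2 ^ K + j)) (2 ^ K) x := by
      unfold mx
      refine le_trans (le_of_eq ?_) (le_iSup₂ (f := fun j (_ : j ∈ Finset.range (2 ^ K + 1)) =>
        ‖ps G (R (2 ^ K + j)) x - ps G (R (2 ^ K + 0)) x‖ₑ ^ 2) (j - 2 ^ K)
          (Finset.mem_range.2 (by rw [pow_succ] at hj; omega)))
      rw [add_zero, Nat.add_sub_cancel' (by omega)]
    have h3 : ps G (R j) x - ps G (R 0) x = (ps G (R (2 ^ K)) x - ps G (R 0) x)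
        + (ps G (R j) x - ps G (R (2 ^ K)) x) := by ring
    rw [h3]
    refine (two_sq _ _ K).trans ?_
    exact add_le_add le_rfl (mul_le_mul_right (h2.trans le_add_self) _)

theorem mx_bound (hG : MemLp G 2) (K : ℕ) : ∀ (R : ℕ → ℝ), Monotone R → 0 ≤ R 0 →
    ∫⁻ x, mx G R (2 ^ K) x ≤ ((K : ℝ≥0∞) + 1) ^ 2 * lam G (Ico (R 0) (R (2 ^ K))) := by
  induction K with
  | zero =>
    intro R hR h0
    have h1 : ∀ x, mx G R (2 ^ 0) x ≤ ‖ps G (R 1) x - ps G (R 0) x‖ₑ ^ 2 := by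
      intro x
      refine iSup₂_le fun j hj => ?_
      rw [Finset.mem_range] at hj
      have : j = 0 ∨ j = 1 := by simp at hj; omega
      rcases this with rfl | rfl
      · simp
      · exact le_rfl
    refine (lintegral_mono h1).trans ?_
    have h2 := incr_l2 hG h0 (hR (Nat.zero_le 1))
    simpa using h2
  | succ K ih =>
    intro R hR h0
    have i1 := ih R hR h0
    have i2 := ih (fun j => R (2 ^ K + j)) (fun i j hij => hR (by omega))
      (h0.trans (hR (Nat.zero_le _)))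
    simp only [add_zero] at i2
    have e1 : 2 ^ K + 2 ^ K = 2 ^ (K + 1) := by ring
    rw [e1] at i2
    have h01 : R 0 ≤ R (2 ^ K) := hR (Nat.zero_le _)
    have h12 : R (2 ^ K) ≤ R (2 ^ (K + 1)) := hR (by rw [pow_succ]; omega)
    set L1 := lam G (Ico (R 0) (R (2 ^ K))) with hL1
    set L2 := lam G (Ico (R (2 ^ K)) (R (2 ^ (K + 1)))) with hL2
    have hL : lam G (Ico (R 0) (R (2 ^ (K + 1)))) = L1 + L2 := by
      rw [← Ico_union_Ico_eq_Ico h01 h12, measure_union (Ico_disjoint_Ico_same) measurableSet_Ico]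
    have i3 := incr_l2 hG h0 h01
    have m1 : Measurable fun x => ‖ps G (R (2 ^ K)) x - ps G (R 0) x‖ₑ ^ 2 :=
      ((ps_cont_x hG _).sub (ps_cont_x hG _)).enorm.measurable.pow_const 2
    calc ∫⁻ x, mx G R (2 ^ (K + 1)) x
        ≤ ∫⁻ x, (((K : ℝ≥0∞) + 2) * ‖ps G (R (2 ^ K)) x - ps G (R 0) x‖ₑ ^ 2
            + ENNReal.ofReal (((K : ℝ) + 2) / (K + 1)) *
              (mx G R (2 ^ K) x + mx G (fun j => R (2 ^ K + j)) (2 ^ K) x)) :=
          lintegral_mono (mx_step R K)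
      _ = ((K : ℝ≥0∞) + 2) * (∫⁻ x, ‖ps G (R (2 ^ K)) x - ps G (R 0) x‖ₑ ^ 2)
            + ENNReal.ofReal (((K : ℝ) + 2) / (K + 1)) *
              ((∫⁻ x, mx G R (2 ^ K) x) + ∫⁻ x, mx G (fun j => R (2 ^ K + j)) (2 ^ K) x) := by
          rw [lintegral_add_left (m1.const_mul _), lintegral_const_mul _ m1,
            lintegral_const_mul' _ _ ENNReal.ofReal_ne_top, lintegral_add_left (mx_meas hG _ _)]
      _ ≤ ((K : ℝ≥0∞) + 2) * L1 + ENNReal.ofReal (((K : ℝ) + 2) / (K + 1)) *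
              (((K : ℝ≥0∞) + 1) ^ 2 * L1 + ((K : ℝ≥0∞) + 1) ^ 2 * L2) := by
          gcongr
      _ = ((K : ℝ≥0∞) + 2) * L1 + (ENNReal.ofReal (((K : ℝ) + 2) / (K + 1)) *
              ((K : ℝ≥0∞) + 1) ^ 2) * (L1 + L2) := by ring
      _ = ((K : ℝ≥0∞) + 2) * L1 + ((K : ℝ≥0∞) + 2) * ((K : ℝ≥0∞) + 1) * (L1 + L2) := by
          congr 2
          have e2 : ((K : ℝ≥0∞) + 1) = ENNReal.ofReal ((K : ℝ) + 1) := by
            rw [ENNReal.ofReal_add (by positivity) (by norm_num)]; simp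
          have e3 : ((K : ℝ≥0∞) + 2) = ENNReal.ofReal ((K : ℝ) + 2) := by
            rw [ENNReal.ofReal_add (by positivity) (by norm_num)]; simp
          rw [e2, e3, ← ENNReal.ofReal_pow (by positivity), ← ENNReal.ofReal_mul (by positivity),
            ← ENNReal.ofReal_mul (by positivity)]
          congr 1
          field_simp
      _ ≤ ((K : ℝ≥0∞) + 2) * (L1 + L2) + ((K : ℝ≥0∞) + 2) * ((K : ℝ≥0∞) + 1) * (L1 + L2) := by
          gcongr
          exact le_self_add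
      _ = (((K + 1 : ℕ) : ℝ≥0∞) + 1) ^ 2 * (L1 + L2) := by
          push_cast
          ring
      _ = _ := by rw [hL]

lemma enum (r : ℝ) (P : Finset ℝ) (hP : ∀ p ∈ P, r ≤ p) :
    ∃ R : ℕ → ℝ, Monotone R ∧ R 0 = r ∧ (∀ j, R j ∈ insert r P) ∧
      ∀ p ∈ P, ∃ j ≤ P.card, R j = p := by
  classical
  induction P using Finset.induction_on_max with
  | empty => exact ⟨fun _ => r, monotone_const, rfl, fun j => by simp, fun p hp => by simp at hp⟩
  | insert a P ha ih =>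
    obtain ⟨R, hR, h0, h1, h2⟩ := ih fun p hp => hP p (Finset.mem_insert_of_mem hp)
    have hra : r ≤ a := hP a (Finset.mem_insert_self _ _)
    have haP : a ∉ P := fun h => lt_irrefl _ (ha a h)
    have h3 : ∀ j, R j ≤ a := by
      intro j
      rcases Finset.mem_insert.1 (h1 j) with h | h
      · rw [h]; exact hra
      · exact (ha _ h).le
    refine ⟨fun j => if j ≤ P.card then R j else a, ?_, ?_, ?_, ?_⟩
    · intro i j hij
      by_cases hi : i ≤ P.card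
      · by_cases hj : j ≤ P.card
        · simp only [hi, hj, if_true]; exact hR hij
        · simp only [hi, hj, if_true, if_false]; exact h3 i
      · have hj : ¬ j ≤ P.card := by omega
        simp only [hi, hj, if_false]; exact le_rfl
    · simp [h0]
    · intro j
      by_cases hj : j ≤ P.card
      · simp only [hj, if_true]
        rcases Finset.mem_insert.1 (h1 j) with h | h
        · rw [h]; exact Finset.mem_insert_self _ _
        · exact Finset.mem_insert_of_mem (Finset.mem_insert_of_mem h)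
      · simp only [hj, if_false]
        exact Finset.mem_insert_of_mem (Finset.mem_insert_self _ _)
    · intro p hp
      rw [Finset.card_insert_of_notMem haP]
      rcases Finset.mem_insert.1 hp with h | h
      · refine ⟨P.card + 1, le_rfl, ?_⟩
        simp [h]
      · obtain ⟨j, hj, hjp⟩ := h2 p h
        exact ⟨j, by omega, by simp [hj, hjp]⟩

/-- **Rademacher-Menshov for finitely many radii** -/
theorem rm_finset (hG : MemLp G 2) {r s : ℝ} (hr : 0 ≤ r) (hrs : r ≤ s) (P : Finset ℝ)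
    (hP : ∀ p ∈ P, p ∈ Icc r s) (K : ℕ) (hK : P.card ≤ 2 ^ K) :
    ∫⁻ x, ⨆ p ∈ P, ‖ps G p x - ps G r x‖ₑ ^ 2 ≤ ((K : ℝ≥0∞) + 1) ^ 2 * lam G (Ico r s) := by
  obtain ⟨R, hR, h0, h1, h2⟩ := enum r P fun p hp => (hP p hp).1
  have h3 : ∀ x, ⨆ p ∈ P, ‖ps G p x - ps G r x‖ₑ ^ 2 ≤ mx G R (2 ^ K) x := by
    intro x
    refine iSup₂_le fun p hp => ?_
    obtain ⟨j, hj, hjp⟩ := h2 p hp
    unfold mx
    refine le_trans (le_of_eq ?_) (le_iSup₂ (f := fun j (_ : j ∈ Finset.range (2 ^ K + 1)) =>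
        ‖ps G (R j) x - ps G (R 0) x‖ₑ ^ 2) j (Finset.mem_range.2 (by omega)))
    rw [hjp, h0]
  refine (lintegral_mono h3).trans ((mx_bound hG K R hR (h0 ▸ hr)).trans ?_)
  refine mul_le_mul_right (measure_mono ?_) _
  rw [h0]
  refine Ico_subset_Ico_right ?_
  rcases Finset.mem_insert.1 (h1 (2 ^ K)) with h | h
  · rw [h]; exact hrs
  · exact (hP _ h).2

end Pool.Agent.Helper854_SP
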