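import Mathlib
import Pool.Agent.Helper854_SP.Q

/-! A block of radii: only the cells of the frequency measure which are hit by the radii count. -/

set_option autoImplicit false

open MeasureTheory Real Set Filter Topology
open scoped ENNReal NNReal RealInnerProductSpace

namespace Pool.Agent.Helper854_SP

open Pool.Agent.Helper93.Sph

variable {m : ℕ} {A : Set ℝ} {G : En (m + 1) → ℂ}

/-- suprema over arbitrary sets of radii are measurable -/
lemma sup_meas (hG : MemLp G 2) (S : Set ℝ) (r : ℝ) :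
    Measurable fun x : En (m + 1) => ⨆ R ∈ S, ‖ps G R x - ps G r x‖ₑ ^ 2 := by
  refine LowerSemicontinuous.measurable ?_
  refine lowerSemicontinuous_biSup fun R _ => Continuous.lowerSemicontinuous ?_
  exact (ENNReal.continuous_pow 2).comp ((ps_cont_x hG _).sub (ps_cont_x hG _)).enorm

/-- the partial sums depend on the radius only through the measure -/
lemma ps_eq_of_Mf (hA : MeasurableSet A) (hG : MemLp G 2) (hs : Supp A G) {r s : ℝ} (hr : 0 ≤ r)
    {R₁ R₂ : ℝ} (h1 : R₁ ∈ Icc r s) (h2 : R₂ ∈ Icc r s) (h : Mf A r R₁ = Mf A r R₂)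
    (x : En (m + 1)) : ps G R₁ x = ps G R₂ x := by
  obtain ⟨C, hC, hinc⟩ := incr_Mf hA hG hs (r := r) (s := s) hr
  have h3 := hinc R₁ h1 R₂ h2 x
  rw [h, sub_self, abs_zero, mul_zero] at h3
  have h4 : ‖ps G R₁ x - ps G R₂ x‖ = 0 := by
    have := norm_nonneg (ps G R₁ x - ps G R₂ x)
    nlinarith
  exact sub_eq_zero.1 (norm_eq_zero.1 h4)

/-- the cells of the frequency measure which are hit by the radii of `E` -/
def cells (A E : Set ℝ) (ρ r s : ℝ) : Set ℕ := (fun R => ⌊ρ * Mf A r R⌋₊) '' (E ∩ Ico r s)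

lemma cells_sub {A E : Set ℝ} {ρ r s : ℝ} (hρ : 0 < ρ) :
    cells A E ρ r s ⊆ ↑(Finset.range (⌊ρ * Mf A r s⌋₊ + 1)) := by
  rintro i ⟨R, ⟨_, hR⟩, rfl⟩
  simp only [Finset.coe_range, mem_Iio]
  refine Nat.lt_succ_of_le (Nat.floor_le_floor ?_)
  exact mul_le_mul_of_nonneg_left (Mf_mono A r hR.2.le) hρ.le

lemma cells_fin {A E : Set ℝ} {ρ r s : ℝ} (hρ : 0 < ρ) : (cells A E ρ r s).Finite :=
  (Finset.finite_toSet _).subset (cells_sub hρ)

/-- exponent for the constant of the local estimate -/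
noncomputable def Km (m : ℕ) : ℕ := Nat.clog 2 ⌈10 * ((m : ℝ) + 1) * √(m + 1)⌉₊

lemma Km_spec (m : ℕ) : ENNReal.ofReal (10 * ((m : ℝ) + 1) * √(m + 1)) ≤ 2 ^ (Km m) := by
  have h0 : ⌈10 * ((m : ℝ) + 1) * √(m + 1)⌉₊ ≤ 2 ^ Km m := Nat.le_pow_clog (by norm_num) _
  have h1 : (10 * ((m : ℝ) + 1) * √(m + 1)) ≤ ((2 ^ Km m : ℕ) : ℝ) :=
    (Nat.le_ceil _).trans (Nat.cast_le.2 h0)
  refine (ENNReal.ofReal_le_ofReal h1).trans (le_of_eq ?_)
  rw [ENNReal.ofReal_natCast]; push_cast; rfl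

theorem block_E (hA : MeasurableSet A) (hG : MemLp G 2) (hs : Supp A G) (E : Set ℝ) {r s : ℝ}
    (hr : 0 ≤ r) (hrs : r ≤ s) (x₀ : En (m + 1)) {ρ : ℝ} (hρ : 0 < ρ) (K : ℕ)
    (hK : (cells A E ρ r s).ncard ≤ 2 ^ K) :
    ∫⁻ x in Metric.closedBall x₀ ρ, ⨆ R ∈ E ∩ Ico r s, ‖ps G R x - ps G r x‖ₑ ^ 2
      ≤ (2 * ((K : ℝ≥0∞) + 1) ^ 2 + 2 * ((Km m : ℝ≥0∞) + 4) ^ 2) * lam G (Ico r s) := by
  classical
  obtain ⟨q, hq⟩ := exists_q A hrs
  set a : ℝ := Mf A r s with ha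
  have ha0 : 0 ≤ a := Mf_nonneg A r s
  set τ : ℕ → ℝ := fun i => min ((i : ℝ) / ρ) a with hτ
  have hτm : ∀ i, τ i ∈ Icc 0 a := fun i => ⟨le_min (by positivity) ha0, min_le_right _ _⟩
  have hτmono : Monotone τ := by
    intro i j hij
    refine min_le_min_right _ ?_
    have : (i : ℝ) ≤ j := by exact_mod_cast hij
    gcongr
  set Rr : ℕ → ℝ := fun i => q (τ i) with hRr
  have hRm : ∀ i, Rr i ∈ Icc r s := fun i => (hq _ (hτm i)).1
  have hRM : ∀ i, Mf A r (Rr i) = τ i := fun i => (hq _ (hτm i)).2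
  have hRmono : Monotone Rr := by
    intro i j hij
    rcases eq_or_lt_of_le (hτmono hij) with h | h
    · simp only [hRr, h]; exact le_rfl
    · by_contra hc
      rw [not_le] at hc
      have := Mf_mono A r hc.le
      rw [hRM, hRM] at this
      linarith
  set U : ℕ → En (m + 1) → ℝ≥0∞ := fun i x =>
    ⨆ R ∈ Icc (Rr i) (Rr (i + 1)), ‖ps G R x - ps G (Rr i) x‖ₑ ^ 2 with hU
  have hUm : ∀ i, Measurable (U i) := fun i => sup_meas hG _ _
  set I : Finset ℕ := (cells_fin (A := A) (E := E) (r := r) (s := s) hρ).toFinset with hI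
  set P : Finset ℝ := I.image Rr with hP
  set W : En (m + 1) → ℝ≥0∞ := fun x => ⨆ p ∈ P, ‖ps G p x - ps G r x‖ₑ ^ 2 with hW
  have hWm : Measurable W := by
    have := sup_meas (G := G) hG (P : Set ℝ) r
    simpa [hW] using this
  set N0 : ℕ := ⌊ρ * a⌋₊ with hN0
  -- the pointwise bound
  have hpt : ∀ x, ⨆ R ∈ E ∩ Ico r s, ‖ps G R x - ps G r x‖ₑ ^ 2
      ≤ 2 * ((∑ i ∈ Finset.range (N0 + 1), U i x) + W x) := by
    intro x
    refine iSup₂_le fun R hR => ?_
    have hRrs : R ∈ Icc r s := ⟨hR.2.1, hR.2.2.le⟩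
    set i : ℕ := ⌊ρ * Mf A r R⌋₊ with hi
    have hiI : i ∈ I := by
      rw [hI, Set.Finite.mem_toFinset]
      exact ⟨R, hR, rfl⟩
    have hiN : i < N0 + 1 := by
      have := cells_sub (A := A) (E := E) (r := r) (s := s) hρ ⟨R, hR, rfl⟩
      simpa using this
    have hM0 := Mf_nonneg A r R
    have hMa : Mf A r R ≤ a := Mf_mono A r hRrs.2
    have h1 : (i : ℝ) ≤ ρ * Mf A r R := Nat.floor_le (by positivity)
    have h2 : ρ * Mf A r R < i + 1 := Nat.lt_floor_add_one _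
    have h3 : τ i ≤ Mf A r R := by
      refine (min_le_left _ _).trans ?_
      rw [div_le_iff₀ hρ]; linarith
    have h4 : Mf A r R ≤ τ (i + 1) := by
      refine le_min ?_ hMa
      rw [le_div_iff₀ hρ]; push_cast; linarith
    -- the clamped radius
    have h5 : ∃ R' ∈ Icc (Rr i) (Rr (i + 1)), Mf A r R' = Mf A r R := by
      rcases lt_or_ge R (Rr i) with hc | hc
      · refine ⟨Rr i, ⟨le_rfl, hRmono (Nat.le_succ i)⟩, ?_⟩
        have := Mf_mono A r hc.le
        rw [hRM] at this ⊢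
        linarith
      · rcases lt_or_ge (Rr (i + 1)) R with hd | hd
        · refine ⟨Rr (i + 1), ⟨hRmono (Nat.le_succ i), le_rfl⟩, ?_⟩
          have := Mf_mono A r hd.le
          rw [hRM] at this ⊢
          linarith
        · exact ⟨R, ⟨hc, hd⟩, rfl⟩
    obtain ⟨R', hR', hR'M⟩ := h5
    have hR'rs : R' ∈ Icc r s := ⟨(hRm i).1.trans hR'.1, hR'.2.trans (hRm (i + 1)).2⟩
    have h6 : ps G R x = ps G R' x := ps_eq_of_Mf hA hG hs hr hRrs hR'rs hR'M.symm x
    have h7 : ‖ps G R' x - ps G (Rr i) x‖ₑ ^ 2 ≤ U i x :=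
      le_iSup₂ (f := fun R (_ : R ∈ Icc (Rr i) (Rr (i + 1))) =>
        ‖ps G R x - ps G (Rr i) x‖ₑ ^ 2) R' hR'
    have h8 : ‖ps G (Rr i) x - ps G r x‖ₑ ^ 2 ≤ W x :=
      le_iSup₂ (f := fun p (_ : p ∈ P) => ‖ps G p x - ps G r x‖ₑ ^ 2) (Rr i)
        (Finset.mem_image_of_mem _ hiI)
    have h9 : ps G R x - ps G r x = (ps G R' x - ps G (Rr i) x) + (ps G (Rr i) x - ps G r x) := by
      rw [h6]; ring
    rw [h9]
    refine (enorm_add_sq_le _ _).trans (mul_le_mul_right (add_le_add ?_ h8) _)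
    exact h7.trans (Finset.single_le_sum (f := fun i => U i x) (fun _ _ => zero_le)
      (Finset.mem_range.2 hiN))
  -- the small blocks
  have hUi : ∀ i, ∫⁻ x in Metric.closedBall x₀ ρ, U i x
      ≤ ((Km m : ℝ≥0∞) + 4) ^ 2 * lam G (Ico (Rr i) (Rr (i + 1))) := by
    intro i
    refine block hA hG hs (hr.trans (hRm i).1) (hRmono (Nat.le_succ i)) x₀ hρ (Km m) ?_
    have h1 : volume (A ∩ Ico (Rr i) (Rr (i + 1))) ≤ ENNReal.ofReal (1 / ρ) := by
      have h2 := Mf_add hA (hRm i).1 (hRmono (Nat.le_succ i))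
      rw [← ENNReal.ofReal_toReal (vol_fin (r := Rr i) (s := Rr (i + 1)) A)]
      refine ENNReal.ofReal_le_ofReal ?_
      rw [hRM, hRM] at h2
      have h3 : τ (i + 1) ≤ τ i + 1 / ρ := by
        simp only [hτ]
        push_cast
        rw [add_div, ← min_add_add_right]
        refine min_le_min_left _ ?_
        have : 0 < 1 / ρ := by positivity
        linarith
      linarith
    calc cst m ρ * volume (A ∩ Ico (Rr i) (Rr (i + 1)))
        ≤ cst m ρ * ENNReal.ofReal (1 / ρ) := mul_le_mul_right h1 _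
      _ = ENNReal.ofReal (10 * ((m : ℝ) + 1) * √(m + 1)) := by
          rw [cst, ← ENNReal.ofReal_mul (by positivity)]
          congr 1
          field_simp
      _ ≤ _ := Km_spec m
  have hcard : P.card ≤ 2 ^ K := by
    refine Finset.card_image_le.trans ?_
    rw [hI, ← Set.ncard_eq_toFinset_card _ (cells_fin hρ)]
    exact hK
  have hWi : ∫⁻ x in Metric.closedBall x₀ ρ, W x ≤ ((K : ℝ≥0∞) + 1) ^ 2 * lam G (Ico r s) := by
    refine (lintegral_mono' Measure.restrict_le_self le_rfl).trans ?_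
    refine rm_finset hG hr hrs P ?_ K hcard
    intro p hp
    obtain ⟨i, _, rfl⟩ := Finset.mem_image.1 hp
    exact hRm i
  have hsum : ∑ i ∈ Finset.range (N0 + 1), lam G (Ico (Rr i) (Rr (i + 1))) ≤ lam G (Ico r s) := by
    refine (lam_sum G Rr (N0 + 1) fun i _ => hRmono (Nat.le_succ i)).2.trans (measure_mono ?_)
    exact Ico_subset_Ico (hRm 0).1 (hRm _).2
  calc ∫⁻ x in Metric.closedBall x₀ ρ, ⨆ R ∈ E ∩ Ico r s, ‖ps G R x - ps G r x‖ₑ ^ 2
      ≤ ∫⁻ x in Metric.closedBall x₀ ρ, 2 * ((∑ i ∈ Finset.range (N0 + 1), U i x) + W x) :=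
        lintegral_mono hpt
    _ = 2 * ((∑ i ∈ Finset.range (N0 + 1), ∫⁻ x in Metric.closedBall x₀ ρ, U i x)
          + ∫⁻ x in Metric.closedBall x₀ ρ, W x) := by
        rw [lintegral_const_mul' _ _ (by simp), lintegral_add_right _ hWm,
          lintegral_finsetSum _ fun i _ => hUm i]
    _ ≤ 2 * ((∑ i ∈ Finset.range (N0 + 1),
          ((Km m : ℝ≥0∞) + 4) ^ 2 * lam G (Ico (Rr i) (Rr (i + 1))))
          + ((K : ℝ≥0∞) + 1) ^ 2 * lam G (Ico r s)) := by
        gcongr with i hi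
        exact hUi i
    _ ≤ 2 * (((Km m : ℝ≥0∞) + 4) ^ 2 * lam G (Ico r s)
          + ((K : ℝ≥0∞) + 1) ^ 2 * lam G (Ico r s)) := by
        rw [← Finset.mul_sum]
        gcongr
    _ = _ := by ring

end Pool.Agent.Helper854_SP
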