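import Mathlib
import Pool.Agent.Helper392.MF.Vitali
import Pool.Agent.Helper854_SP.T

/-! The strong `L²` form of the maximal inequality for ball averages. -/

set_option autoImplicit false

open MeasureTheory Real Set Filter Topology
open scoped ENNReal NNReal RealInnerProductSpace

namespace Pool.Agent.Helper854_SP

open Pool.Agent.Helper93.Sph

theorem hl_real (n : ℕ) (hn : 1 ≤ n) (g M : En n → ℝ) (hg : Measurable g) (hg0 : ∀ x, 0 ≤ g x)
    (hM : Measurable M) (hM0 : ∀ x, 0 ≤ M x)
    (h : ∀ x, ∀ t : ℝ, 0 < t → t < M x → ∃ δ : ℝ, 0 < δ ∧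
      ENNReal.ofReal t * volume (Metric.ball x δ) ≤
        ∫⁻ y in Metric.ball x δ, ENNReal.ofReal (g y)) :
    ∫⁻ x, ENNReal.ofReal (M x ^ 2) ≤ 8 * 4 ^ n * ∫⁻ x, ENNReal.ofReal (g x ^ 2) := by
  by_cases htop : ∫⁻ x, ENNReal.ofReal (g x ^ 2) = ⊤
  · rw [htop, ENNReal.mul_top (by positivity)]; exact le_top
  set ν : Measure (En n) := volume.withDensity (fun y => ENNReal.ofReal (g y)) with hν
  have hgm : Measurable fun y => ENNReal.ofReal (g y) := hg.ennreal_ofReal
  have key : ∀ t : ℝ, 0 < t → volume {x | t < M x} * ENNReal.ofReal (t ^ ((2 : ℝ) - 1)) ≤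
      2 * 4 ^ n * ν {y | t < 2 * g y} := by
    intro t ht
    have hSm : MeasurableSet {y | t < 2 * g y} :=
      measurableSet_lt measurable_const (hg.const_mul 2)
    set F : En n → ℝ≥0∞ := {y | t < 2 * g y}.indicator fun y => ENNReal.ofReal (g y) with hF
    have hFi : ∫⁻ y, F y = ν {y | t < 2 * g y} := by
      rw [hF, lintegral_indicator hSm, hν, withDensity_apply _ hSm]
    have hFt : ∫⁻ y, F y ≠ ⊤ := by
      have h1 : ∀ y, F y ≤ ENNReal.ofReal (2 / t) * ENNReal.ofReal (g y ^ 2) := by
        intro y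
        by_cases hy : y ∈ {y | t < 2 * g y}
        · rw [hF, indicator_of_mem hy, ← ENNReal.ofReal_mul (by positivity)]
          refine ENNReal.ofReal_le_ofReal ?_
          have hy' : t < 2 * g y := hy
          have e : 2 / t * g y ^ 2 = g y * (2 * g y / t) := by ring
          rw [e]
          have : 1 ≤ 2 * g y / t := by rw [le_div_iff₀ ht]; linarith
          exact le_mul_of_one_le_right (hg0 y) this
        · rw [hF, indicator_of_notMem hy]; exact zero_le
      refine ne_top_of_le_ne_top ?_ (lintegral_mono h1)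
      rw [lintegral_const_mul' _ _ ENNReal.ofReal_ne_top]
      exact ENNReal.mul_ne_top ENNReal.ofReal_ne_top htop
    have h2 : ENNReal.ofReal (t / 2) ≠ 0 := by
      rw [Ne, ENNReal.ofReal_eq_zero, not_le]; positivity
    have h3 := Pool.Agent.Helper392.MF.weak_vitali n hn F hFt (ENNReal.ofReal (t / 2)) h2
      ENNReal.ofReal_ne_top {x | t < M x} (fun x hx => ?_)
    · have e1 : ENNReal.ofReal (t ^ ((2 : ℝ) - 1)) = 2 * ENNReal.ofReal (t / 2) := by
        rw [show (2 : ℝ) - 1 = 1 by norm_num, Real.rpow_one,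
          show (2 : ℝ≥0∞) = ENNReal.ofReal 2 by simp, ← ENNReal.ofReal_mul (by norm_num)]
        congr 1; ring
      rw [e1, ← hFi]
      calc volume {x | t < M x} * (2 * ENNReal.ofReal (t / 2))
          ≤ (4 ^ n * (∫⁻ x, F x) / ENNReal.ofReal (t / 2)) * (2 * ENNReal.ofReal (t / 2)) :=
            mul_le_mul_left h3 _
        _ = 2 * ((4 ^ n * (∫⁻ x, F x) / ENNReal.ofReal (t / 2)) * ENNReal.ofReal (t / 2)) := by
            ring
        _ = 2 * (4 ^ n * (∫⁻ x, F x)) := by
            rw [ENNReal.div_mul_cancel h2 ENNReal.ofReal_ne_top]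
        _ = _ := by ring
    · obtain ⟨δ, hδ, h4⟩ := h x t ht hx
      refine ⟨δ, hδ, ?_⟩
      have h5 : ∫⁻ y in Metric.ball x δ, ENNReal.ofReal (g y) ≤
          ∫⁻ y in Metric.ball x δ, (ENNReal.ofReal (t / 2) + F y) := by
        refine lintegral_mono fun y => ?_
        by_cases hy : y ∈ {y | t < 2 * g y}
        · simp only [hF, indicator_of_mem hy]; exact le_add_self
        · refine le_trans (ENNReal.ofReal_le_ofReal ?_) le_self_add
          have hy' : ¬ t < 2 * g y := hy
          linarith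
      rw [lintegral_add_left measurable_const, setLIntegral_const] at h5
      have e2 : ENNReal.ofReal t * volume (Metric.ball x δ) =
          ENNReal.ofReal (t / 2) * volume (Metric.ball x δ)
            + ENNReal.ofReal (t / 2) * volume (Metric.ball x δ) := by
        rw [← add_mul, ← ENNReal.ofReal_add (by positivity) (by positivity), add_halves]
      rw [e2] at h4
      refine (ENNReal.add_le_add_iff_left ?_).1 (h4.trans h5)
      exact ENNReal.mul_ne_top ENNReal.ofReal_ne_top measure_ball_lt_top.ne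
  have k1 := lintegral_rpow_eq_lintegral_meas_lt_mul (volume : Measure (En n)) (f := M)
    (Eventually.of_forall hM0) hM.aemeasurable (p := 2) (by norm_num)
  have k2 := lintegral_eq_lintegral_meas_lt ν (f := fun y => 2 * g y)
    (Eventually.of_forall fun y => by have := hg0 y; simp only [Pi.zero_apply]; positivity)
    (hg.const_mul 2).aemeasurable
  have e3 : ∀ x, M x ^ (2 : ℝ) = M x ^ 2 := fun x => by
    rw [show (2 : ℝ) = ((2 : ℕ) : ℝ) by norm_num, Real.rpow_natCast]
  simp_rw [e3] at k1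
  rw [k1]
  have hm2 : Measurable fun t : ℝ => ν {y | t < 2 * g y} := by
    have ha : Antitone fun t : ℝ => ν {y | t < 2 * g y} := fun s t hst =>
      measure_mono fun a (ha : t < 2 * g a) => lt_of_le_of_lt hst ha
    exact ha.measurable
  have k3 : ∫⁻ t in Ioi (0 : ℝ), volume {a : En n | t < M a} * ENNReal.ofReal (t ^ ((2 : ℝ) - 1))
      ≤ 2 * 4 ^ n * ∫⁻ t in Ioi (0 : ℝ), ν {y | t < 2 * g y} := by
    rw [← lintegral_const_mul _ hm2]
    exact setLIntegral_mono (hm2.const_mul _) fun t ht => key t ht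
  rw [← k2] at k3
  have k4 : ∫⁻ y, ENNReal.ofReal (2 * g y) ∂ν = 2 * ∫⁻ y, ENNReal.ofReal (g y ^ 2) := by
    rw [hν, lintegral_withDensity_eq_lintegral_mul _ hgm (by fun_prop), ← lintegral_const_mul _
      (by fun_prop)]
    refine lintegral_congr fun y => ?_
    simp only [Pi.mul_apply]
    rw [← ENNReal.ofReal_mul (hg0 y), show (2 : ℝ≥0∞) = ENNReal.ofReal 2 by simp,
      ← ENNReal.ofReal_mul (by norm_num)]
    congr 1; ring
  rw [k4] at k3
  calc _ ≤ ENNReal.ofReal 2 * (2 * 4 ^ n * (2 * ∫⁻ y, ENNReal.ofReal (g y ^ 2))) :=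
        mul_le_mul_right k3 _
    _ = _ := by
        rw [show ENNReal.ofReal 2 = 2 by simp]; ring

end Pool.Agent.Helper854_SP
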