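import Mathlib
import Pool.Agent.Helper854_SP.HL

/-! Averages over balls as Fourier multipliers. -/

set_option autoImplicit false

open MeasureTheory Real Set Filter Topology
open scoped ENNReal NNReal RealInnerProductSpace

namespace Pool.Agent.Helper854_SP

open Pool.Agent.Helper93.Sph

variable {n m : ℕ}

/-- real volume of the closed ball -/
noncomputable def Vb (n : ℕ) (δ : ℝ) : ℝ := volume.real (Metric.closedBall (0 : En n) δ)

lemma Vb_center (x : En n) (δ : ℝ) : volume.real (Metric.closedBall x δ) = Vb n δ := by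
  rw [Vb, measureReal_def, measureReal_def, Measure.addHaar_closedBall_center]

lemma Vb_eq {δ : ℝ} (hδ : 0 ≤ δ) : Vb n δ = δ ^ n * Vb n 1 := by
  rw [Vb, Vb, Measure.addHaar_real_closedBall _ _ hδ, Measure.addHaar_real_closedBall _ _ zero_le_one]
  simp

lemma Vb_pos {δ : ℝ} (hδ : 0 < δ) : 0 < Vb n δ := by
  rw [Vb, measureReal_def, ENNReal.toReal_pos_iff]
  exact ⟨Metric.measure_closedBall_pos _ _ hδ, measure_closedBall_lt_top⟩

/-- average over a ball -/
noncomputable def avg (δ : ℝ) (f : En n → ℂ) (x : En n) : ℂ :=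
  ((Vb n δ)⁻¹ : ℝ) • ∫ y in Metric.closedBall x δ, f y

/-- multiplier of the average over a ball -/
noncomputable def mlt (δ : ℝ) (ξ : En n) : ℂ :=
  ((Vb n δ)⁻¹ : ℝ) • ∫ y in Metric.closedBall (0 : En n) δ, ek y ξ

lemma avg_eq (δ : ℝ) (f : En n → ℂ) (x : En n) :
    avg δ f x = ⨍ y in Metric.closedBall x δ, f y := by
  rw [avg, setAverage_eq, Vb_center]

lemma shift_int (x : En n) (δ : ℝ) (f : En n → ℂ) :
    ∫ y in Metric.closedBall x δ, f y = ∫ y in Metric.closedBall (0 : En n) δ, f (x + y) := by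
  rw [← (measurePreserving_add_left volume x).setIntegral_preimage_emb
    (measurableEmbedding_addLeft x) f (Metric.closedBall x δ)]
  have : (fun y => x + y) ⁻¹' Metric.closedBall x δ = Metric.closedBall (0 : En n) δ := by
    ext y; simp [dist_eq_norm]
  rw [this]

lemma fin_ball (x : En n) (δ : ℝ) :
    IsFiniteMeasure (volume.restrict (Metric.closedBall x δ)) := ⟨by
  rw [Measure.restrict_apply_univ]; exact measure_closedBall_lt_top⟩

lemma avg_Fi (δ : ℝ) {H : En n → ℂ} (hH : Integrable H) (x : En n) :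
    avg δ (Fi H) x = Fi (fun ξ => mlt δ ξ * H ξ) x := by
  have := fin_ball (0 : En n) δ
  rw [avg, shift_int]
  have h1 : Integrable (Function.uncurry fun (y ξ : En n) => ek (x + y) ξ * H ξ)
      ((volume.restrict (Metric.closedBall (0 : En n) δ)).prod volume) := by
    refine (hH.comp_snd (volume.restrict (Metric.closedBall (0 : En n) δ))).bdd_mul (c := 1) ?_ ?_
    · exact (ek_cont.comp (by fun_prop : Continuous fun z : En n × En n =>
        (x + z.1, z.2))).aestronglyMeasurable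
    · exact Eventually.of_forall fun z => (ek_norm _ _).le
  have h2 : ∫ y in Metric.closedBall (0 : En n) δ, Fi H (x + y)
      = ∫ ξ, ek x ξ * ((∫ y in Metric.closedBall (0 : En n) δ, ek y ξ) * H ξ) := by
    unfold Fi
    rw [integral_integral_swap h1]
    refine integral_congr_ae (Eventually.of_forall fun ξ => ?_)
    simp only
    rw [← integral_mul_const, ← integral_const_mul]
    refine integral_congr_ae (Eventually.of_forall fun y => ?_)
    simp only
    rw [ek_add]; ring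
  rw [h2, Fi, ← integral_smul]
  refine integral_congr_ae (Eventually.of_forall fun ξ => ?_)
  simp only [mlt, Complex.real_smul]
  ring

lemma mlt_cont (δ : ℝ) : Continuous (mlt δ : En n → ℂ) := by
  have := fin_ball (0 : En n) δ
  have h : Continuous fun ξ : En n => ∫ y in Metric.closedBall (0 : En n) δ, ek y ξ := by
    refine continuous_of_dominated (bound := fun _ => (1 : ℝ)) ?_ ?_ (integrable_const _) ?_
    · intro ξ
      exact (ek_cont.comp (by fun_prop : Continuous fun y : En n => (y, ξ))).aestronglyMeasurable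
    · intro ξ; exact Eventually.of_forall fun y => (ek_norm y ξ).le
    · refine Eventually.of_forall fun y => ?_
      exact ek_cont.comp (by fun_prop : Continuous fun ξ : En n => (y, ξ))
  exact h.const_smul ((Vb n δ)⁻¹ : ℝ)

lemma ek_intOn (δ : ℝ) (x ξ : En n) :
    IntegrableOn (fun y => ek y ξ) (Metric.closedBall x δ) := by
  have := fin_ball x δ
  have hc : Continuous fun y : En n => ek y ξ :=
    ek_cont.comp (by fun_prop : Continuous fun y : En n => (y, ξ))
  exact hc.continuousOn.integrableOn_compact (isCompact_closedBall x δ)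

lemma mlt_sub_one {δ : ℝ} (hδ : 0 < δ) (ξ : En n) : ‖mlt δ ξ - 1‖ ≤ 2 * π * δ * ‖ξ‖ := by
  have hV := Vb_pos (n := n) hδ
  have h1 : mlt δ ξ - 1 = ((Vb n δ)⁻¹ : ℝ) • ∫ y in Metric.closedBall (0 : En n) δ, (ek y ξ - 1) := by
    rw [integral_sub (ek_intOn δ 0 ξ) (by
      have := fin_ball (0 : En n) δ
      exact integrable_const _), mlt, smul_sub]
    congr 1
    rw [setIntegral_const, ← Vb, smul_smul, inv_mul_cancel₀ hV.ne', one_smul]
  rw [h1, norm_smul, Real.norm_eq_abs, abs_of_pos (inv_pos.2 hV)]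
  have h2 : ‖∫ y in Metric.closedBall (0 : En n) δ, (ek y ξ - 1)‖
      ≤ 2 * π * δ * ‖ξ‖ * volume.real (Metric.closedBall (0 : En n) δ) := by
    refine norm_setIntegral_le_of_norm_le_const measure_closedBall_lt_top fun y hy => ?_
    have h3 : ek y ξ = Complex.exp (Complex.I * ((2 * π * ⟪y, ξ⟫ : ℝ) : ℂ)) := by
      rw [ek]; congr 1; push_cast; ring
    rw [h3]
    refine Real.norm_exp_I_mul_ofReal_sub_one_le.trans ?_
    rw [Real.norm_eq_abs, abs_mul, abs_of_pos (by positivity : (0 : ℝ) < 2 * π)]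
    have h4 := abs_real_inner_le_norm y ξ
    have h5 : ‖y‖ ≤ δ := by simpa using hy
    calc 2 * π * |⟪y, ξ⟫| ≤ 2 * π * (‖y‖ * ‖ξ‖) := by gcongr
      _ ≤ 2 * π * (δ * ‖ξ‖) := by gcongr
      _ = _ := by ring
  rw [← Vb] at h2
  calc (Vb n δ)⁻¹ * ‖∫ y in Metric.closedBall (0 : En n) δ, (ek y ξ - 1)‖
      ≤ (Vb n δ)⁻¹ * (2 * π * δ * ‖ξ‖ * Vb n δ) := by gcongr
    _ = _ := by field_simp

lemma mlt_le_one {δ : ℝ} (hδ : 0 < δ) (ξ : En n) : ‖mlt δ ξ‖ ≤ 1 := by
  have hV := Vb_pos (n := n) hδ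
  rw [mlt, norm_smul, Real.norm_eq_abs, abs_of_pos (inv_pos.2 hV)]
  have h2 : ‖∫ y in Metric.closedBall (0 : En n) δ, ek y ξ‖
      ≤ 1 * volume.real (Metric.closedBall (0 : En n) δ) :=
    norm_setIntegral_le_of_norm_le_const measure_closedBall_lt_top fun y _ => (ek_norm y ξ).le
  rw [← Vb, one_mul] at h2
  calc (Vb n δ)⁻¹ * ‖∫ y in Metric.closedBall (0 : En n) δ, ek y ξ‖
      ≤ (Vb n δ)⁻¹ * Vb n δ := by gcongr
    _ = 1 := inv_mul_cancel₀ hV.ne'

/-- volume of the part of a ball outside a shifted ball -/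
lemma lune {δ : ℝ} (hδ : 0 < δ) (a b : En (m + 1)) (hab : dist a b ≤ δ) :
    volume.real (Metric.closedBall a δ \ Metric.closedBall b δ)
      ≤ (m + 1) * (dist a b / δ) * Vb (m + 1) δ := by
  set h := dist a b with hh
  have hh0 : 0 ≤ h := dist_nonneg
  have h1 : Metric.closedBall a δ \ Metric.closedBall b δ
      ⊆ Metric.closedBall a δ \ Metric.closedBall a (δ - h) := by
    refine sdiff_subset_sdiff_right ?_
    refine Metric.closedBall_subset_closedBall' ?_
    linarith
  have h2 : Metric.closedBall a (δ - h) ⊆ Metric.closedBall a δ :=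
    Metric.closedBall_subset_closedBall (by linarith)
  have h3 : volume.real (Metric.closedBall a δ \ Metric.closedBall a (δ - h))
      = Vb (m + 1) δ - Vb (m + 1) (δ - h) := by
    rw [measureReal_sdiff h2 Metric.isClosed_closedBall.measurableSet
      measure_closedBall_lt_top.ne, Vb_center, Vb_center]
  refine (measureReal_mono h1 ?_).trans ?_
  · exact (lt_of_le_of_lt (measure_mono sdiff_subset) measure_closedBall_lt_top).ne
  · rw [h3, Vb_eq hδ.le, Vb_eq (by linarith : 0 ≤ δ - h)]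
    have h4 : (1 : ℝ) + ((m + 1 : ℕ) : ℝ) * (-(h / δ)) ≤ (1 + -(h / δ)) ^ (m + 1) := by
      refine one_add_mul_le_pow ?_ _
      have : h / δ ≤ 1 := by rw [div_le_one hδ]; exact hab
      linarith
    have h5 : (δ - h) ^ (m + 1) = δ ^ (m + 1) * (1 + -(h / δ)) ^ (m + 1) := by
      rw [← mul_pow]; congr 1; field_simp; ring
    rw [h5]
    have hV1 := Vb_pos (n := m + 1) one_pos
    have hp : 0 < δ ^ (m + 1) * Vb (m + 1) 1 := by positivity
    push_cast at h4
    nlinarith

lemma mlt_decay {δ : ℝ} (hδ : 0 < δ) {ξ : En (m + 1)} (hξ : ξ ≠ 0) :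
    ‖mlt δ ξ‖ ≤ (m + 1) / (δ * ‖ξ‖) := by
  have hξ0 : 0 < ‖ξ‖ := norm_pos_iff.2 hξ
  have hV := Vb_pos (n := m + 1) hδ
  rcases le_total (δ * ‖ξ‖) (m + 1) with hc | hc
  · refine (mlt_le_one hδ ξ).trans ?_
    rw [le_div_iff₀ (by positivity)]; linarith
  set h : En (m + 1) := (1 / (2 * ‖ξ‖ ^ 2)) • ξ with hh
  have hn : ‖h‖ = 1 / (2 * ‖ξ‖) := by
    rw [hh, norm_smul, Real.norm_eq_abs, abs_of_pos (by positivity)]
    field_simp
  have hd : dist h 0 = 1 / (2 * ‖ξ‖) := by rw [dist_zero_right, hn]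
  have hd' : dist h 0 ≤ δ := by
    rw [hd, div_le_iff₀ (by positivity)]
    have : (1 : ℝ) ≤ m + 1 := by
      have : (0 : ℝ) ≤ m := Nat.cast_nonneg m
      linarith
    nlinarith
  have hek : ∀ y : En (m + 1), ek (h + y) ξ = - ek y ξ := by
    intro y
    rw [ek_add]
    have : ek h ξ = -1 := by
      rw [ek, hh, real_inner_smul_left, real_inner_self_eq_norm_sq]
      have e : (1 / (2 * ‖ξ‖ ^ 2) * ‖ξ‖ ^ 2 : ℝ) = 1 / 2 := by field_simp
      rw [e]
      have e2 : (2 * (π : ℂ) * Complex.I * ((1 / 2 : ℝ) : ℂ)) = π * Complex.I := by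
        push_cast; ring
      rw [e2, Complex.exp_pi_mul_I]
    rw [this]; ring
  set B0 := Metric.closedBall (0 : En (m + 1)) δ with hB0
  set B1 := Metric.closedBall h δ with hB1
  have i1 : ∫ y in B1, ek y ξ = - ∫ y in B0, ek y ξ := by
    rw [hB1, shift_int, ← integral_neg]
    refine integral_congr_ae (Eventually.of_forall fun y => ?_)
    simp only [hek]
  have m0 : MeasurableSet B0 := Metric.isClosed_closedBall.measurableSet
  have m1 : MeasurableSet B1 := Metric.isClosed_closedBall.measurableSet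
  have j0 : IntegrableOn (fun y => ek y ξ) B0 := ek_intOn δ 0 ξ
  have j1 : IntegrableOn (fun y => ek y ξ) B1 := ek_intOn δ h ξ
  have i2 : ∫ y in B0, ek y ξ = (∫ y in B0 ∩ B1, ek y ξ) + ∫ y in B0 \ B1, ek y ξ :=
    (integral_inter_add_sdiff m1 j0).symm
  have i3 : ∫ y in B1, ek y ξ = (∫ y in B0 ∩ B1, ek y ξ) + ∫ y in B1 \ B0, ek y ξ := by
    rw [inter_comm]; exact (integral_inter_add_sdiff m0 j1).symm
  have i4 : (2 : ℂ) * ∫ y in B0, ek y ξ = (∫ y in B0 \ B1, ek y ξ) - ∫ y in B1 \ B0, ek y ξ := by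
    linear_combination i2 - i3 + i1
  have b0 : ‖∫ y in B0 \ B1, ek y ξ‖ ≤ 1 * volume.real (B0 \ B1) :=
    norm_setIntegral_le_of_norm_le_const
      (lt_of_le_of_lt (measure_mono sdiff_subset) measure_closedBall_lt_top)
      fun y _ => (ek_norm y ξ).le
  have b1 : ‖∫ y in B1 \ B0, ek y ξ‖ ≤ 1 * volume.real (B1 \ B0) :=
    norm_setIntegral_le_of_norm_le_const
      (lt_of_le_of_lt (measure_mono sdiff_subset) measure_closedBall_lt_top)
      fun y _ => (ek_norm y ξ).le
  have l0 := lune hδ (0 : En (m + 1)) h (by rw [dist_comm]; exact hd')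
  have l1 := lune hδ h (0 : En (m + 1)) hd'
  rw [dist_comm, hd] at l0
  rw [hd] at l1
  have b2 : 2 * ‖∫ y in B0, ek y ξ‖ ≤ 2 * ((m + 1) * (1 / (2 * ‖ξ‖) / δ) * Vb (m + 1) δ) := by
    have : 2 * ‖∫ y in B0, ek y ξ‖ = ‖(2 : ℂ) * ∫ y in B0, ek y ξ‖ := by
      rw [norm_mul]; norm_num
    rw [this, i4]
    refine (norm_sub_le _ _).trans ?_
    linarith
  rw [mlt, norm_smul, Real.norm_eq_abs, abs_of_pos (inv_pos.2 hV), ← hB0]
  calc (Vb (m + 1) δ)⁻¹ * ‖∫ y in B0, ek y ξ‖
      ≤ (Vb (m + 1) δ)⁻¹ * ((m + 1) * (1 / (2 * ‖ξ‖) / δ) * Vb (m + 1) δ) := by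
        gcongr; linarith
    _ = (m + 1) / (δ * ‖ξ‖) / 2 := by field_simp
    _ ≤ _ := by
        have : 0 ≤ ((m : ℝ) + 1) / (δ * ‖ξ‖) := by positivity
        linarith

end Pool.Agent.Helper854_SP
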