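import Mathlib
import Pool.Agent.Helper854_SP.Mu

/-! The lacunary maximal function in `L²`. -/

set_option autoImplicit false

open MeasureTheory Real Set Filter Topology
open scoped ENNReal NNReal RealInnerProductSpace

namespace Pool.Agent.Helper854_SP

open Pool.Agent.Helper93.Sph

variable {m : ℕ} {A : Set ℝ} {G : En (m + 1) → ℂ}

/-- the decay profile of the multipliers -/
noncomputable def phi (T t : ℝ) : ℝ := if t < T then (t / T) ^ 2 else (T / t) ^ 2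

lemma phi_sum {t : ℝ} (_ht : 0 ≤ t) (N : ℕ) : ∀ T : ℝ, 0 < T →
    (t < T → ∑ k ∈ Finset.range N, phi (T * 2 ^ k) t ≤ 4 / 3 * (t / T) ^ 2) ∧
    (T ≤ t → ∑ k ∈ Finset.range N, phi (T * 2 ^ k) t ≤ 8 / 3 - 1 / 3 * (T / t) ^ 2) := by
  induction N with
  | zero =>
    intro T hT
    refine ⟨fun _ => by simp; positivity, fun h => ?_⟩
    have ht0 : 0 < t := hT.trans_le h
    have h1 : T / t ≤ 1 := (div_le_one ht0).2 h
    have h2 : 0 ≤ T / t := by positivity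
    simp only [Finset.range_zero, Finset.sum_empty]
    nlinarith
  | succ N ih =>
    intro T hT
    have e : ∑ k ∈ Finset.range (N + 1), phi (T * 2 ^ k) t
        = phi T t + ∑ k ∈ Finset.range N, phi ((2 * T) * 2 ^ k) t := by
      rw [Finset.sum_range_succ', add_comm]
      congr 1
      · simp
      · refine Finset.sum_congr rfl fun k _ => ?_
        congr 1; ring
    obtain ⟨i1, i2⟩ := ih (2 * T) (by positivity)
    refine ⟨fun h => ?_, fun h => ?_⟩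
    · have h1 := i1 (by linarith)
      rw [e, phi, if_pos h]
      have h2 : (t / (2 * T)) ^ 2 = 1 / 4 * (t / T) ^ 2 := by field_simp; ring
      rw [h2] at h1
      linarith
    · have ht0 : 0 < t := hT.trans_le h
      rw [e, phi, if_neg (not_lt.2 h)]
      set u : ℝ := T / t with hu
      have hu0 : 0 < u := by positivity
      have hu1 : u ≤ 1 := (div_le_one ht0).2 h
      rcases lt_or_ge t (2 * T) with h3 | h3
      · have h1 := i1 h3
        have h2 : (t / (2 * T)) ^ 2 = 1 / 4 * (1 / u ^ 2) := by rw [hu]; field_simp; ring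
        rw [h2] at h1
        have h4 : 1 / 2 ≤ u := by
          rw [hu, le_div_iff₀ ht0]; linarith
        set v : ℝ := u ^ 2 with hv
        have hv1 : 1 / 4 ≤ v := by rw [hv]; nlinarith
        have hv2 : v ≤ 1 := by rw [hv]; nlinarith
        have h5 : 1 / v ≤ 8 - 4 * v := by
          rw [div_le_iff₀ (by linarith)]
          nlinarith
        linarith
      · have h1 := i2 h3
        have h2 : (2 * T / t) ^ 2 = 4 * u ^ 2 := by rw [hu]; field_simp; ring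
        rw [h2] at h1
        linarith

lemma phi_sum' {t : ℝ} (ht : 0 ≤ t) (N : ℕ) {T : ℝ} (hT : 0 < T) :
    ∑ k ∈ Finset.range N, phi (T * 2 ^ k) t ≤ 3 := by
  obtain ⟨h1, h2⟩ := phi_sum ht N T hT
  rcases lt_or_ge t T with h | h
  · have h3 : t / T ≤ 1 := (div_le_one hT).2 h.le
    have h4 : 0 ≤ t / T := by positivity
    have := h1 h
    nlinarith
  · have := h2 h
    have h4 : 0 ≤ (T / t) ^ 2 := by positivity
    linarith

/-- difference of the sharp cutoff and the average -/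
noncomputable def cm (m : ℕ) (T : ℝ) (ξ : En (m + 1)) : ℂ :=
  (shell (m + 1) 0 T).indicator 1 ξ - mlt (1 / T) ξ

lemma cm_bound {T : ℝ} (hT : 0 < T) (ξ : En (m + 1)) :
    ‖cm m T ξ‖ ^ 2 ≤ (2 * π + (m + 1)) ^ 2 * phi T ‖ξ‖ := by
  have hc : (0 : ℝ) ≤ 2 * π := by positivity
  have hc' : (0 : ℝ) ≤ m + 1 := by positivity
  unfold cm phi
  split_ifs with h
  · have h1 : ξ ∈ shell (m + 1) 0 T := ⟨norm_nonneg _, h⟩
    rw [indicator_of_mem h1, Pi.one_apply, norm_sub_rev]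
    have h2 := mlt_sub_one (one_div_pos.2 hT) ξ
    have h3 : 2 * π * (1 / T) * ‖ξ‖ ≤ (2 * π + (m + 1)) * (‖ξ‖ / T) := by
      have : 0 ≤ ‖ξ‖ / T := by positivity
      have e : 2 * π * (1 / T) * ‖ξ‖ = 2 * π * (‖ξ‖ / T) := by ring
      rw [e]
      gcongr
      linarith
    rw [← mul_pow]
    exact pow_le_pow_left₀ (norm_nonneg _) (h2.trans h3) 2
  · have h1 : ξ ∉ shell (m + 1) 0 T := fun h' => h h'.2
    rw [not_lt] at h
    have hξ0 : 0 < ‖ξ‖ := hT.trans_le h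
    rw [indicator_of_notMem h1, zero_sub, norm_neg]
    have h2 := mlt_decay (one_div_pos.2 hT) (norm_pos_iff.1 hξ0)
    have h3 : ((m : ℝ) + 1) / (1 / T * ‖ξ‖) ≤ (2 * π + (m + 1)) * (T / ‖ξ‖) := by
      have : 0 ≤ T / ‖ξ‖ := by positivity
      have e : ((m : ℝ) + 1) / (1 / T * ‖ξ‖) = (m + 1) * (T / ‖ξ‖) := by field_simp
      rw [e]
      exact mul_le_mul_of_nonneg_right (by linarith) this
    rw [← mul_pow]
    exact pow_le_pow_left₀ (norm_nonneg _) (h2.trans h3) 2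

lemma cm_meas (T : ℝ) : AEStronglyMeasurable (cm m T) volume := by
  unfold cm
  refine AEStronglyMeasurable.sub ?_ (mlt_cont _).aestronglyMeasurable
  exact (aestronglyMeasurable_const (b := (1 : ℂ))).indicator (shell_meas _ _ _)

lemma cm_le {T : ℝ} (hT : 0 < T) (ξ : En (m + 1)) : ‖cm m T ξ‖ ≤ 2 := by
  unfold cm
  refine (norm_sub_le _ _).trans ?_
  have h1 := mlt_le_one (one_div_pos.2 hT) ξ
  have h2 : ‖(shell (m + 1) 0 T).indicator (1 : En (m + 1) → ℂ) ξ‖ ≤ 1 := by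
    by_cases h : ξ ∈ shell (m + 1) 0 T
    · rw [indicator_of_mem h]; simp
    · rw [indicator_of_notMem h]; simp
  linarith

lemma cm_int {T : ℝ} (hT : 0 < T) {H : En (m + 1) → ℂ} (hH : Integrable H) :
    Integrable (fun ξ => cm m T ξ * H ξ) :=
  hH.bdd_mul (c := 2) (cm_meas T) (Eventually.of_forall fun ξ => cm_le hT ξ)

lemma mlt_int {δ : ℝ} (hδ : 0 < δ) {H : En (m + 1) → ℂ} (hH : Integrable H) :
    Integrable (fun ξ => mlt δ ξ * H ξ) :=
  hH.bdd_mul (c := 1) (mlt_cont δ).aestronglyMeasurable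
    (Eventually.of_forall fun ξ => mlt_le_one hδ ξ)

lemma ps_fun (G : En (m + 1) → ℂ) (M : ℝ) : ps G M = Fi ((shell (m + 1) 0 M).indicator G) :=
  funext fun x => ps_eq G M x

lemma diff_eq (hG : MemLp G 2) {T M : ℝ} (hT : 0 < T) (hTM : T ≤ M) (x : En (m + 1)) :
    ps G T x - avg (1 / T) (ps G M) x
      = Fi (fun ξ => cm m T ξ * (shell (m + 1) 0 M).indicator G ξ) x := by
  have hH : Integrable ((shell (m + 1) 0 M).indicator G) := ind_int hG _ _
  rw [ps_fun G M, avg_Fi _ hH, ps_eq, Fi, Fi, Fi, ← integral_sub (ek_int (ind_int hG _ _) x)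
    (ek_int (mlt_int (one_div_pos.2 hT) hH) x)]
  refine integral_congr_ae (Eventually.of_forall fun ξ => ?_)
  simp only [cm]
  by_cases h : ξ ∈ shell (m + 1) 0 T
  · have h' : ξ ∈ shell (m + 1) 0 M := ⟨h.1, h.2.trans_le hTM⟩
    rw [indicator_of_mem h, indicator_of_mem h', indicator_of_mem h, Pi.one_apply]
    ring
  · rw [indicator_of_notMem h, indicator_of_notMem h]
    ring

/-- constant of the square function -/
noncomputable def cS (m : ℕ) : ℝ≥0∞ := ENNReal.ofReal (3 * (2 * π + (m + 1)) ^ 2)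

/-- **the square function** -/
theorem sq_fun (hG : MemLp G 2) {T₀ : ℝ} (hT : 0 < T₀) (N : ℕ) {M : ℝ}
    (hM : ∀ k < N, T₀ * 2 ^ k ≤ M) :
    ∑ k ∈ Finset.range N, ∫⁻ x, ‖ps G (T₀ * 2 ^ k) x
      - avg (1 / (T₀ * 2 ^ k)) (ps G M) x‖ₑ ^ 2 ≤ cS m * ∫⁻ ξ, ‖G ξ‖ₑ ^ 2 := by
  set H : En (m + 1) → ℂ := (shell (m + 1) 0 M).indicator G with hH
  have hHi : Integrable H := ind_int hG _ _
  have hT' : ∀ k : ℕ, 0 < T₀ * 2 ^ k := fun k => by positivity
  have h1 : ∀ k ∈ Finset.range N, ∫⁻ x, ‖ps G (T₀ * 2 ^ k) x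
      - avg (1 / (T₀ * 2 ^ k)) (ps G M) x‖ₑ ^ 2
      ≤ ∫⁻ ξ, ‖cm m (T₀ * 2 ^ k) ξ * H ξ‖ₑ ^ 2 := by
    intro k hk
    rw [Finset.mem_range] at hk
    have : ∀ x, ps G (T₀ * 2 ^ k) x - avg (1 / (T₀ * 2 ^ k)) (ps G M) x
        = Fi (fun ξ => cm m (T₀ * 2 ^ k) ξ * H ξ) x := fun x => diff_eq hG (hT' k) (hM k hk) x
    simp_rw [this]
    exact bessel (cm_int (hT' k) hHi)
  refine (Finset.sum_le_sum h1).trans ?_
  rw [← lintegral_finsetSum' _ fun k _ =>
    ((cm_int (hT' k) hHi).aestronglyMeasurable.enorm.pow_const 2)]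
  unfold cS
  rw [← lintegral_const_mul' _ _ ENNReal.ofReal_ne_top]
  refine lintegral_mono fun ξ => ?_
  have h2 : ∀ k ∈ Finset.range N, ‖cm m (T₀ * 2 ^ k) ξ * H ξ‖ₑ ^ 2
      ≤ ENNReal.ofReal ((2 * π + (m + 1)) ^ 2 * phi (T₀ * 2 ^ k) ‖ξ‖) * ‖G ξ‖ₑ ^ 2 := by
    intro k _
    rw [enorm_mul, mul_pow]
    refine mul_le_mul' ?_ ?_
    · rw [← ofReal_norm, ← ENNReal.ofReal_pow (norm_nonneg _)]
      exact ENNReal.ofReal_le_ofReal (cm_bound (hT' k) ξ)
    · by_cases h : ξ ∈ shell (m + 1) 0 M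
      · rw [hH, indicator_of_mem h]
      · rw [hH, indicator_of_notMem h]; simp
  refine (Finset.sum_le_sum h2).trans ?_
  rw [← Finset.sum_mul]
  refine mul_le_mul_left ?_ _
  rw [← ENNReal.ofReal_sum_of_nonneg]
  · refine ENNReal.ofReal_le_ofReal ?_
    rw [← Finset.mul_sum]
    have h3 := phi_sum' (norm_nonneg ξ) N hT
    nlinarith [sq_nonneg (2 * π + ((m : ℝ) + 1))]
  · intro k _
    unfold phi
    split_ifs <;> positivity

/-- **maximal averages** -/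
theorem avg_max (hG : MemLp G 2) (M : ℝ) (N : ℕ) (δ : ℕ → ℝ) (hδ : ∀ k, 0 < δ k) :
    ∫⁻ x, ⨆ k ∈ Finset.range N, ‖avg (δ k) (ps G M) x‖ₑ ^ 2
      ≤ 8 * 4 ^ (m + 1) * ∫⁻ ξ, ‖G ξ‖ₑ ^ 2 := by
  have hHi : Integrable ((shell (m + 1) 0 M).indicator G) := ind_int hG _ _
  have hfc : Continuous (ps G M) := ps_cont_x hG M
  set W : En (m + 1) → ℝ≥0∞ := fun x => ⨆ k ∈ Finset.range N, ‖avg (δ k) (ps G M) x‖ₑ with hW
  have hWm : Measurable W := by
    refine Measurable.iSup fun k => Measurable.iSup fun _ => ?_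
    have : avg (δ k) (ps G M) = Fi (fun ξ => mlt (δ k) ξ * (shell (m + 1) 0 M).indicator G ξ) := by
      rw [ps_fun]; exact funext fun x => avg_Fi _ hHi x
    rw [this]
    exact (Fi_cont (mlt_int (hδ k) hHi)).enorm.measurable
  have hWt : ∀ x, W x ≠ ⊤ := by
    intro x
    have : W x ≤ ∑ k ∈ Finset.range N, ‖avg (δ k) (ps G M) x‖ₑ :=
      iSup₂_le fun k hk => Finset.single_le_sum (f := fun k => ‖avg (δ k) (ps G M) x‖ₑ)
        (fun _ _ => zero_le) hk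
    refine ne_top_of_le_ne_top ?_ this
    exact ENNReal.sum_ne_top.2 fun k _ => enorm_ne_top
  have h1 := hl_real (m + 1) (by omega) (fun x => ‖ps G M x‖) (fun x => (W x).toReal)
    hfc.norm.measurable (fun x => norm_nonneg _) hWm.ennreal_toReal
    (fun x => ENNReal.toReal_nonneg) (fun x t ht hx => ?_)
  · have h2 : ∀ x, ⨆ k ∈ Finset.range N, ‖avg (δ k) (ps G M) x‖ₑ ^ 2
        ≤ ENNReal.ofReal ((W x).toReal ^ 2) := by
      intro x
      rw [ENNReal.ofReal_pow ENNReal.toReal_nonneg, ENNReal.ofReal_toReal (hWt x)]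
      refine iSup₂_le fun k hk => ?_
      exact pow_le_pow_left' (le_iSup₂ (f := fun k (_ : k ∈ Finset.range N) =>
        ‖avg (δ k) (ps G M) x‖ₑ) k hk) 2
    refine (lintegral_mono h2).trans (h1.trans ?_)
    refine mul_le_mul_right ?_ _
    calc ∫⁻ x, ENNReal.ofReal (‖ps G M x‖ ^ 2) = ∫⁻ x, ‖ps G M x‖ₑ ^ 2 := by
          refine lintegral_congr fun x => ?_
          rw [ENNReal.ofReal_pow (norm_nonneg _), ofReal_norm]
      _ = ∫⁻ x, ‖Fi ((shell (m + 1) 0 M).indicator G) x‖ₑ ^ 2 := by rw [ps_fun]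
      _ ≤ ∫⁻ ξ in shell (m + 1) 0 M, ‖G ξ‖ₑ ^ 2 :=
          piece_l2 hG (shell_meas _ _ _) (shell_finite _ _ _)
      _ ≤ _ := lintegral_mono' Measure.restrict_le_self le_rfl
  · have hx' : ENNReal.ofReal t < W x := by
      rw [ENNReal.ofReal_lt_iff_lt_toReal ht.le (hWt x)]; exact hx
    rw [hW] at hx'
    simp only [lt_iSup_iff] at hx'
    obtain ⟨k, hk, hkt⟩ := hx'
    refine ⟨δ k, hδ k, ?_⟩
    have hV := Vb_pos (n := m + 1) (hδ k)
    have e1 : volume (Metric.ball x (δ k)) = ENNReal.ofReal (Vb (m + 1) (δ k)) := by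
      rw [← Measure.addHaar_closedBall_eq_addHaar_ball, ← Vb_center x, measureReal_def,
        ENNReal.ofReal_toReal measure_closedBall_lt_top.ne]
    have e2 : ‖avg (δ k) (ps G M) x‖ₑ ≤ ENNReal.ofReal (Vb (m + 1) (δ k))⁻¹ *
        ∫⁻ y in Metric.closedBall x (δ k), ‖ps G M y‖ₑ := by
      rw [avg, enorm_smul]
      refine mul_le_mul' (le_of_eq ?_) (enorm_integral_le_lintegral_enorm _)
      rw [Real.enorm_eq_ofReal (inv_pos.2 hV).le]
    have e3 : ∫⁻ y in Metric.closedBall x (δ k), ‖ps G M y‖ₑ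
        = ∫⁻ y in Metric.ball x (δ k), ENNReal.ofReal ‖ps G M y‖ := by
      have hb : (Metric.closedBall x (δ k) : Set (En (m + 1))) =ᵐ[volume] Metric.ball x (δ k) := by
        have h2 : Metric.ball x (δ k) = Metric.closedBall x (δ k) \ Metric.sphere x (δ k) := by
          ext ξ
          simp only [Metric.mem_ball, Set.mem_sdiff, Metric.mem_closedBall, Metric.mem_sphere]
          constructor
          · intro h; exact ⟨h.le, h.ne⟩
          · rintro ⟨h, h'⟩; exact lt_of_le_of_ne h h'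
        rw [h2]
        exact (sdiff_null_ae_eq_self (Measure.addHaar_sphere volume x (δ k))).symm
      rw [setLIntegral_congr hb]
      refine lintegral_congr fun y => ?_
      rw [ofReal_norm]
    rw [← e3, e1]
    calc ENNReal.ofReal t * ENNReal.ofReal (Vb (m + 1) (δ k))
        ≤ (ENNReal.ofReal (Vb (m + 1) (δ k))⁻¹ *
          ∫⁻ y in Metric.closedBall x (δ k), ‖ps G M y‖ₑ) * ENNReal.ofReal (Vb (m + 1) (δ k)) :=
          mul_le_mul_left (hkt.le.trans e2) _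
      _ = (ENNReal.ofReal (Vb (m + 1) (δ k))⁻¹ * ENNReal.ofReal (Vb (m + 1) (δ k))) *
          ∫⁻ y in Metric.closedBall x (δ k), ‖ps G M y‖ₑ := by ring
      _ = _ := by
          rw [← ENNReal.ofReal_mul (inv_pos.2 hV).le, inv_mul_cancel₀ hV.ne', ENNReal.ofReal_one,
            one_mul]

/-- constant of the lacunary maximal function -/
noncomputable def cL (m : ℕ) : ℝ≥0∞ := 2 * (cS m + 8 * 4 ^ (m + 1))

lemma avg_meas (hG : MemLp G 2) {δ : ℝ} (hδ : 0 < δ) (M : ℝ) :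
    Measurable (fun x => avg δ (ps G M) x) := by
  have hHi : Integrable ((shell (m + 1) 0 M).indicator G) := ind_int hG _ _
  have : avg δ (ps G M) = Fi (fun ξ => mlt δ ξ * (shell (m + 1) 0 M).indicator G ξ) := by
    rw [ps_fun]; exact funext fun x => avg_Fi _ hHi x
  rw [this]
  exact (Fi_cont (mlt_int hδ hHi)).measurable

/-- **the lacunary maximal function** -/
theorem lac (hG : MemLp G 2) {T₀ : ℝ} (hT : 0 < T₀) (N : ℕ) :
    ∫⁻ x, ⨆ k ∈ Finset.range N, ‖ps G (T₀ * 2 ^ k) x‖ₑ ^ 2 ≤ cL m * ∫⁻ ξ, ‖G ξ‖ₑ ^ 2 := by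
  set M : ℝ := T₀ * 2 ^ N with hM
  have hT' : ∀ k : ℕ, 0 < T₀ * 2 ^ k := fun k => by positivity
  have hδ : ∀ k : ℕ, 0 < 1 / (T₀ * 2 ^ k) := fun k => one_div_pos.2 (hT' k)
  have h1 := sq_fun hG hT N (M := M) fun k hk => by
    rw [hM]
    exact mul_le_mul_of_nonneg_left (pow_le_pow_right₀ (by norm_num) hk.le) hT.le
  have h2 := avg_max hG M N (fun k => 1 / (T₀ * 2 ^ k)) hδ
  have hm : ∀ k : ℕ, Measurable fun x => ‖ps G (T₀ * 2 ^ k) x
      - avg (1 / (T₀ * 2 ^ k)) (ps G M) x‖ₑ ^ 2 := fun k =>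
    (((ps_cont_x hG _).measurable.sub (avg_meas hG (hδ k) M)).enorm).pow_const 2
  have hpt : ∀ x, ⨆ k ∈ Finset.range N, ‖ps G (T₀ * 2 ^ k) x‖ₑ ^ 2 ≤
      2 * ((∑ k ∈ Finset.range N, ‖ps G (T₀ * 2 ^ k) x
        - avg (1 / (T₀ * 2 ^ k)) (ps G M) x‖ₑ ^ 2) +
        ⨆ k ∈ Finset.range N, ‖avg (1 / (T₀ * 2 ^ k)) (ps G M) x‖ₑ ^ 2) := by
    intro x
    refine iSup₂_le fun k hk => ?_
    have e : ps G (T₀ * 2 ^ k) x = (ps G (T₀ * 2 ^ k) x
        - avg (1 / (T₀ * 2 ^ k)) (ps G M) x) + avg (1 / (T₀ * 2 ^ k)) (ps G M) x := by ring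
    calc ‖ps G (T₀ * 2 ^ k) x‖ₑ ^ 2 = ‖(ps G (T₀ * 2 ^ k) x
        - avg (1 / (T₀ * 2 ^ k)) (ps G M) x) + avg (1 / (T₀ * 2 ^ k)) (ps G M) x‖ₑ ^ 2 := by
          rw [← e]
      _ ≤ _ := enorm_add_sq_le _ _
      _ ≤ _ := by
          refine mul_le_mul_right (add_le_add ?_ ?_) _
          · exact Finset.single_le_sum (f := fun k => ‖ps G (T₀ * 2 ^ k) x
              - avg (1 / (T₀ * 2 ^ k)) (ps G M) x‖ₑ ^ 2) (fun _ _ => zero_le) hk
          · exact le_iSup₂ (f := fun k (_ : k ∈ Finset.range N) =>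
              ‖avg (1 / (T₀ * 2 ^ k)) (ps G M) x‖ₑ ^ 2) k hk
  refine (lintegral_mono hpt).trans ?_
  rw [lintegral_const_mul' _ _ (by simp), lintegral_add_left
    (Finset.measurable_fun_sum _ fun k _ => hm k), lintegral_finsetSum _ fun k _ => hm k]
  unfold cL
  calc _ ≤ 2 * (cS m * (∫⁻ ξ, ‖G ξ‖ₑ ^ 2) + 8 * 4 ^ (m + 1) * ∫⁻ ξ, ‖G ξ‖ₑ ^ 2) := by
        gcongr
    _ = _ := by ring

/-- **the lacunary maximal function**, all dyadic radii -/
theorem lacZ (hG : MemLp G 2) :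
    ∫⁻ x, ⨆ k : ℤ, ‖ps G ((2 : ℝ) ^ k) x‖ₑ ^ 2 ≤ cL m * ∫⁻ ξ, ‖G ξ‖ₑ ^ 2 := by
  set f : ℕ → En (m + 1) → ℝ≥0∞ := fun j x =>
    ⨆ k : ℤ, ⨆ _ : k.natAbs ≤ j, ‖ps G ((2 : ℝ) ^ k) x‖ₑ ^ 2 with hf
  have hfm : ∀ j, Measurable (f j) := fun j => by
    refine Measurable.iSup fun k => Measurable.iSup fun _ => ?_
    exact (ps_cont_x hG _).enorm.measurable.pow_const 2
  have hmono : Monotone f := by
    intro i j hij x
    refine iSup₂_le fun k hk => ?_
    exact le_iSup₂_of_le (f := fun (k : ℤ) (_ : k.natAbs ≤ j) => ‖ps G ((2 : ℝ) ^ k) x‖ₑ ^ 2) k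
      (hk.trans hij) le_rfl
  have h1 : ∀ x, ⨆ k : ℤ, ‖ps G ((2 : ℝ) ^ k) x‖ₑ ^ 2 = ⨆ j, f j x := by
    intro x
    refine le_antisymm (iSup_le fun k => ?_) (iSup_le fun j => iSup₂_le fun k _ => ?_)
    · refine le_iSup_of_le k.natAbs ?_
      exact le_iSup₂_of_le (f := fun (k' : ℤ) (_ : k'.natAbs ≤ k.natAbs) =>
        ‖ps G ((2 : ℝ) ^ k') x‖ₑ ^ 2) k le_rfl le_rfl
    · exact le_iSup (fun k : ℤ => ‖ps G ((2 : ℝ) ^ k) x‖ₑ ^ 2) k
  simp_rw [h1]
  rw [lintegral_iSup hfm hmono]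
  refine iSup_le fun j => ?_
  refine le_trans (lintegral_mono fun x => ?_) (lac hG (T₀ := (2 : ℝ) ^ (-(j : ℤ)))
    (by positivity) (2 * j + 1))
  refine iSup₂_le fun k hk => ?_
  have e : ((2 : ℝ) ^ (-(j : ℤ))) * 2 ^ ((k + j).toNat) = 2 ^ k := by
    rw [← zpow_natCast, ← zpow_add₀ (by norm_num)]
    congr 1
    omega
  have := le_iSup₂ (f := fun i (_ : i ∈ Finset.range (2 * j + 1)) =>
    ‖ps G ((2 : ℝ) ^ (-(j : ℤ)) * 2 ^ i) x‖ₑ ^ 2) ((k + j).toNat)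
    (Finset.mem_range.2 (by omega))
  rw [e] at this
  exact this

end Pool.Agent.Helper854_SP
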