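import Mathlib
import Pool.Agent.Helper854_SP.Lac

/-! The maximal inequality for ball partial sums, frequencies and radii in thin sets. -/

set_option autoImplicit false

open MeasureTheory Real Set Filter Topology
open scoped ENNReal NNReal RealInnerProductSpace

namespace Pool.Agent.Helper854_SP

open Pool.Agent.Helper93.Sph

variable {m : ℕ} {A : Set ℝ} {G : En (m + 1) → ℂ}

/-- number of cells hit in a dyadic block -/
noncomputable def Nk (A E : Set ℝ) (ρ : ℝ) (k : ℤ) : ℕ :=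
  (cells A E ρ ((2 : ℝ) ^ k) ((2 : ℝ) ^ (k + 1))).ncard

/-- constant of a block -/
noncomputable def cB (m : ℕ) : ℝ≥0∞ := 8 + 2 * ((Km m : ℝ≥0∞) + 4) ^ 2

lemma clog_log (N : ℕ) : ((Nat.clog 2 N : ℕ) : ℝ) + 1 ≤ 2 * (1 + Real.log N) := by
  rcases Nat.lt_or_ge N 2 with h | h
  · have h1 : Nat.clog 2 N = 0 := Nat.clog_of_right_le_one (by omega) _
    rw [h1]
    have h2 : 0 ≤ Real.log N := by
      interval_cases N <;> simp
    push_cast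
    linarith
  · have h1 : 2 ^ (Nat.clog 2 N - 1) < N := by
      have := Nat.pow_pred_clog_lt_self (b := 2) (by norm_num) (x := N) (by omega)
      simpa using this
    have h2 : 1 ≤ Nat.clog 2 N := Nat.clog_pos (by norm_num) (by omega)
    have h3 : ((2 : ℝ) ^ (Nat.clog 2 N - 1)) < N := by exact_mod_cast h1
    have h4 : ((Nat.clog 2 N - 1 : ℕ) : ℝ) * Real.log 2 ≤ Real.log N := by
      rw [← Real.log_pow]
      exact Real.log_le_log (by positivity) h3.le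
    have h5 : ((Nat.clog 2 N - 1 : ℕ) : ℝ) = (Nat.clog 2 N : ℝ) - 1 := by
      rw [Nat.cast_sub h2]; simp
    rw [h5] at h4
    have h6 := Real.log_two_gt_d9
    have h7 : (0 : ℝ) ≤ (Nat.clog 2 N : ℝ) - 1 := by
      have : (1 : ℝ) ≤ (Nat.clog 2 N : ℝ) := by exact_mod_cast h2
      linarith
    nlinarith

lemma const_le (m N : ℕ) :
    (2 * (((Nat.clog 2 N : ℕ) : ℝ≥0∞) + 1) ^ 2 + 2 * ((Km m : ℝ≥0∞) + 4) ^ 2)
      ≤ cB m * ENNReal.ofReal ((1 + Real.log N) ^ 2) := by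
  have h0 : 0 ≤ Real.log N := Real.log_natCast_nonneg N
  have h1 : (((Nat.clog 2 N : ℕ) : ℝ≥0∞) + 1) ≤ ENNReal.ofReal (2 * (1 + Real.log N)) := by
    rw [show (((Nat.clog 2 N : ℕ) : ℝ≥0∞) + 1) = ENNReal.ofReal ((Nat.clog 2 N : ℕ) + 1) by
      rw [ENNReal.ofReal_add (by positivity) (by norm_num)]; simp]
    exact ENNReal.ofReal_le_ofReal (clog_log N)
  have h2 : 1 ≤ ENNReal.ofReal ((1 + Real.log N) ^ 2) := by
    rw [← ENNReal.ofReal_one]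
    refine ENNReal.ofReal_le_ofReal ?_
    nlinarith
  rw [cB, add_mul]
  refine add_le_add ?_ (le_mul_of_one_le_right' h2)
  calc 2 * (((Nat.clog 2 N : ℕ) : ℝ≥0∞) + 1) ^ 2
      ≤ 2 * (ENNReal.ofReal (2 * (1 + Real.log N))) ^ 2 := by gcongr
    _ = 8 * ENNReal.ofReal ((1 + Real.log N) ^ 2) := by
        rw [ENNReal.ofReal_mul (by norm_num), mul_pow, ENNReal.ofReal_pow (by positivity),
          ← mul_assoc]
        congr 1
        norm_num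

/-- a dyadic block -/
theorem block_dy (hA : MeasurableSet A) (hG : MemLp G 2) (hs : Supp A G) (E : Set ℝ)
    (x₀ : En (m + 1)) {ρ : ℝ} (hρ : 0 < ρ) (k : ℤ) :
    ∫⁻ x in Metric.closedBall x₀ ρ, ⨆ R ∈ E ∩ Ico ((2 : ℝ) ^ k) ((2 : ℝ) ^ (k + 1)),
        ‖ps G R x - ps G ((2 : ℝ) ^ k) x‖ₑ ^ 2
      ≤ cB m * (ENNReal.ofReal ((1 + Real.log (Nk A E ρ k)) ^ 2) *
        lam G (Ico ((2 : ℝ) ^ k) ((2 : ℝ) ^ (k + 1)))) := by
  have h1 := block_E hA hG hs E (r := (2 : ℝ) ^ k) (s := (2 : ℝ) ^ (k + 1)) (by positivity)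
    (by rw [zpow_add_one₀ (by norm_num)]; have : (0 : ℝ) < 2 ^ k := by positivity
        linarith) x₀ hρ (Nat.clog 2 (Nk A E ρ k)) (Nat.le_pow_clog (by norm_num) _)
  refine h1.trans ?_
  rw [← mul_assoc]
  exact mul_le_mul_left (const_le m _) _

lemma lam_total (G : En (m + 1) → ℂ) :
    ∫⁻ ξ, ‖G ξ‖ₑ ^ 2 ≤ ∑' k : ℤ, lam G (Ico ((2 : ℝ) ^ k) ((2 : ℝ) ^ (k + 1))) := by
  have h1 : (univ : Set (En (m + 1))) ⊆
      {0} ∪ ⋃ k : ℤ, rad (m + 1) (Ico ((2 : ℝ) ^ k) ((2 : ℝ) ^ (k + 1))) := by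
    intro ξ _
    by_cases h : ξ = 0
    · exact Or.inl h
    · right
      obtain ⟨k, hk⟩ := exists_mem_Ico_zpow (norm_pos_iff.2 h) (by norm_num : (1 : ℝ) < 2)
      exact mem_iUnion.2 ⟨k, hk⟩
  rw [← setLIntegral_univ]
  refine (lintegral_mono_set h1).trans ((lintegral_union_le _ _ _).trans ?_)
  have h2 : ∫⁻ ξ in ({0} : Set (En (m + 1))), ‖G ξ‖ₑ ^ 2 = 0 :=
    setLIntegral_measure_zero _ _ (measure_singleton _)
  rw [h2, zero_add]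
  refine (lintegral_iUnion_le _ _).trans ?_
  refine ENNReal.tsum_le_tsum fun k => ?_
  rw [lam_apply G measurableSet_Ico]

lemma lam_sumZ (G : En (m + 1) → ℂ) :
    ∑' k : ℤ, lam G (Ico ((2 : ℝ) ^ k) ((2 : ℝ) ^ (k + 1))) ≤ ∫⁻ ξ, ‖G ξ‖ₑ ^ 2 := by
  rw [← measure_iUnion ?_ fun k => measurableSet_Ico]
  · exact lam_le G _
  · intro i j hij
    rw [Function.onFun, Set.disjoint_left]
    rintro t ⟨h1, h2⟩ ⟨h3, h4⟩
    rcases lt_or_gt_of_ne hij with h | h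
    · have : (2 : ℝ) ^ (i + 1) ≤ 2 ^ j := zpow_le_zpow_right₀ (by norm_num) (by omega)
      linarith
    · have : (2 : ℝ) ^ (j + 1) ≤ 2 ^ i := zpow_le_zpow_right₀ (by norm_num) (by omega)
      linarith

lemma ps_nonpos (G : En (m + 1) → ℂ) {R : ℝ} (hR : R ≤ 0) (x : En (m + 1)) : ps G R x = 0 := by
  rw [ps_eq, Fi]
  have : shell (m + 1) 0 R = ∅ := by
    ext ξ
    simp only [shell, mem_ofPred_eq, mem_empty_iff_false, iff_false, not_and, not_lt]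
    intro h; exact hR.trans h
  rw [this]; simp

/-- constant of the maximal inequality -/
noncomputable def cM (m : ℕ) : ℝ≥0∞ := 2 * (cB m + cL m)

lemma cS_ne_top (m : ℕ) : cS m ≠ ⊤ := ENNReal.ofReal_ne_top

lemma cL_ne_top (m : ℕ) : cL m ≠ ⊤ := by
  unfold cL
  refine ENNReal.mul_ne_top (by simp) (ENNReal.add_ne_top.2 ⟨cS_ne_top m, ?_⟩)
  exact ENNReal.mul_ne_top (by simp) (ENNReal.pow_ne_top (by simp))

lemma cB_ne_top (m : ℕ) : cB m ≠ ⊤ := by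
  unfold cB
  refine ENNReal.add_ne_top.2 ⟨by simp, ENNReal.mul_ne_top (by simp) (ENNReal.pow_ne_top ?_)⟩
  exact ENNReal.add_ne_top.2 ⟨by simp, by simp⟩

lemma cM_ne_top (m : ℕ) : cM m ≠ ⊤ :=
  ENNReal.mul_ne_top (by simp) (ENNReal.add_ne_top.2 ⟨cB_ne_top m, cL_ne_top m⟩)

/-- **the maximal inequality** -/
theorem main_max (hA : MeasurableSet A) (hG : MemLp G 2) (hs : Supp A G) (E : Set ℝ)
    (x₀ : En (m + 1)) {ρ : ℝ} (hρ : 0 < ρ) :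
    ∫⁻ x in Metric.closedBall x₀ ρ, ⨆ R ∈ E, ‖ps G R x‖ₑ ^ 2
      ≤ cM m * ∑' k : ℤ, ENNReal.ofReal ((1 + Real.log (Nk A E ρ k)) ^ 2) *
        lam G (Ico ((2 : ℝ) ^ k) ((2 : ℝ) ^ (k + 1))) := by
  set U : ℤ → En (m + 1) → ℝ≥0∞ := fun k x =>
    ⨆ R ∈ E ∩ Ico ((2 : ℝ) ^ k) ((2 : ℝ) ^ (k + 1)), ‖ps G R x - ps G ((2 : ℝ) ^ k) x‖ₑ ^ 2 with hU
  have hUm : ∀ k, Measurable (U k) := fun k => sup_meas hG _ _
  set L : En (m + 1) → ℝ≥0∞ := fun x => ⨆ k : ℤ, ‖ps G ((2 : ℝ) ^ k) x‖ₑ ^ 2 with hL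
  have hLm : Measurable L := Measurable.iSup fun k =>
    (ps_cont_x hG _).enorm.measurable.pow_const 2
  have hpt : ∀ x, ⨆ R ∈ E, ‖ps G R x‖ₑ ^ 2 ≤ 2 * ((∑' k, U k x) + L x) := by
    intro x
    refine iSup₂_le fun R hR => ?_
    rcases le_or_gt R 0 with h | h
    · rw [ps_nonpos G h]; simp
    · obtain ⟨k, hk⟩ := exists_mem_Ico_zpow h (by norm_num : (1 : ℝ) < 2)
      have e : ps G R x = (ps G R x - ps G ((2 : ℝ) ^ k) x) + ps G ((2 : ℝ) ^ k) x := by ring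
      rw [e]
      refine (enorm_add_sq_le _ _).trans (mul_le_mul_right (add_le_add ?_ ?_) _)
      · refine le_trans ?_ (ENNReal.le_tsum k)
        exact le_iSup₂ (f := fun R (_ : R ∈ E ∩ Ico ((2 : ℝ) ^ k) ((2 : ℝ) ^ (k + 1))) =>
          ‖ps G R x - ps G ((2 : ℝ) ^ k) x‖ₑ ^ 2) R ⟨hR, hk⟩
      · exact le_iSup (fun k : ℤ => ‖ps G ((2 : ℝ) ^ k) x‖ₑ ^ 2) k
  set Q : ℝ≥0∞ := ∑' k : ℤ, ENNReal.ofReal ((1 + Real.log (Nk A E ρ k)) ^ 2) *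
        lam G (Ico ((2 : ℝ) ^ k) ((2 : ℝ) ^ (k + 1))) with hQ
  have hlow : ∫⁻ ξ, ‖G ξ‖ₑ ^ 2 ≤ Q := by
    refine (lam_total G).trans (ENNReal.tsum_le_tsum fun k => ?_)
    refine le_mul_of_one_le_left' ?_
    rw [← ENNReal.ofReal_one]
    refine ENNReal.ofReal_le_ofReal ?_
    have h0 : 0 ≤ Real.log (Nk A E ρ k) := Real.log_natCast_nonneg _
    nlinarith
  calc ∫⁻ x in Metric.closedBall x₀ ρ, ⨆ R ∈ E, ‖ps G R x‖ₑ ^ 2
      ≤ ∫⁻ x in Metric.closedBall x₀ ρ, 2 * ((∑' k, U k x) + L x) := lintegral_mono hpt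
    _ = 2 * ((∑' k, ∫⁻ x in Metric.closedBall x₀ ρ, U k x)
          + ∫⁻ x in Metric.closedBall x₀ ρ, L x) := by
        rw [lintegral_const_mul' _ _ (by simp), lintegral_add_right _ hLm,
          lintegral_tsum fun k => (hUm k).aemeasurable]
    _ ≤ 2 * (cB m * Q + cL m * Q) := by
        gcongr
        · rw [hQ, ← ENNReal.tsum_mul_left]
          exact ENNReal.tsum_le_tsum fun k => block_dy hA hG hs E x₀ hρ k
        · refine (lintegral_mono' Measure.restrict_le_self le_rfl).trans ?_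
          refine (lacZ hG).trans ?_
          gcongr
    _ = _ := by rw [cM]; ring

lemma Nk_le {A E : Set ℝ} {ρ : ℝ} (hρ : 0 < ρ) {a : ℝ} (ha : 0 ≤ a) (k : ℤ)
    (h : volume (A ∩ Ico ((2 : ℝ) ^ k) ((2 : ℝ) ^ (k + 1))) ≤ ENNReal.ofReal a) :
    (Nk A E ρ k : ℝ) ≤ 1 + ρ * a := by
  have h1 : Nk A E ρ k ≤ ⌊ρ * Mf A ((2 : ℝ) ^ k) ((2 : ℝ) ^ (k + 1))⌋₊ + 1 := by
    unfold Nk
    refine (Set.ncard_le_ncard (cells_sub hρ) (Finset.finite_toSet _)).trans ?_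
    rw [Set.ncard_coe_finset, Finset.card_range]
  have h2 : Mf A ((2 : ℝ) ^ k) ((2 : ℝ) ^ (k + 1)) ≤ a :=
    ENNReal.toReal_le_of_le_ofReal ha h
  have h3 : ((⌊ρ * Mf A ((2 : ℝ) ^ k) ((2 : ℝ) ^ (k + 1))⌋₊ : ℕ) : ℝ) ≤
      ρ * Mf A ((2 : ℝ) ^ k) ((2 : ℝ) ^ (k + 1)) :=
    Nat.floor_le (mul_nonneg hρ.le (Mf_nonneg _ _ _))
  have h4 : (Nk A E ρ k : ℝ) ≤ ((⌊ρ * Mf A ((2 : ℝ) ^ k) ((2 : ℝ) ^ (k + 1))⌋₊ : ℕ) : ℝ) + 1 := by
    exact_mod_cast h1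
  nlinarith

/-- **spectrum of bounded measure in every dyadic block** -/
theorem thin_max (hA : MeasurableSet A) (hG : MemLp G 2) (hs : Supp A G) {a : ℝ} (ha : 0 ≤ a)
    (hAa : ∀ k : ℤ, volume (A ∩ Ico ((2 : ℝ) ^ k) ((2 : ℝ) ^ (k + 1))) ≤ ENNReal.ofReal a)
    (x₀ : En (m + 1)) {ρ : ℝ} (hρ : 0 < ρ) :
    ∫⁻ x in Metric.closedBall x₀ ρ, ⨆ R : ℝ, ‖ps G R x‖ₑ ^ 2
      ≤ cM m * (ENNReal.ofReal ((1 + Real.log (1 + ρ * a)) ^ 2) * ∫⁻ ξ, ‖G ξ‖ₑ ^ 2) := by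
  have h1 := main_max hA hG hs univ x₀ hρ
  simp only [mem_univ, iSup_pos] at h1
  refine h1.trans (mul_le_mul_right ?_ _)
  refine le_trans ?_ (mul_le_mul_right (lam_sumZ G) _)
  rw [← ENNReal.tsum_mul_left]
  refine ENNReal.tsum_le_tsum fun k => mul_le_mul_left (ENNReal.ofReal_le_ofReal ?_) _
  have h2 := Nk_le (E := univ) hρ ha k (hAa k)
  have h0 : 0 ≤ Real.log (Nk A univ ρ k) := Real.log_natCast_nonneg _
  have h3 : Real.log (Nk A univ ρ k) ≤ Real.log (1 + ρ * a) := by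
    rcases Nat.eq_zero_or_pos (Nk A univ ρ k) with h | h
    · rw [h]
      simp only [Nat.cast_zero, Real.log_zero]
      exact Real.log_nonneg (by nlinarith)
    · exact Real.log_le_log (by exact_mod_cast h) h2
  gcongr

end Pool.Agent.Helper854_SP
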