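import Mathlib
import Pool.Agent.Helper854_SP.Main

/-! Almost everywhere convergence. -/

set_option autoImplicit false

open MeasureTheory Real Set Filter Topology
open scoped ENNReal NNReal RealInnerProductSpace

namespace Pool.Agent.Helper854_SP

open Pool.Agent.Helper93.Sph

variable {m : ℕ} {A : Set ℝ} {G : En (m + 1) → ℂ}

lemma eLp2 {α : Type*} [MeasurableSpace α] {μ : Measure α} (f : α → ℂ) :
    eLpNorm f 2 μ = (∫⁻ x, ‖f x‖ₑ ^ 2 ∂μ) ^ (1 / 2 : ℝ) := by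
  rw [eLpNorm_eq_lintegral_rpow_enorm_toReal (by norm_num) (by norm_num)]
  simp

lemma ps_l2 (hG : MemLp G 2) (R : ℝ) : ∫⁻ x, ‖ps G R x‖ₑ ^ 2 ≤ ∫⁻ ξ, ‖G ξ‖ₑ ^ 2 := by
  rw [ps_fun]
  refine (piece_l2 hG (shell_meas _ _ _) (shell_finite _ _ _)).trans ?_
  exact lintegral_mono' Measure.restrict_le_self le_rfl

lemma ps_memLp (hG : MemLp G 2) (R : ℝ) : MemLp (ps G R) 2 := by
  refine ⟨(ps_cont_x hG R).aestronglyMeasurable, ?_⟩
  rw [eLp2]
  refine ENNReal.rpow_lt_top_of_nonneg (by norm_num) ?_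
  exact ne_top_of_le_ne_top (sq_fin hG) (ps_l2 hG R)

lemma ps_tail (hG : MemLp G 2) {R S : ℝ} (hR : 0 ≤ R) (h : R ≤ S) :
    ∫⁻ x, ‖ps G S x - ps G R x‖ₑ ^ 2 ≤ lam G (Ici R) :=
  (incr_l2 hG hR h).trans (measure_mono Ico_subset_Ici_self)

lemma lam_tendsto (hG : MemLp G 2) : Tendsto (fun R : ℝ => lam G (Ici R)) atTop (𝓝 0) := by
  have h := tendsto_measure_iInter_atTop (μ := lam G) (s := fun R : ℝ => Ici R)
    (fun R => measurableSet_Ici.nullMeasurableSet) (fun a b hab => Ici_subset_Ici.2 hab)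
    ⟨0, ne_top_of_le_ne_top (sq_fin hG) (lam_le G _)⟩
  have h2 : ⋂ R : ℝ, Ici R = ∅ := by
    ext t
    simp only [mem_iInter, mem_Ici, mem_empty_iff_false, iff_false, not_forall, not_le]
    exact ⟨t + 1, by linarith⟩
  rw [h2, measure_empty] at h
  exact h

/-- the limit in `L²` -/
theorem exists_lim (hG : MemLp G 2) : ∃ f : En (m + 1) → ℂ, MemLp f 2 ∧
    ∀ R : ℝ, 0 ≤ R → ∫⁻ x, ‖ps G R x - f x‖ₑ ^ 2 ≤ 2 * lam G (Ici R) := by
  set u : ℕ → Lp ℂ 2 (volume : Measure (En (m + 1))) := fun N => (ps_memLp hG N).toLp with hu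
  have hed : ∀ n k N : ℕ, N ≤ n → N ≤ k →
      edist (u n) (u k) ≤ (lam G (Ici (N : ℝ))) ^ (1 / 2 : ℝ) := by
    have key : ∀ n k N : ℕ, N ≤ n → n ≤ k →
        edist (u k) (u n) ≤ (lam G (Ici (N : ℝ))) ^ (1 / 2 : ℝ) := by
      intro n k N h1 h2
      rw [hu]
      simp only
      rw [Lp.edist_toLp_toLp, eLp2]
      refine ENNReal.rpow_le_rpow ?_ (by norm_num)
      have h3 := ps_tail hG (R := n) (S := k) (Nat.cast_nonneg n) (by exact_mod_cast h2)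
      refine le_trans (le_of_eq ?_) (h3.trans (measure_mono (Ici_subset_Ici.2
        (by exact_mod_cast h1))))
      rfl
    intro n k N h1 h2
    rcases le_total n k with h | h
    · rw [edist_comm]; exact key n k N h1 h
    · exact key k n N h2 h
  have hb : Tendsto (fun N : ℕ => (lam G (Ici (N : ℝ))) ^ (1 / 2 : ℝ)) atTop (𝓝 0) := by
    have h1 := (lam_tendsto hG).comp tendsto_natCast_atTop_atTop
    have h2 := (ENNReal.continuous_rpow_const (y := (1 / 2 : ℝ))).tendsto 0 |>.comp h1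
    rw [ENNReal.zero_rpow_of_pos (by norm_num)] at h2
    exact h2
  have hc : CauchySeq u := by
    rw [EMetric.cauchySeq_iff_le_tendsto_0]
    exact ⟨_, hed, hb⟩
  obtain ⟨F, hF⟩ := cauchySeq_tendsto_of_complete hc
  refine ⟨F, Lp.memLp F, fun R hR => ?_⟩
  have h1 : Tendsto (fun N => edist (u N) F) atTop (𝓝 0) := tendsto_iff_edist_tendsto_0.1 hF
  have h2 : ∀ N : ℕ, ∫⁻ x, ‖ps G N x - F x‖ₑ ^ 2 = (edist (u N) F) ^ 2 := by
    intro N
    rw [Lp.edist_def, eLp2, ← ENNReal.rpow_natCast, ← ENNReal.rpow_mul]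
    norm_num
    refine lintegral_congr_ae ?_
    filter_upwards [(ps_memLp hG N).coeFn_toLp] with x hx
    rw [hx]
  have h3 : Tendsto (fun N : ℕ => 2 * (lam G (Ici R) + ∫⁻ x, ‖ps G N x - F x‖ₑ ^ 2)) atTop
      (𝓝 (2 * (lam G (Ici R) + 0))) := by
    refine ENNReal.Tendsto.const_mul (tendsto_const_nhds.add ?_) (Or.inr (by simp))
    simp_rw [h2]
    have := ((ENNReal.continuous_pow 2).tendsto 0).comp h1
    rw [zero_pow two_ne_zero] at this
    exact this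
  rw [add_zero] at h3
  refine ge_of_tendsto h3 ?_
  filter_upwards [eventually_ge_atTop ⌈R⌉₊] with N hN
  have hN' : R ≤ N := (Nat.le_ceil R).trans (by exact_mod_cast hN)
  have hm : Measurable fun x => ‖ps G R x - ps G N x‖ₑ ^ 2 :=
    ((ps_cont_x hG _).sub (ps_cont_x hG _)).enorm.measurable.pow_const 2
  calc ∫⁻ x, ‖ps G R x - F x‖ₑ ^ 2
      ≤ ∫⁻ x, 2 * (‖ps G R x - ps G N x‖ₑ ^ 2 + ‖ps G N x - F x‖ₑ ^ 2) := by
        refine lintegral_mono fun x => ?_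
        have e : ps G R x - F x = (ps G R x - ps G N x) + (ps G N x - F x) := by ring
        rw [e]
        exact enorm_add_sq_le _ _
    _ = 2 * ((∫⁻ x, ‖ps G R x - ps G N x‖ₑ ^ 2) + ∫⁻ x, ‖ps G N x - F x‖ₑ ^ 2) := by
        rw [lintegral_const_mul' _ _ (by simp), lintegral_add_left hm]
    _ ≤ _ := by
        refine mul_le_mul_right (add_le_add ?_ le_rfl) _
        have := ps_tail hG hR hN'
        refine le_trans (le_of_eq ?_) this
        refine lintegral_congr fun x => ?_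
        rw [← enorm_neg, neg_sub]

lemma loc_int {f : En (m + 1) → ℂ} (hf : MemLp f 2) (x : En (m + 1)) (δ : ℝ) :
    IntegrableOn f (Metric.closedBall x δ) := by
  have := fin_ball x δ
  exact (hf.restrict (Metric.closedBall x δ)).integrable (by norm_num)

lemma avg_sub {f g : En (m + 1) → ℂ} (hf : MemLp f 2) (hg : MemLp g 2) (δ : ℝ) (x : En (m + 1)) :
    avg δ f x - avg δ g x = avg δ (fun y => f y - g y) x := by
  rw [avg, avg, avg, ← smul_sub, integral_sub (loc_int hf x δ) (loc_int hg x δ)]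

lemma avg_tendsto (hG : MemLp G 2) {f : En (m + 1) → ℂ} (hf : MemLp f 2)
    (h : ∀ R : ℝ, 0 ≤ R → ∫⁻ x, ‖ps G R x - f x‖ₑ ^ 2 ≤ 2 * lam G (Ici R)) (δ : ℝ)
    (x : En (m + 1)) : Tendsto (fun N : ℕ => avg δ (ps G N) x) atTop (𝓝 (avg δ f x)) := by
  have := fin_ball x δ
  set c : ℝ≥0∞ := ‖((Vb (m + 1) δ)⁻¹ : ℝ)‖ₑ *
    (volume.restrict (Metric.closedBall x δ)) univ ^
      (1 / (1 : ℝ≥0∞).toReal - 1 / (2 : ℝ≥0∞).toReal) with hc
  have hct : c ≠ ⊤ := by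
    refine ENNReal.mul_ne_top enorm_ne_top (ENNReal.rpow_ne_top_of_nonneg (by norm_num) ?_)
    exact measure_ne_top _ _
  have h1 : ∀ N : ℕ, edist (avg δ (ps G N) x) (avg δ f x)
      ≤ c * (2 * lam G (Ici (N : ℝ))) ^ (1 / 2 : ℝ) := by
    intro N
    rw [edist_eq_enorm_sub, avg_sub (ps_memLp hG N) hf, avg, enorm_smul, hc, mul_assoc]
    refine mul_le_mul_right ?_ _
    have hm : AEStronglyMeasurable (fun y => ps G N y - f y)
        (volume.restrict (Metric.closedBall x δ)) :=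
      (((ps_memLp hG N).aestronglyMeasurable).sub hf.aestronglyMeasurable).restrict
    have h2 := eLpNorm_le_eLpNorm_mul_rpow_measure_univ (μ := volume.restrict
      (Metric.closedBall x δ)) (p := 1) (q := 2) (by norm_num) hm
    rw [eLpNorm_one_eq_lintegral_enorm] at h2
    refine (enorm_integral_le_lintegral_enorm _).trans (h2.trans ?_)
    rw [mul_comm]
    refine mul_le_mul_right ?_ _
    rw [eLp2]
    refine ENNReal.rpow_le_rpow ?_ (by norm_num)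
    exact (lintegral_mono' Measure.restrict_le_self le_rfl).trans (h N (Nat.cast_nonneg N))
  rw [tendsto_iff_edist_tendsto_0]
  refine tendsto_of_tendsto_of_tendsto_of_le_of_le tendsto_const_nhds ?_ (fun _ => zero_le) h1
  have h2 : Tendsto (fun N : ℕ => 2 * lam G (Ici (N : ℝ))) atTop (𝓝 (2 * 0)) :=
    ENNReal.Tendsto.const_mul ((lam_tendsto hG).comp tendsto_natCast_atTop_atTop)
      (Or.inr (by simp))
  rw [mul_zero] at h2
  have h3 := (ENNReal.continuous_rpow_const (y := (1 / 2 : ℝ))).tendsto 0 |>.comp h2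
  rw [ENNReal.zero_rpow_of_pos (by norm_num)] at h3
  have h4 := ENNReal.Tendsto.const_mul h3 (Or.inr hct)
  rw [mul_zero] at h4
  exact h4

lemma avg_lim_meas (hG : MemLp G 2) {f : En (m + 1) → ℂ} (hf : MemLp f 2)
    (h : ∀ R : ℝ, 0 ≤ R → ∫⁻ x, ‖ps G R x - f x‖ₑ ^ 2 ≤ 2 * lam G (Ici R)) {δ : ℝ} (hδ : 0 < δ) :
    Measurable (fun x => avg δ f x) :=
  measurable_of_tendsto_metrizable (fun N : ℕ => avg_meas hG hδ N)
    (tendsto_pi_nhds.2 fun x => avg_tendsto hG hf h δ x)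

/-- the difference with the averages is square summable -/
theorem diff_sum (hG : MemLp G 2) {f : En (m + 1) → ℂ} (hf : MemLp f 2)
    (h : ∀ R : ℝ, 0 ≤ R → ∫⁻ x, ‖ps G R x - f x‖ₑ ^ 2 ≤ 2 * lam G (Ici R)) :
    ∑' k : ℕ, ∫⁻ x, ‖ps G (1 * 2 ^ k) x - avg (1 / (1 * 2 ^ k)) f x‖ₑ ^ 2
      ≤ cS m * ∫⁻ ξ, ‖G ξ‖ₑ ^ 2 := by
  refine ENNReal.tsum_le_of_sum_range_le fun K => ?_
  have hp : ∀ k : ℕ, (0 : ℝ) < 1 / (1 * 2 ^ k) := fun k => by positivity
  have hmf : ∀ k : ℕ, Measurable fun x => ‖ps G (1 * 2 ^ k) x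
      - avg (1 / (1 * 2 ^ k)) f x‖ₑ ^ 2 := fun k =>
    (((ps_cont_x hG _).measurable.sub (avg_lim_meas hG hf h (hp k))).enorm).pow_const 2
  have hmN : ∀ (k N : ℕ), Measurable fun x => ‖ps G (1 * 2 ^ k) x
      - avg (1 / (1 * 2 ^ k)) (ps G N) x‖ₑ ^ 2 := fun k N =>
    (((ps_cont_x hG _).measurable.sub (avg_meas hG (hp k) N)).enorm).pow_const 2
  rw [← lintegral_finsetSum _ fun k _ => hmf k]
  have hlim : ∀ x, Tendsto (fun N : ℕ => ∑ k ∈ Finset.range K, ‖ps G (1 * 2 ^ k) x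
      - avg (1 / (1 * 2 ^ k)) (ps G N) x‖ₑ ^ 2) atTop
      (𝓝 (∑ k ∈ Finset.range K, ‖ps G (1 * 2 ^ k) x - avg (1 / (1 * 2 ^ k)) f x‖ₑ ^ 2)) := by
    intro x
    refine tendsto_finsetSum _ fun k _ => ?_
    refine ((ENNReal.continuous_pow 2).tendsto _).comp ((continuous_enorm.tendsto _).comp ?_)
    exact tendsto_const_nhds.sub (avg_tendsto hG hf h _ x)
  calc ∫⁻ x, ∑ k ∈ Finset.range K, ‖ps G (1 * 2 ^ k) x - avg (1 / (1 * 2 ^ k)) f x‖ₑ ^ 2
      = ∫⁻ x, liminf (fun N : ℕ => ∑ k ∈ Finset.range K, ‖ps G (1 * 2 ^ k) x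
          - avg (1 / (1 * 2 ^ k)) (ps G N) x‖ₑ ^ 2) atTop :=
        lintegral_congr fun x => (hlim x).liminf_eq.symm
    _ ≤ liminf (fun N : ℕ => ∫⁻ x, ∑ k ∈ Finset.range K, ‖ps G (1 * 2 ^ k) x
          - avg (1 / (1 * 2 ^ k)) (ps G N) x‖ₑ ^ 2) atTop :=
        lintegral_liminf_le fun N => Finset.measurable_fun_sum _ fun k _ => hmN k N
    _ ≤ cS m * ∫⁻ ξ, ‖G ξ‖ₑ ^ 2 := by
        refine liminf_le_of_frequently_le' (Eventually.frequently ?_)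
        filter_upwards [eventually_ge_atTop (2 ^ K)] with N hN
        rw [lintegral_finsetSum _ fun k _ => hmN k N]
        refine sq_fun hG one_pos K fun k hk => ?_
        rw [one_mul]
        have h1 : 2 ^ k ≤ N := (Nat.pow_le_pow_right (by norm_num) hk.le).trans hN
        exact_mod_cast h1

/-- **convergence along the dyadic radii** -/
theorem lac_conv (hG : MemLp G 2) {f : En (m + 1) → ℂ} (hf : MemLp f 2)
    (h : ∀ R : ℝ, 0 ≤ R → ∫⁻ x, ‖ps G R x - f x‖ₑ ^ 2 ≤ 2 * lam G (Ici R)) :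
    ∀ᵐ x : En (m + 1), Tendsto (fun k : ℕ => ps G (2 ^ k) x) atTop (𝓝 (f x)) := by
  have hp : ∀ k : ℕ, (0 : ℝ) < 1 / (1 * 2 ^ k) := fun k => by positivity
  have hmf : ∀ k : ℕ, Measurable fun x => ‖ps G (1 * 2 ^ k) x
      - avg (1 / (1 * 2 ^ k)) f x‖ₑ ^ 2 := fun k =>
    (((ps_cont_x hG _).measurable.sub (avg_lim_meas hG hf h (hp k))).enorm).pow_const 2
  have h1 : ∫⁻ x, ∑' k : ℕ, ‖ps G (1 * 2 ^ k) x - avg (1 / (1 * 2 ^ k)) f x‖ₑ ^ 2 ≠ ⊤ := by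
    rw [lintegral_tsum fun k => (hmf k).aemeasurable]
    exact ne_top_of_le_ne_top (ENNReal.mul_ne_top (cS_ne_top m) (sq_fin hG)) (diff_sum hG hf h)
  have h2 := ae_lt_top (Measurable.tsum hmf) h1
  have hloc : LocallyIntegrable f := hf.locallyIntegrable (by norm_num)
  have h3 := IsUnifLocDoublingMeasure.ae_tendsto_average (μ := (volume : Measure (En (m + 1))))
    hloc 1
  have hδ : Tendsto (fun k : ℕ => 1 / (1 * 2 ^ k : ℝ)) atTop (𝓝[>] 0) := by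
    rw [tendsto_nhdsWithin_iff]
    refine ⟨?_, Eventually.of_forall fun k => hp k⟩
    have : (fun k : ℕ => 1 / (1 * 2 ^ k : ℝ)) = fun k : ℕ => (1 / 2 : ℝ) ^ k := by
      funext k; rw [one_mul, one_div_pow]
    rw [this]
    exact tendsto_pow_atTop_nhds_zero_of_lt_one (by norm_num) (by norm_num)
  filter_upwards [h2, h3] with x hx1 hx2
  have h4 := hx2 (fun _ : ℕ => x) (fun k : ℕ => 1 / (1 * 2 ^ k : ℝ)) hδ
    (Eventually.of_forall fun k => by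
      rw [one_mul]
      exact Metric.mem_closedBall_self (hp k).le)
  have h5 := ENNReal.tendsto_atTop_zero_of_tsum_ne_top hx1.ne
  have h6 : Tendsto (fun k : ℕ => ps G (1 * 2 ^ k) x - avg (1 / (1 * 2 ^ k)) f x) atTop
      (𝓝 0) := by
    rw [tendsto_zero_iff_enorm_tendsto_zero]
    have h7 := (ENNReal.continuous_rpow_const (y := (1 / 2 : ℝ))).tendsto 0 |>.comp h5
    rw [ENNReal.zero_rpow_of_pos (by norm_num)] at h7
    refine h7.congr fun k => ?_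
    simp only [Function.comp]
    rw [← ENNReal.rpow_natCast, ← ENNReal.rpow_mul]
    norm_num
  have h8 := h6.add h4
  rw [zero_add] at h8
  refine h8.congr fun k => ?_
  rw [← avg_eq, one_mul]
  ring

/-- **convergence inside the blocks** -/
theorem block_conv (hA : MeasurableSet A) (hG : MemLp G 2) (hs : Supp A G) (E : Set ℝ)
    (hfin : ∑' k : ℕ, ENNReal.ofReal ((1 + Real.log (Nk A E 1 k)) ^ 2) *
        lam G (Ico ((2 : ℝ) ^ (k : ℤ)) ((2 : ℝ) ^ ((k : ℤ) + 1))) ≠ ⊤) :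
    ∀ᵐ x : En (m + 1), Tendsto (fun k : ℕ =>
      ⨆ R ∈ E ∩ Ico ((2 : ℝ) ^ (k : ℤ)) ((2 : ℝ) ^ ((k : ℤ) + 1)),
        ‖ps G R x - ps G ((2 : ℝ) ^ (k : ℤ)) x‖ₑ ^ 2) atTop (𝓝 0) := by
  set U : ℕ → En (m + 1) → ℝ≥0∞ := fun k x =>
    ⨆ R ∈ E ∩ Ico ((2 : ℝ) ^ (k : ℤ)) ((2 : ℝ) ^ ((k : ℤ) + 1)),
      ‖ps G R x - ps G ((2 : ℝ) ^ (k : ℤ)) x‖ₑ ^ 2 with hU
  have hUm : ∀ k, Measurable (U k) := fun k => sup_meas hG _ _
  have h1 : ∀ i : ℕ, ∀ᵐ x : En (m + 1),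
      x ∈ Metric.closedBall (TopologicalSpace.denseSeq (En (m + 1)) i) 1 → ∑' k, U k x < ⊤ := by
    intro i
    have h2 : ∫⁻ x in Metric.closedBall (TopologicalSpace.denseSeq (En (m + 1)) i) 1,
        ∑' k, U k x ≠ ⊤ := by
      rw [lintegral_tsum fun k => (hUm k).aemeasurable]
      refine ne_top_of_le_ne_top ?_ (ENNReal.tsum_le_tsum fun k =>
        block_dy hA hG hs E (TopologicalSpace.denseSeq (En (m + 1)) i) one_pos (k : ℤ))
      rw [ENNReal.tsum_mul_left]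
      exact ENNReal.mul_ne_top (cB_ne_top m) hfin
    have h3 := ae_lt_top (Measurable.tsum hUm) h2
    rwa [ae_restrict_iff' Metric.isClosed_closedBall.measurableSet] at h3
  filter_upwards [ae_all_iff.2 h1] with x hx
  obtain ⟨i, hi⟩ := (TopologicalSpace.denseRange_denseSeq (En (m + 1))).exists_dist_lt x one_pos
  exact ENNReal.tendsto_atTop_zero_of_tsum_ne_top (hx i (by
    rw [Metric.mem_closedBall]; exact hi.le)).ne

/-- **almost everywhere convergence** -/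
theorem main_conv (hA : MeasurableSet A) (hG : MemLp G 2) (hs : Supp A G) (E : Set ℝ)
    (hfin : ∑' k : ℕ, ENNReal.ofReal ((1 + Real.log (Nk A E 1 k)) ^ 2) *
        lam G (Ico ((2 : ℝ) ^ (k : ℤ)) ((2 : ℝ) ^ ((k : ℤ) + 1))) ≠ ⊤)
    {f : En (m + 1) → ℂ} (hf : MemLp f 2)
    (h : ∀ R : ℝ, 0 ≤ R → ∫⁻ x, ‖ps G R x - f x‖ₑ ^ 2 ≤ 2 * lam G (Ici R)) :
    ∀ᵐ x : En (m + 1), Tendsto (fun R : ℝ => ps G R x) (atTop ⊓ 𝓟 E) (𝓝 (f x)) := by
  filter_upwards [lac_conv hG hf h, block_conv hA hG hs E hfin] with x h1 h2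
  rw [Metric.tendsto_nhds]
  intro ε hε
  have h3 : ∀ᶠ k : ℕ in atTop, dist (ps G (2 ^ k) x) (f x) < ε / 2 :=
    (Metric.tendsto_nhds.1 h1) _ (half_pos hε)
  have h4 : ∀ᶠ k : ℕ in atTop, (⨆ R ∈ E ∩ Ico ((2 : ℝ) ^ (k : ℤ)) ((2 : ℝ) ^ ((k : ℤ) + 1)),
        ‖ps G R x - ps G ((2 : ℝ) ^ (k : ℤ)) x‖ₑ ^ 2) < ENNReal.ofReal ((ε / 2) ^ 2) :=
    (tendsto_order.1 h2).2 _ (ENNReal.ofReal_pos.2 (by positivity))
  obtain ⟨K, hK⟩ := eventually_atTop.1 (h3.and h4)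
  rw [eventually_inf_principal]
  filter_upwards [eventually_ge_atTop ((2 : ℝ) ^ K)] with R hR hRE
  have hR1 : 1 ≤ R := (one_le_pow₀ (by norm_num)).trans hR
  obtain ⟨k, hk1, hk2⟩ := exists_nat_pow_near hR1 (by norm_num : (1 : ℝ) < 2)
  have hKk : K ≤ k := by
    have : (2 : ℝ) ^ K < 2 ^ (k + 1) := hR.trans_lt hk2
    have := (pow_lt_pow_iff_right₀ (by norm_num : (1 : ℝ) < 2)).1 this
    omega
  obtain ⟨h5, h6⟩ := hK k hKk
  have hRm : R ∈ E ∩ Ico ((2 : ℝ) ^ (k : ℤ)) ((2 : ℝ) ^ ((k : ℤ) + 1)) := by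
    refine ⟨hRE, ?_, ?_⟩
    · rw [zpow_natCast]; exact hk1
    · have : ((k : ℤ) + 1) = ((k + 1 : ℕ) : ℤ) := by push_cast; ring
      rw [this, zpow_natCast]; exact hk2
  have h7 : ‖ps G R x - ps G ((2 : ℝ) ^ (k : ℤ)) x‖ₑ ^ 2 < ENNReal.ofReal ((ε / 2) ^ 2) :=
    lt_of_le_of_lt (le_iSup₂ (f := fun R (_ : R ∈ E ∩ Ico ((2 : ℝ) ^ (k : ℤ))
      ((2 : ℝ) ^ ((k : ℤ) + 1))) => ‖ps G R x - ps G ((2 : ℝ) ^ (k : ℤ)) x‖ₑ ^ 2) R hRm) h6
  have h8 : ‖ps G R x - ps G (2 ^ k) x‖ < ε / 2 := by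
    rw [zpow_natCast, ← ofReal_norm, ← ENNReal.ofReal_pow (norm_nonneg _),
      ENNReal.ofReal_lt_ofReal_iff (by positivity)] at h7
    exact lt_of_pow_lt_pow_left₀ 2 (by positivity) h7
  calc dist (ps G R x) (f x) ≤ dist (ps G R x) (ps G (2 ^ k) x) + dist (ps G (2 ^ k) x) (f x) :=
        dist_triangle _ _ _
    _ < ε / 2 + ε / 2 := by
        rw [dist_eq_norm]
        exact add_lt_add h8 h5
    _ = ε := by ring

end Pool.Agent.Helper854_SP
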