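import Mathlib
import Pool.Agent.Helper854_SP.Conv

/-! The global inequality with a logarithmic weight. -/

set_option autoImplicit false

open MeasureTheory Real Set Filter Topology
open scoped ENNReal NNReal RealInnerProductSpace

namespace Pool.Agent.Helper854_SP

open Pool.Agent.Helper93.Sph

variable {m : ℕ} {A : Set ℝ} {G : En (m + 1) → ℂ}

/-- finer cells -/
lemma Nk_scale (A E : Set ℝ) (P : ℕ) (hP : 0 < P) (k : ℤ) : Nk A E P k ≤ P * Nk A E 1 k := by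
  classical
  have hP' : (0 : ℝ) < P := by exact_mod_cast hP
  set r : ℝ := (2 : ℝ) ^ k with hr
  set s : ℝ := (2 : ℝ) ^ (k + 1) with hs
  have h1 : cells A E P r s ⊆
      ((cells_fin (A := A) (E := E) (ρ := 1) (r := r) (s := s) one_pos).toFinset ×ˢ
        Finset.range P).image fun z => P * z.1 + z.2 := by
    rintro l ⟨R, hR, rfl⟩
    simp only [Finset.coe_image, mem_image, Finset.mem_coe, Finset.mem_product,
      Set.Finite.mem_toFinset, Finset.mem_range, Prod.exists]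
    set μ : ℝ := Mf A r R with hμ
    have hμ0 : 0 ≤ μ := Mf_nonneg _ _ _
    have h2 : (⌊μ⌋₊ : ℝ) ≤ μ := Nat.floor_le hμ0
    have h3 : μ < ⌊μ⌋₊ + 1 := Nat.lt_floor_add_one μ
    have h4 : P * ⌊μ⌋₊ ≤ ⌊(P : ℝ) * μ⌋₊ := by
      refine Nat.le_floor ?_
      push_cast
      exact mul_le_mul_of_nonneg_left h2 hP'.le
    have h5 : ⌊(P : ℝ) * μ⌋₊ < P * ⌊μ⌋₊ + P := by
      rw [Nat.floor_lt (by positivity)]
      push_cast
      nlinarith
    refine ⟨⌊1 * μ⌋₊, ⌊(P : ℝ) * μ⌋₊ - P * ⌊μ⌋₊, ⟨⟨R, hR, rfl⟩, by omega⟩, ?_⟩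
    rw [one_mul]
    omega
  unfold Nk
  refine (Set.ncard_le_ncard h1 (Finset.finite_toSet _)).trans ?_
  rw [Set.ncard_coe_finset]
  refine Finset.card_image_le.trans ?_
  rw [Finset.card_product, Finset.card_range, mul_comm,
    ← Set.ncard_eq_toFinset_card _ (cells_fin one_pos)]

lemma log_scale (A E : Set ℝ) (j : ℕ) (k : ℤ) :
    (1 + Real.log (Nk A E ((2 : ℝ) ^ j) k)) ^ 2
      ≤ ((j : ℝ) + 1) ^ 2 * (1 + Real.log (Nk A E 1 k)) ^ 2 := by
  have h1 : Nk A E ((2 ^ j : ℕ) : ℝ) k ≤ 2 ^ j * Nk A E 1 k := Nk_scale A E (2 ^ j) (by positivity) k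
  rw [show ((2 ^ j : ℕ) : ℝ) = (2 : ℝ) ^ j by push_cast; rfl] at h1
  have h0 : 0 ≤ Real.log (Nk A E 1 k) := Real.log_natCast_nonneg _
  have h0' : 0 ≤ Real.log (Nk A E ((2 : ℝ) ^ j) k) := Real.log_natCast_nonneg _
  have hj : (0 : ℝ) ≤ j := Nat.cast_nonneg j
  rw [← mul_pow]
  refine pow_le_pow_left₀ (by linarith) ?_ 2
  rcases Nat.eq_zero_or_pos (Nk A E ((2 : ℝ) ^ j) k) with h | h
  · rw [h]
    simp only [Nat.cast_zero, Real.log_zero, add_zero]
    nlinarith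
  · have h2 : 0 < Nk A E 1 k := by
      rcases Nat.eq_zero_or_pos (Nk A E 1 k) with h' | h'
      · rw [h', mul_zero] at h1; omega
      · exact h'
    have h3 : Real.log (Nk A E ((2 : ℝ) ^ j) k) ≤ j * Real.log 2 + Real.log (Nk A E 1 k) := by
      rw [← Real.log_pow, ← Real.log_mul (by positivity) (by positivity)]
      refine Real.log_le_log (by exact_mod_cast h) ?_
      exact_mod_cast h1
    have h4 : Real.log 2 ≤ 1 := by
      have := Real.log_two_lt_d9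
      linarith
    nlinarith

/-- the weight -/
noncomputable def wgt (n : ℕ) (x : En n) : ℝ≥0∞ :=
  ENNReal.ofReal (1 / (1 + Real.log (1 + ‖x‖)) ^ 4)

lemma wgt_le {n : ℕ} (j : ℕ) (x : En n) (h : j = 0 ∨ (2 : ℝ) ^ (j - 1) ≤ ‖x‖) :
    wgt n x ≤ ENNReal.ofReal (16 / ((j : ℝ) + 1) ^ 4) := by
  refine ENNReal.ofReal_le_ofReal ?_
  have h0 : 0 ≤ Real.log (1 + ‖x‖) := Real.log_nonneg (by linarith [norm_nonneg x])
  have h1 : ((j : ℝ) + 1) / 2 ≤ 1 + Real.log (1 + ‖x‖) := by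
    rcases h with h | h
    · rw [h]; push_cast; linarith
    · have h2 : ((j - 1 : ℕ) : ℝ) * Real.log 2 ≤ Real.log (1 + ‖x‖) := by
        rw [← Real.log_pow]
        exact Real.log_le_log (by positivity) (by linarith)
      have h3 := Real.log_two_gt_d9
      rcases Nat.eq_zero_or_pos j with hj | hj
      · rw [hj]; push_cast; linarith
      · have h4 : ((j - 1 : ℕ) : ℝ) = (j : ℝ) - 1 := by rw [Nat.cast_sub hj]; simp
        rw [h4] at h2
        have h5 : (1 : ℝ) ≤ j := by exact_mod_cast hj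
        nlinarith
  have h2 : (((j : ℝ) + 1) / 2) ^ 4 ≤ (1 + Real.log (1 + ‖x‖)) ^ 4 :=
    pow_le_pow_left₀ (by positivity) h1 4
  have h3 : (16 : ℝ) / ((j : ℝ) + 1) ^ 4 = 1 / (((j : ℝ) + 1) / 2) ^ 4 := by
    field_simp; norm_num
  rw [h3]
  exact one_div_le_one_div_of_le (by positivity) h2

lemma cover {n : ℕ} (x : En n) : ∃ j : ℕ, x ∈ Metric.closedBall (0 : En n) ((2 : ℝ) ^ j) ∧
    (j = 0 ∨ (2 : ℝ) ^ (j - 1) ≤ ‖x‖) := by
  rcases le_or_gt ‖x‖ 1 with h | h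
  · exact ⟨0, by simpa using h, Or.inl rfl⟩
  · obtain ⟨k, hk1, hk2⟩ := exists_nat_pow_near h.le (by norm_num : (1 : ℝ) < 2)
    exact ⟨k + 1, by simpa using hk2.le, Or.inr (by simpa using hk1)⟩

/-- numerical constant -/
noncomputable def cW : ℝ≥0∞ := ∑' j : ℕ, ENNReal.ofReal (16 / ((j : ℝ) + 1) ^ 2)

lemma cW_ne_top : cW ≠ ⊤ := by
  have h1 : Summable fun j : ℕ => (16 : ℝ) / ((j : ℝ) + 1) ^ 2 := by
    have h2 : Summable fun j : ℕ => 1 / ((j : ℝ)) ^ 2 := Real.summable_one_div_nat_pow.2 (by norm_num)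
    have h3 := (summable_nat_add_iff 1).2 h2
    have h4 := h3.mul_left 16
    refine h4.congr fun j => ?_
    push_cast
    ring
  exact h1.tsum_ofReal_ne_top

/-- **the weighted inequality on the whole space** -/
theorem glob_max (hA : MeasurableSet A) (hG : MemLp G 2) (hs : Supp A G) (E : Set ℝ) :
    ∫⁻ x, (⨆ R ∈ E, ‖ps G R x‖ₑ ^ 2) * wgt (m + 1) x
      ≤ (cW * cM m) * ∑' k : ℤ, ENNReal.ofReal ((1 + Real.log (Nk A E 1 k)) ^ 2) *
        lam G (Ico ((2 : ℝ) ^ k) ((2 : ℝ) ^ (k + 1))) := by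
  set Q : ℝ≥0∞ := ∑' k : ℤ, ENNReal.ofReal ((1 + Real.log (Nk A E 1 k)) ^ 2) *
        lam G (Ico ((2 : ℝ) ^ k) ((2 : ℝ) ^ (k + 1))) with hQ
  set F : En (m + 1) → ℝ≥0∞ := fun x => ⨆ R ∈ E, ‖ps G R x‖ₑ ^ 2 with hF
  have hFm : Measurable F := by
    refine LowerSemicontinuous.measurable ?_
    refine lowerSemicontinuous_biSup fun R _ => Continuous.lowerSemicontinuous ?_
    exact (ENNReal.continuous_pow 2).comp (ps_cont_x hG _).enorm
  have hpt : ∀ x, F x * wgt (m + 1) x ≤ ∑' j : ℕ,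
      (Metric.closedBall (0 : En (m + 1)) ((2 : ℝ) ^ j)).indicator
        (fun x => ENNReal.ofReal (16 / ((j : ℝ) + 1) ^ 4) * F x) x := by
    intro x
    obtain ⟨j, hj1, hj2⟩ := cover x
    refine le_trans ?_ (ENNReal.le_tsum j)
    rw [indicator_of_mem hj1, mul_comm]
    exact mul_le_mul_left (wgt_le j x hj2) _
  refine (lintegral_mono hpt).trans ?_
  rw [lintegral_tsum fun j => ((hFm.const_mul _).indicator
    Metric.isClosed_closedBall.measurableSet).aemeasurable]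
  rw [cW, mul_assoc, ← ENNReal.tsum_mul_right]
  refine ENNReal.tsum_le_tsum fun j => ?_
  rw [lintegral_indicator Metric.isClosed_closedBall.measurableSet,
    lintegral_const_mul' _ _ ENNReal.ofReal_ne_top]
  have h1 := main_max hA hG hs E (0 : En (m + 1)) (ρ := (2 : ℝ) ^ j) (by positivity)
  have h2 : ∑' k : ℤ, ENNReal.ofReal ((1 + Real.log (Nk A E ((2 : ℝ) ^ j) k)) ^ 2) *
        lam G (Ico ((2 : ℝ) ^ k) ((2 : ℝ) ^ (k + 1))) ≤ ENNReal.ofReal (((j : ℝ) + 1) ^ 2) * Q := by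
    rw [hQ, ← ENNReal.tsum_mul_left]
    refine ENNReal.tsum_le_tsum fun k => ?_
    rw [← mul_assoc, ← ENNReal.ofReal_mul (by positivity)]
    exact mul_le_mul_left (ENNReal.ofReal_le_ofReal (log_scale A E j k)) _
  calc ENNReal.ofReal (16 / ((j : ℝ) + 1) ^ 4) *
        ∫⁻ x in Metric.closedBall (0 : En (m + 1)) ((2 : ℝ) ^ j), F x
      ≤ ENNReal.ofReal (16 / ((j : ℝ) + 1) ^ 4) *
        (cM m * (ENNReal.ofReal (((j : ℝ) + 1) ^ 2) * Q)) := by
        refine mul_le_mul_right (h1.trans (mul_le_mul_right h2 _)) _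
    _ = (ENNReal.ofReal (16 / ((j : ℝ) + 1) ^ 4) * ENNReal.ofReal (((j : ℝ) + 1) ^ 2)) *
        (cM m * Q) := by ring
    _ = _ := by
        rw [← ENNReal.ofReal_mul (by positivity)]
        congr 2
        field_simp

end Pool.Agent.Helper854_SP
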